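import Pool.Agent.Y916.Af.Trd

/-!
Transcendence degrees of fields with the same algebraic closure.
-/

set_option autoImplicit false

open AlgebraicIndependent

namespace Pool.Agent.T2h17.MJ

theorem mem_cl {X : Set ℂ} {x : ℂ} (h : IsAlgebraic (Algebra.adjoin ℚ X) x) : x ∈ (matroid ℚ ℂ).closure X := by
  rw [matroid_closure_eq, SetLike.mem_coe, Subalgebra.mem_algebraicClosure]
  exact h

/-- the transcendence degree does not grow in algebraic extensions -/
theorem trdeg_le_alg {X X' : Set ℂ} (hX : X.Finite) (h : ∀ x ∈ X', IsAlgebraic (Algebra.adjoin ℚ X) x) :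
    Algebra.trdeg ℚ (IntermediateField.adjoin ℚ X') ≤ Algebra.trdeg ℚ (IntermediateField.adjoin ℚ X) := by
  classical
  obtain ⟨B, hB⟩ := (matroid ℚ ℂ).exists_isBasis X (by rw [matroid_e]; exact Set.subset_univ _)
  have hBX : B ⊆ X := hB.subset
  have hBf : B.Finite := hX.subset hBX
  have h1 : X' ⊆ (matroid ℚ ℂ).closure (hBf.toFinset : Set ℂ) := by
    intro x hx
    rw [Set.Finite.coe_toFinset, hB.closure_eq_closure]
    exact mem_cl (h x hx)
  refine (Pool.Agent.Y916.Af.trdeg_le_of_closure _ h1).trans ?_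
  have h2 : AlgebraicIndependent ℚ (fun i : B => (i : ℂ)) := matroid_indep_iff.1 hB.indep
  have h3 := (AlgHom.algebraicIndependent_iff (ι := B) (R := ℚ)
      (x := fun i : B => (⟨i, IntermediateField.subset_adjoin ℚ X (hBX i.2)⟩ : IntermediateField.adjoin ℚ X))
      (IntermediateField.adjoin ℚ X).val (IntermediateField.adjoin ℚ X).val.injective).1 h2
  have h4 := h3.cardinalMk_le_trdeg
  have h5 : (hBf.toFinset.card : Cardinal) = Cardinal.mk B := by
    rw [← Cardinal.mk_coe_finset]
    congr 1
    simp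
  rw [h5]
  exact h4

end Pool.Agent.T2h17.MJ
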