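import Pool.Agent.T2h17.MJ.GalA

/-!
# Galochkin's condition for the equation of the modular invariant
-/

set_option autoImplicit false

open PowerSeries Pool.Agent.Y113

namespace Pool.Agent.T2h17.MJ

open Pool.Agent.Y120.GH (itm)
open Pool.Agent.Y120.J

lemma SDc_neg' {f : ℚ⟦X⟧} (h : SDc f) : SDc (-f) := by
  have h1 := (SDc.int (-1)).mul h
  have h2 : (((-1 : ℤ) : ℚ⟦X⟧)) * f = -f := by push_cast; ring
  rwa [h2] at h1

theorem gal_J (hode : T_ODE) (hsd : T_SD) : ∃ C : ℝ, ∀ m, ∃ d : ℕ, 0 < d ∧ (d : ℝ) ≤ C ^ (m + 1) ∧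
    ∀ s ≤ m, ∀ i j, ∃ H : Polynomial ℤ, (d : Polynomial ℤ) *
      itm (Polynomial.X * T1) (![![0, T1], ![Q1, 0]] : Fin 2 → Fin 2 → Polynomial ℤ) s i j =
      (s.factorial : Polynomial ℤ) * H := by
  obtain ⟨h1, h2, h3⟩ := hode
  obtain ⟨hF, hG⟩ := hsd
  have hF1 : SDc F1 := SDc.X.mul hF.deriv
  have hG1 : SDc G1 := (SDc.X.mul hG.deriv).add hF
  set H : Matrix (Fin 2) (Fin 2) ℚ⟦X⟧ := !![FF, GG; F1, G1] with hH
  set W : Matrix (Fin 2) (Fin 2) ℚ⟦X⟧ := !![G1, -GG; -F1, FF] with hW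
  refine gal_of (n := 2) (H := H) (W := W) (N := !![0, 1; 0, 0]) (T₁ := T1)
    (A := ![![0, T1], ![Q1, 0]]) ?_ ?_ ?_ ?_ ?_
  · rw [pow_two]
    ext i j
    fin_cases i <;> fin_cases j <;> simp [Matrix.mul_apply, Fin.sum_univ_two]
  · rw [hH, hW, Matrix.mul_fin_two]
    refine Matrix.ext fun i j => ?_
    fin_cases i <;> fin_cases j
    · show FF * G1 + GG * -F1 = 1
      linear_combination h3
    · show FF * -GG + GG * FF = 0
      ring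
    · show F1 * G1 + G1 * -F1 = 0
      ring
    · show F1 * -GG + G1 * FF = 1
      linear_combination h3
  · intro i j
    have h0 : ps (0 : Polynomial ℤ) = 0 := by
      unfold ps
      simp
    fin_cases i <;> fin_cases j
    · show ps T1 * (X * d⁄dX ℚ FF + ∑ k, H 0 k * C ((!![0, 1; 0, 0] : Matrix (Fin 2) (Fin 2) ℚ) k 0)) =
        ∑ k, ps ((![![0, T1], ![Q1, 0]] : Fin 2 → Fin 2 → Polynomial ℤ) 0 k) * H k 0
      rw [Fin.sum_univ_two, Fin.sum_univ_two]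
      show ps T1 * (X * d⁄dX ℚ FF + (FF * C (0 : ℚ) + GG * C (0 : ℚ))) = ps 0 * FF + ps T1 * F1
      rw [h0, map_zero]
      unfold F1
      ring
    · show ps T1 * (X * d⁄dX ℚ GG + ∑ k, H 0 k * C ((!![0, 1; 0, 0] : Matrix (Fin 2) (Fin 2) ℚ) k 1)) =
        ∑ k, ps ((![![0, T1], ![Q1, 0]] : Fin 2 → Fin 2 → Polynomial ℤ) 0 k) * H k 1
      rw [Fin.sum_univ_two, Fin.sum_univ_two]
      show ps T1 * (X * d⁄dX ℚ GG + (FF * C (1 : ℚ) + GG * C (0 : ℚ))) = ps 0 * GG + ps T1 * G1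
      rw [h0, map_zero, map_one]
      unfold G1
      ring
    · show ps T1 * (X * d⁄dX ℚ F1 + ∑ k, H 1 k * C ((!![0, 1; 0, 0] : Matrix (Fin 2) (Fin 2) ℚ) k 0)) =
        ∑ k, ps ((![![0, T1], ![Q1, 0]] : Fin 2 → Fin 2 → Polynomial ℤ) 1 k) * H k 0
      rw [Fin.sum_univ_two, Fin.sum_univ_two]
      show ps T1 * (X * d⁄dX ℚ F1 + (F1 * C (0 : ℚ) + G1 * C (0 : ℚ))) = ps Q1 * FF + ps 0 * F1
      rw [h0, map_zero, ← h1]
      ring
    · show ps T1 * (X * d⁄dX ℚ G1 + ∑ k, H 1 k * C ((!![0, 1; 0, 0] : Matrix (Fin 2) (Fin 2) ℚ) k 1)) =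
        ∑ k, ps ((![![0, T1], ![Q1, 0]] : Fin 2 → Fin 2 → Polynomial ℤ) 1 k) * H k 1
      rw [Fin.sum_univ_two, Fin.sum_univ_two]
      show ps T1 * (X * d⁄dX ℚ G1 + (F1 * C (1 : ℚ) + G1 * C (0 : ℚ))) = ps Q1 * GG + ps 0 * G1
      rw [h0, map_zero, map_one, ← h2]
      ring
  · intro i j
    fin_cases i <;> fin_cases j
    · exact hF
    · exact hG
    · exact hF1
    · exact hG1
  · intro i j
    fin_cases i <;> fin_cases j
    · exact hG1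
    · exact SDc_neg' hG
    · exact SDc_neg' hF1
    · exact hF

theorem gal_JJ : ∃ C : ℝ, ∀ m, ∃ d : ℕ, 0 < d ∧ (d : ℝ) ≤ C ^ (m + 1) ∧
    ∀ s ≤ m, ∀ i j, ∃ H : Polynomial ℤ, (d : Polynomial ℤ) *
      itm (Polynomial.X * T1) (![![0, T1], ![Q1, 0]] : Fin 2 → Fin 2 → Polynomial ℤ) s i j =
      (s.factorial : Polynomial ℤ) * H :=
  gal_J Pool.Agent.Y737.J.t_ode Pool.Agent.Y809.J.t_sd

end Pool.Agent.T2h17.MJ
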