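import Pool.Agent.T2h17.MJ.Stm
import Pool.Agent.T2h17.MJ.GalB

/-!
# Galochkin's condition for the equation of the modular invariant
-/

set_option autoImplicit false

namespace Pool.Agent.T2h17.MJ

theorem t_gal : S_GAL := gal_JJ

end Pool.Agent.T2h17.MJ
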