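import Pool.Agent.T2h17.MJ.Stm
import Pool.Agent.Y949.J.RamT

/-!
(ODE): the differential equation of third order of the modular invariant (helper31 for helper17)
-/

set_option autoImplicit false

open Filter Topology UpperHalfPlane
open scoped Derivative ModularForm Manifold

namespace Pool.Agent.T2h17.MJ

open Pool.Agent.TH21.MS (jj E4 E6 E4_eq E6_eq disc_ne)

namespace ODE

theorem tp_ne : tp ≠ 0 := by
  have hpi : (Real.pi : ℂ) ≠ 0 := by exact_mod_cast Real.pi_ne_zero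
  unfold tp
  exact mul_ne_zero (mul_ne_zero two_ne_zero hpi) Complex.I_ne_zero

/-- `E₄` -/
noncomputable def a (w : ℂ) : ℂ := ((fun z : ℍ => ModularForm.E₄ z) ∘ ofComplex) w

/-- `E₆` -/
noncomputable def b (w : ℂ) : ℂ := ((fun z : ℍ => ModularForm.E₆ z) ∘ ofComplex) w

/-- `E₂` -/
noncomputable def c (w : ℂ) : ℂ := (EisensteinSeries.E2 ∘ ofComplex) w

theorem ofC {w : ℂ} (hw : 0 < w.im) : ofComplex w = ⟨w, hw⟩ := ofComplex_apply_of_im_pos hw

theorem curve {f : ℍ → ℂ} (hf : MDiff f) {w : ℂ} (hw : 0 < w.im) :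
    HasDerivAt (f ∘ ofComplex) (tp * Derivative.normalizedDerivOfComplex f ⟨w, hw⟩) w := by
  have h0 := UpperHalfPlane.mdifferentiable_iff.1 hf
  have hopen : IsOpen {z : ℂ | 0 < z.im} := isOpen_upperHalfPlaneSet
  have h1 : HasDerivAt (f ∘ ofComplex) (deriv (f ∘ ofComplex) w) w :=
    (h0.differentiableAt (hopen.mem_nhds hw)).hasDerivAt
  refine h1.congr_deriv ?_
  unfold Derivative.normalizedDerivOfComplex
  have e1 : (((⟨w, hw⟩ : ℍ) : ℍ) : ℂ) = w := rfl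
  rw [e1]
  have hpi : (Real.pi : ℂ) ≠ 0 := by exact_mod_cast Real.pi_ne_zero
  have hI := Complex.I_ne_zero
  unfold tp
  field_simp

theorem da {w : ℂ} (hw : 0 < w.im) : HasDerivAt a (tp * (3⁻¹ * (c w * a w - b w))) w := by
  have h1 := curve (f := fun w => ModularForm.E₄ w) (ModularFormClass.holo _) hw
  rw [(Pool.Agent.Y949.J.t_RAM46 ⟨w, hw⟩).1] at h1
  have e : tp * (3⁻¹ * (c w * a w - b w)) = tp * (3⁻¹ * (EisensteinSeries.E2 ⟨w, hw⟩ *
      ModularForm.E₄ ⟨w, hw⟩ - ModularForm.E₆ ⟨w, hw⟩)) := by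
    unfold a b c
    simp only [Function.comp_apply, ofC hw]
  rw [e]
  exact h1

theorem db {w : ℂ} (hw : 0 < w.im) : HasDerivAt b (tp * (2⁻¹ * (c w * b w - a w ^ 2))) w := by
  have h1 := curve (f := fun w => ModularForm.E₆ w) (ModularFormClass.holo _) hw
  rw [(Pool.Agent.Y949.J.t_RAM46 ⟨w, hw⟩).2] at h1
  have e : tp * (2⁻¹ * (c w * b w - a w ^ 2)) = tp * (2⁻¹ * (EisensteinSeries.E2 ⟨w, hw⟩ *
      ModularForm.E₆ ⟨w, hw⟩ - ModularForm.E₄ ⟨w, hw⟩ ^ 2)) := by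
    unfold a b c
    simp only [Function.comp_apply, ofC hw]
  rw [e]
  exact h1

theorem dc {w : ℂ} (hw : 0 < w.im) : HasDerivAt c (tp * (12⁻¹ * (c w ^ 2 - a w))) w := by
  have h1 := curve (f := EisensteinSeries.E2) E2_mdifferentiable hw
  rw [Pool.Agent.Y949.J.t_RAM2 ⟨w, hw⟩] at h1
  have e : tp * (12⁻¹ * (c w ^ 2 - a w)) = tp * (12⁻¹ * (EisensteinSeries.E2 ⟨w, hw⟩ ^ 2 -
      ModularForm.E₄ ⟨w, hw⟩)) := by
    unfold a c
    simp only [Function.comp_apply, ofC hw]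
  rw [e]
  exact h1

theorem a_eq {w : ℂ} (hw : 0 < w.im) : E4 w = a w := by
  have h := E4_eq ⟨w, hw⟩
  unfold a
  simp only [Function.comp_apply, ofC hw]
  exact h

theorem b_eq {w : ℂ} (hw : 0 < w.im) : E6 w = b w := by
  have h := E6_eq ⟨w, hw⟩
  unfold b
  simp only [Function.comp_apply, ofC hw]
  exact h

theorem disc {w : ℂ} (hw : 0 < w.im) : a w ^ 3 - b w ^ 2 ≠ 0 := by
  have h := disc_ne ⟨w, hw⟩
  rw [← a_eq hw, ← b_eq hw]
  exact h

theorem jj_eq {w : ℂ} (hw : 0 < w.im) : jj w = 1728 * a w ^ 3 / (a w ^ 3 - b w ^ 2) := by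
  unfold jj
  rw [a_eq hw, b_eq hw]

theorem ev_im {w : ℂ} (hw : 0 < w.im) : ∀ᶠ v in 𝓝 w, 0 < v.im :=
  (isOpen_lt continuous_const Complex.continuous_im).mem_nhds hw

theorem dj {w : ℂ} (hw : 0 < w.im) : HasDerivAt jj
    (-tp * (1728 * a w ^ 2 * b w / (a w ^ 3 - b w ^ 2))) w := by
  have h0 := disc hw
  have h1 : HasDerivAt (fun v => 1728 * a v ^ 3 / (a v ^ 3 - b v ^ 2))
      (-tp * (1728 * a w ^ 2 * b w / (a w ^ 3 - b w ^ 2))) w := by
    have hn := ((da hw).pow 3).const_mul 1728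
    have hd := ((da hw).pow 3).sub ((db hw).pow 2)
    refine (hn.div hd h0).congr_deriv ?_
    simp only [Pi.pow_apply, Pi.sub_apply]
    field_simp
    ring
  refine h1.congr_of_eventuallyEq ?_
  filter_upwards [ev_im hw] with v hv using jj_eq hv

theorem a_ne {w : ℂ} (hw : 0 < w.im) (h : jj w ≠ 0) : a w ≠ 0 := by
  intro h0
  apply h
  rw [jj_eq hw, h0]
  simp

theorem b_ne {w : ℂ} (hw : 0 < w.im) (h : jj w ≠ 1728) : b w ≠ 0 := by
  intro h0
  apply h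
  have h1 := disc hw
  rw [h0] at h1
  rw [jj_eq hw, h0]
  have h2 : a w ^ 3 ≠ 0 := by simpa using h1
  field_simp
  ring

/-- near a point with `j ≠ 0, 1728` -/
theorem ev_ne {w : ℂ} (hw : 0 < w.im) (ha : a w ≠ 0) (hb : b w ≠ 0) :
    ∀ᶠ v in 𝓝 w, 0 < v.im ∧ a v ≠ 0 ∧ b v ≠ 0 := by
  filter_upwards [ev_im hw, (da hw).continuousAt.eventually_ne ha, (db hw).continuousAt.eventually_ne hb]
    with v h1 h2 h3 using ⟨h1, h2, h3⟩

theorem phi_eq {w : ℂ} (hw : 0 < w.im) (ha : a w ≠ 0) :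
    -deriv jj w / (tp * jj w) = b w / a w := by
  rw [(dj hw).deriv, jj_eq hw]
  have h0 := disc hw
  have ht := tp_ne
  field_simp

theorem dphi {w : ℂ} (hw : 0 < w.im) (ha : a w ≠ 0) : HasDerivAt (fun v => b v / a v)
    (tp * (a w * b w * c w - 3 * a w ^ 3 + 2 * b w ^ 2) / (6 * a w ^ 2)) w := by
  refine ((db hw).div (da hw) ha).congr_deriv ?_
  field_simp
  ring

theorem sig_eq {w : ℂ} (hw : 0 < w.im) (ha : a w ≠ 0) (hb : b w ≠ 0) (d : ℂ)
    (hd : d = tp * (a w * b w * c w - 3 * a w ^ 3 + 2 * b w ^ 2) / (6 * a w ^ 2)) :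
    -(jj w / deriv jj w) * (d / (2 * (b w / a w))) =
      (a w * b w * c w - 3 * a w ^ 3 + 2 * b w ^ 2) / (12 * b w ^ 2) := by
  rw [(dj hw).deriv, jj_eq hw, hd]
  have h0 := disc hw
  have ht := tp_ne
  field_simp
  ring

theorem dsig {w : ℂ} (hw : 0 < w.im) (hb : b w ≠ 0) :
    HasDerivAt (fun v => (a v * b v * c v - 3 * a v ^ 3 + 2 * b v ^ 2) / (12 * b v ^ 2))
      (tp * (((3⁻¹ * (c w * a w - b w)) * b w * c w + a w * (2⁻¹ * (c w * b w - a w ^ 2)) * c w +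
        a w * b w * (12⁻¹ * (c w ^ 2 - a w)) - 9 * a w ^ 2 * (3⁻¹ * (c w * a w - b w)) +
        4 * b w * (2⁻¹ * (c w * b w - a w ^ 2))) / (12 * b w ^ 2) -
        (a w * b w * c w - 3 * a w ^ 3 + 2 * b w ^ 2) * (2⁻¹ * (c w * b w - a w ^ 2)) / (6 * b w ^ 3))) w := by
  have hn := ((((da hw).mul (db hw)).mul (dc hw)).sub (((da hw).pow 3).const_mul 3)).add
    (((db hw).pow 2).const_mul 2)
  have hd := ((db hw).pow 2).const_mul 12
  have hne : (12 : ℂ) * b w ^ 2 ≠ 0 := mul_ne_zero (by norm_num) (pow_ne_zero _ hb)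
  refine (hn.div hd hne).congr_deriv ?_
  simp only [Pi.mul_apply, Pi.pow_apply, Pi.sub_apply, Pi.add_apply]
  field_simp
  ring

end ODE

open ODE in
theorem t_ode : S_ODE := by
  intro z hz h0 h1 φ σ hφ hσ
  have ha := a_ne hz h0
  have hb := b_ne hz h1
  have hev := ev_ne hz ha hb
  have e1 : φ =ᶠ[𝓝 z] fun v => b v / a v := by
    filter_upwards [hev] with v hv
    rw [hφ v, phi_eq hv.1 hv.2.1]
  have e2 : ∀ᶠ v in 𝓝 z, σ v = (a v * b v * c v - 3 * a v ^ 3 + 2 * b v ^ 2) / (12 * b v ^ 2) := by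
    filter_upwards [hev, e1.deriv, e1] with v hv hd hv1
    rw [hσ v, hv1]
    refine sig_eq hv.1 hv.2.1 hv.2.2 _ ?_
    rw [hd, (dphi hv.1 hv.2.1).deriv]
  have e3 : deriv σ z = _ := (Filter.EventuallyEq.deriv_eq e2).trans (dsig hz hb).deriv
  rw [e3, e2.self_of_nhds, (dj hz).deriv, jj_eq hz]
  have hd := disc hz
  have ht := tp_ne
  have hk : 1 - 1728 * (1 / (1728 * a z ^ 3 / (a z ^ 3 - b z ^ 2))) = b z ^ 2 / a z ^ 3 := by
    field_simp
    ring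
  rw [hk]
  field_simp
  ring

end Pool.Agent.T2h17.MJ
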