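import Pool.Agent.T2h17.MJ.Stm
import Pool.Agent.T2h17.MJ.Ode
import Pool.Agent.TH21.MS.Nome

/-!
(IND), (DER): the functions `j, z, j', j''` are algebraically independent; the derivative of `j`
vanishes only at the elliptic points (helper7 for helper17)
-/

set_option autoImplicit false

open Filter Topology

namespace Pool.Agent.T2h17.MJ

open Pool.Agent.TH21.MS (jj g0 g1 g2 uM LB_uM ev jj_an jj_I jj_deriv jj_deriv2)

theorem t_der : S_DER := by
  intro z hz h0 h1
  rw [(ODE.dj hz).deriv]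
  exact mul_ne_zero (neg_ne_zero.2 ODE.tp_ne) (div_ne_zero (mul_ne_zero (mul_ne_zero (by norm_num)
    (pow_ne_zero _ (ODE.a_ne hz h0))) (ODE.b_ne hz h1)) (ODE.disc hz))

namespace IND

/-- the real relation as a polynomial in `j, j', j''` over the polynomials in `y` -/
noncomputable def RP (S : Finset (Fin 4 →₀ ℕ)) (d : (Fin 4 →₀ ℕ) → ℝ) :
    MvPolynomial (Unit ⊕ (Fin 1 × Fin 3)) (Polynomial ℝ) :=
  ∑ e ∈ S, MvPolynomial.C (Polynomial.C (d e) * Polynomial.X ^ (e 1)) *
    MvPolynomial.X (Sum.inr (0, 0)) ^ (e 0) * MvPolynomial.X (Sum.inr (0, 1)) ^ (e 2) *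
    MvPolynomial.X (Sum.inr (0, 2)) ^ (e 3)

theorem RP_eval (S : Finset (Fin 4 →₀ ℕ)) (d : (Fin 4 →₀ ℕ) → ℝ) (t : ℝ)
    (v : Unit ⊕ (Fin 1 × Fin 3) → ℝ) :
    MvPolynomial.eval₂ (Polynomial.evalRingHom t) v (RP S d) =
      ∑ e ∈ S, d e * t ^ (e 1) * v (Sum.inr (0, 0)) ^ (e 0) * v (Sum.inr (0, 1)) ^ (e 2) *
        v (Sum.inr (0, 2)) ^ (e 3) := by
  unfold RP
  rw [← MvPolynomial.coe_eval₂Hom, map_sum]
  refine Finset.sum_congr rfl fun e _ => ?_
  simp only [map_mul, map_pow, MvPolynomial.eval₂Hom_X', MvPolynomial.eval₂Hom_C,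
    Polynomial.coe_evalRingHom, Polynomial.eval_C, Polynomial.eval_X]

theorem real_zero (S : Finset (Fin 4 →₀ ℕ)) (d : (Fin 4 →₀ ℕ) → ℝ)
    (h : ∀ᶠ y in atTop, ∑ e ∈ S, d e * y ^ (e 1) * g0 y ^ (e 0) * g1 y ^ (e 2) *
      g2 y ^ (e 3) = 0) : ∀ e ∈ S, d e = 0 := by
  obtain ⟨hh, hLB⟩ := LB_uM
  have hQ : RP S d = 0 := by
    by_contra hne
    obtain ⟨C, hC⟩ := hLB _ hne
    have hval : ∀ᶠ t in atTop, ev uM (RP S d) t = 0 := by
      filter_upwards [h] with t ht
      unfold ev
      rw [RP_eval]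
      exact ht
    obtain ⟨t, ht1, ht2⟩ := (hC.and hval).exists
    rw [ht2, abs_zero] at ht1
    exact absurd ht1 (not_le.2 (Real.exp_pos _))
  have hR : (∑ e ∈ S, MvPolynomial.monomial e (d e) : MvPolynomial (Fin 4) ℝ) = 0 := by
    apply MvPolynomial.funext
    intro w
    rw [map_zero, map_sum]
    have h1 := RP_eval S d (w 1) (Sum.elim (fun _ => 0) (fun q => ![w 0, w 2, w 3] q.2))
    rw [hQ, MvPolynomial.eval₂_zero] at h1
    simp only [Sum.elim_inr, Matrix.cons_val_zero, Matrix.cons_val_one, Matrix.cons_val] at h1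
    rw [h1]
    refine Finset.sum_congr rfl fun e _ => ?_
    rw [MvPolynomial.eval_monomial, Finsupp.prod_fintype _ _ (by simp), Fin.prod_univ_four]
    ring
  intro e he
  classical
  have h3 := congrArg (MvPolynomial.coeff e) hR
  rw [MvPolynomial.coeff_sum, Finset.sum_eq_single e, MvPolynomial.coeff_monomial, if_pos rfl,
    MvPolynomial.coeff_zero] at h3
  · exact h3
  · intro b _ hb
    rw [MvPolynomial.coeff_monomial, if_neg hb]
  · intro h
    exact absurd he h

end IND

theorem t_ind : S_IND := by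
  intro z₀ hz₀ Q hQ
  -- the identity theorem
  have hF : (fun z : ℂ => MvPolynomial.eval ![jj z, z, deriv jj z, deriv (deriv jj) z] Q) =
      fun z : ℂ => ∑ e ∈ Q.support, Q.coeff e * (jj z ^ (e 0) * z ^ (e 1) * deriv jj z ^ (e 2) *
        deriv (deriv jj) z ^ (e 3)) := by
    funext z
    rw [MvPolynomial.eval_eq']
    refine Finset.sum_congr rfl fun e _ => ?_
    rw [Fin.prod_univ_four]
    rfl
  have han : AnalyticOnNhd ℂ (fun z : ℂ => MvPolynomial.eval
      ![jj z, z, deriv jj z, deriv (deriv jj) z] Q) {z : ℂ | 0 < z.im} := by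
    rw [hF]
    intro z hz
    have h1 := jj_an z hz
    refine Finset.analyticAt_fun_sum _ fun e _ => ?_
    exact analyticAt_const.mul ((((h1.pow _).mul (analyticAt_id.pow _)).mul (h1.deriv.pow _)).mul
      (h1.deriv.deriv.pow _))
  have hpc : IsPreconnected {z : ℂ | 0 < z.im} :=
    (convex_halfSpace_im_gt 0).isPreconnected
  have hall := han.eqOn_zero_of_preconnected_of_eventuallyEq_zero hpc hz₀ hQ
  -- the imaginary axis
  set d : (Fin 4 →₀ ℕ) → ℂ := fun e => Q.coeff e * Complex.I ^ (e 1) * (-Complex.I) ^ (e 2) *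
    (-1) ^ (e 3) with hd
  have hsum : ∀ y : ℝ, 0 < y → ∑ e ∈ Q.support, d e * ((y ^ (e 1) * g0 y ^ (e 0) * g1 y ^ (e 2) *
      g2 y ^ (e 3) : ℝ) : ℂ) = 0 := by
    intro y hy
    have h := hall (show 0 < (Complex.I * (y : ℂ)).im by simpa using hy)
    have h2 := congrFun hF (Complex.I * (y : ℂ))
    simp only [Pi.zero_apply] at h h2
    rw [h2, jj_I, jj_deriv y hy, jj_deriv2 y hy] at h
    rw [← h]
    refine Finset.sum_congr rfl fun e _ => ?_
    simp only [hd]
    push_cast
    rw [mul_pow, mul_pow, neg_pow ((g2 y : ℝ) : ℂ)]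
    ring
  have hre : ∀ e ∈ Q.support, (d e).re = 0 := by
    refine IND.real_zero Q.support (fun e => (d e).re) ?_
    filter_upwards [eventually_gt_atTop 0] with y hy
    have h := congrArg Complex.re (hsum y hy)
    rw [Complex.re_sum] at h
    simp only [Complex.re_mul_ofReal, Complex.zero_re] at h
    rw [← h]
    exact Finset.sum_congr rfl fun e _ => by ring
  have him : ∀ e ∈ Q.support, (d e).im = 0 := by
    refine IND.real_zero Q.support (fun e => (d e).im) ?_
    filter_upwards [eventually_gt_atTop 0] with y hy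
    have h := congrArg Complex.im (hsum y hy)
    rw [Complex.im_sum] at h
    simp only [Complex.im_mul_ofReal, Complex.zero_im] at h
    rw [← h]
    exact Finset.sum_congr rfl fun e _ => by ring
  by_contra hne
  obtain ⟨e, he⟩ := MvPolynomial.support_nonempty.2 hne
  have h0 : d e = 0 := Complex.ext (hre e he) (him e he)
  have hI : Complex.I ≠ 0 := Complex.I_ne_zero
  have hc : Q.coeff e ≠ 0 := MvPolynomial.mem_support_iff.1 he
  have : d e ≠ 0 := by
    simp only [hd]
    refine mul_ne_zero (mul_ne_zero (mul_ne_zero hc (pow_ne_zero _ hI))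
      (pow_ne_zero _ (neg_ne_zero.2 hI))) (pow_ne_zero _ (by norm_num))
  exact this h0

end Pool.Agent.T2h17.MJ
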