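import Pool.Agent.Y916.Al.Ev

/-!
Derivatives of the values of power series with rational coefficients.
-/

set_option autoImplicit false

open PowerSeries Filter Topology

namespace Pool.Agent.T2h17.MJ

open Pool.Agent.Y916.Al

theorem const_of_zero {F : ℂ → ℂ} {c : ℂ} {ρ : ℝ} (hρ : 0 < ρ)
    (h : ∀ z : ℂ, ‖z - c‖ < ρ → HasDerivAt F 0 z) (z : ℂ) (hz : ‖z - c‖ < ρ) : F z = F c := by
  have hb : ∀ w : ℂ, w ∈ Metric.ball c ρ ↔ ‖w - c‖ < ρ := fun w => by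
    rw [Metric.mem_ball, dist_eq_norm]
  refine IsOpen.is_const_of_deriv_eq_zero (s := Metric.ball c ρ) Metric.isOpen_ball
    (convex_ball c ρ).isPreconnected ?_ ?_ ((hb z).2 hz) (Metric.mem_ball_self hρ)
  · intro w hw
    exact (h w ((hb w).1 hw)).differentiableAt.differentiableWithinAt
  · intro w hw
    exact (h w ((hb w).1 hw)).deriv

theorem cvc_of_size {f : ℚ⟦X⟧} {C : ℝ} (hC : 1 ≤ C) (hf : ∀ m, |((coeff m f : ℚ) : ℝ)| ≤ C ^ (m + 1))
    {t : ℂ} (ht : ‖t‖ < 1 / (2 * C)) : Cvc t f := by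
  have hC0 : 0 < C := by linarith
  have hq : C * ‖t‖ < 1 := by
    have h1 : C * ‖t‖ < C * (1 / (2 * C)) := mul_lt_mul_of_pos_left ht hC0
    have h2 : C * (1 / (2 * C)) = 1 / 2 := by field_simp
    linarith
  refine Summable.of_nonneg_of_le (fun m => by positivity) (fun m => ?_)
    ((summable_geometric_of_lt_one (by positivity) hq).mul_left C)
  have h3 : ‖((coeff m f : ℚ) : ℂ)‖ = |((coeff m f : ℚ) : ℝ)| := by
    rw [← Complex.ofReal_ratCast, Complex.norm_real, Real.norm_eq_abs]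
  rw [h3]
  calc |((coeff m f : ℚ) : ℝ)| * ‖t‖ ^ m ≤ C ^ (m + 1) * ‖t‖ ^ m :=
        mul_le_mul_of_nonneg_right (hf m) (by positivity)
    _ = C * (C * ‖t‖) ^ m := by rw [mul_pow]; ring

theorem ev_zero_pt (f : ℚ⟦X⟧) : evc 0 f = ((constantCoeff f : ℚ) : ℂ) := by
  unfold evc
  rw [tsum_eq_single 0]
  · simp
  · intro m hm
    rw [zero_pow hm, mul_zero]

theorem ev_der {f : ℚ⟦X⟧} {C : ℝ} (hC : 1 ≤ C) (hf : ∀ m, |((coeff m f : ℚ) : ℝ)| ≤ C ^ (m + 1))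
    {t : ℂ} (ht : ‖t‖ < 1 / (2 * C)) :
    HasDerivAt (fun s => evc s f) (evc t (d⁄dX ℚ f)) t ∧ Cvc t (d⁄dX ℚ f) := by
  have hC0 : 0 < C := by linarith
  have h3 : ∀ m, ‖((coeff m f : ℚ) : ℂ)‖ ≤ C ^ (m + 1) := by
    intro m
    rw [← Complex.ofReal_ratCast, Complex.norm_real, Real.norm_eq_abs]
    exact hf m
  let u : ℕ → ℝ := fun n => C ^ 2 * ((n : ℝ) ^ 1 * (1 / 2) ^ (n - 1))
  have hu : Summable u := by
    refine Summable.mul_left _ ?_
    have h1 : Summable fun n : ℕ => (n : ℝ) ^ 1 * (1 / 2 : ℝ) ^ n :=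
      summable_pow_mul_geometric_of_norm_lt_one 1 (by norm_num)
    refine (h1.mul_left 2).congr fun n => ?_
    rcases n with _ | n
    · simp
    · rw [Nat.add_sub_cancel, pow_succ (1 / 2 : ℝ) n]
      ring
  have hb : ∀ (n : ℕ) (y : ℂ), ‖y‖ < 1 / (2 * C) →
      ‖((coeff n f : ℚ) : ℂ) * ((n : ℂ) * y ^ (n - 1))‖ ≤ u n := by
    intro n y hy
    rw [norm_mul, norm_mul, norm_pow, Complex.norm_natCast]
    have h5 : C ^ (n + 1) * ((n : ℝ) * (1 / (2 * C)) ^ (n - 1)) = u n := by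
      rcases n with _ | n
      · simp [u]
      · simp only [u, Nat.add_sub_cancel, pow_one]
        rw [one_div, mul_inv, mul_pow, show (2 : ℝ)⁻¹ = 1 / 2 by norm_num]
        have h6 : C ^ (n + 1 + 1) * C⁻¹ ^ n = C ^ 2 := by
          rw [pow_add, pow_add, mul_assoc, mul_assoc, inv_pow]
          field_simp
        calc C ^ (n + 1 + 1) * (((n + 1 : ℕ) : ℝ) * ((1 / 2) ^ n * C⁻¹ ^ n)) =
            (C ^ (n + 1 + 1) * C⁻¹ ^ n) * (((n + 1 : ℕ) : ℝ) * (1 / 2) ^ n) := by ring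
          _ = _ := by rw [h6]
    rw [← h5]
    refine mul_le_mul (h3 n) ?_ (by positivity) (by positivity)
    exact mul_le_mul_of_nonneg_left (pow_le_pow_left₀ (norm_nonneg _) hy.le _) (by positivity)
  have hmem : ∀ y : ℂ, y ∈ Metric.ball (0 : ℂ) (1 / (2 * C)) ↔ ‖y‖ < 1 / (2 * C) := fun y => by
    rw [mem_ball_zero_iff]
  have hs : Summable fun n : ℕ => ((coeff n f : ℚ) : ℂ) * ((n : ℂ) * t ^ (n - 1)) :=
    Summable.of_norm_bounded hu fun n => hb n t ht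
  have key := hasDerivAt_tsum_of_isPreconnected (𝕜 := ℂ) (F := ℂ) hu
    (t := Metric.ball (0 : ℂ) (1 / (2 * C))) Metric.isOpen_ball
    (convex_ball _ _).isPreconnected
    (g := fun n z => ((coeff n f : ℚ) : ℂ) * z ^ n)
    (g' := fun n z => ((coeff n f : ℚ) : ℂ) * ((n : ℂ) * z ^ (n - 1)))
    (fun n y _ => (hasDerivAt_pow n y).const_mul _)
    (fun n y hy => hb n y ((hmem y).1 hy)) ((hmem t).2 ht) (cvc_of_size hC hf ht).summable
    ((hmem t).2 ht)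
  have hco : ∀ m, ((coeff m (d⁄dX ℚ f) : ℚ) : ℂ) * t ^ m =
      ((coeff (m + 1) f : ℚ) : ℂ) * (((m + 1 : ℕ) : ℂ) * t ^ (m + 1 - 1)) := by
    intro m
    rw [PowerSeries.coeff_derivative, Nat.add_sub_cancel]
    push_cast
    ring
  have hval : evc t (d⁄dX ℚ f) = ∑' n : ℕ, ((coeff n f : ℚ) : ℂ) * ((n : ℂ) * t ^ (n - 1)) := by
    unfold evc
    rw [hs.tsum_eq_zero_add, Nat.cast_zero, zero_mul, mul_zero, zero_add]
    exact tsum_congr hco
  refine ⟨?_, ?_⟩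
  · rw [hval]
    exact key
  · have h7 : Summable fun n : ℕ => ‖((coeff n f : ℚ) : ℂ) * ((n : ℂ) * t ^ (n - 1))‖ :=
      Summable.of_nonneg_of_le (fun n => norm_nonneg _) (fun n => hb n t ht) hu
    have h8 := (summable_nat_add_iff 1).2 h7
    refine h8.congr fun m => ?_
    rw [← hco m, norm_mul, norm_pow]

end Pool.Agent.T2h17.MJ
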