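import Pool.Agent.T2h17.MJ.Stm
import Pool.Agent.T2h17.MJ.LocA

/-!
The values of `z, j', j''` near a point with rational invariant in terms of the fundamental matrix.
-/

set_option autoImplicit false

open PowerSeries Filter Topology

namespace Pool.Agent.T2h17.MJ

open Pool.Agent.TH21.MS (jj jj_an)
open Pool.Agent.Y120.J (T1 Q1)
open Pool.Agent.Y916.Al

theorem ev_shp (t : ℂ) (x₀ : ℚ) (P : Polynomial ℤ) :
    evc t (shp x₀ P) = Polynomial.aeval ((x₀ : ℂ) + t) P := by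
  unfold shp
  rw [ev_coe, Polynomial.aeval_comp, Polynomial.aeval_add, Polynomial.aeval_X, Polynomial.aeval_C,
    eq_ratCast, show Int.castRingHom ℚ = algebraMap ℤ ℚ from rfl,
    Polynomial.aeval_map_algebraMap ℚ ((t : ℂ) + (x₀ : ℂ)) P, add_comm]

theorem cvc_shp (t : ℂ) (x₀ : ℚ) (P : Polynomial ℤ) : Cvc t (shp x₀ P) := Cvc.coe _

theorem tp_ne : tp ≠ 0 := by
  unfold tp
  simp [Real.pi_ne_zero]

/-- the system at the point `x₀ + t` -/
theorem fund_ode {x₀ : ℚ} {h : Fin 4 → ℚ⟦X⟧} (hF : Fund TJ AJ x₀ h) :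
    ∃ r : ℝ, 0 < r ∧ ∀ t : ℂ, ‖t‖ < r → (x₀ : ℂ) + t ≠ 0 → 1 - 1728 * ((x₀ : ℂ) + t) ≠ 0 →
      HasDerivAt (fun s => evc s (h 0)) (evc t (h 2) / ((x₀ : ℂ) + t)) t ∧
      HasDerivAt (fun s => evc s (h 1)) (evc t (h 3) / ((x₀ : ℂ) + t)) t ∧
      HasDerivAt (fun s => evc s (h 2)) ((82944 * ((x₀ : ℂ) + t) - 372) /
        (1 - 1728 * ((x₀ : ℂ) + t)) ^ 2 * evc t (h 0)) t ∧
      HasDerivAt (fun s => evc s (h 3)) ((82944 * ((x₀ : ℂ) + t) - 372) /
        (1 - 1728 * ((x₀ : ℂ) + t)) ^ 2 * evc t (h 1)) t := by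
  obtain ⟨C₀, hC₀⟩ := hF.size
  set C := max C₀ 1 with hCdef
  have hC : 1 ≤ C := le_max_right _ _
  have hs : ∀ i m, |((coeff m (h i) : ℚ) : ℝ)| ≤ C ^ (m + 1) := by
    intro i m
    have h0 : 0 ≤ C₀ := by
      have := (abs_nonneg _).trans (hC₀ i 0)
      simpa using this
    exact (hC₀ i m).trans (pow_le_pow_left₀ h0 (le_max_left _ _) _)
  refine ⟨1 / (2 * C), by positivity, fun t ht hy hy2 => ?_⟩
  set y : ℂ := (x₀ : ℂ) + t with hydef
  have hv : ∀ i, Cvc t (h i) := fun i => cvc_of_size hC (hs i) ht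
  have hd := fun i => ev_der hC (hs i) ht
  have aT : Polynomial.aeval y TJ = y * (1 - 1728 * y) ^ 2 := by
    simp [TJ, T1, map_ofNat (Polynomial.aeval y)]
  have aT1 : Polynomial.aeval y T1 = (1 - 1728 * y) ^ 2 := by
    simp [T1, map_ofNat (Polynomial.aeval y)]
  have aQ : Polynomial.aeval y Q1 = y * (82944 * y - 372) := by
    simp [Q1, map_ofNat (Polynomial.aeval y)]
  have a00 : AJ 0 0 = 0 := rfl
  have a01 : AJ 0 1 = T1 := rfl
  have a10 : AJ 1 0 = Q1 := rfl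
  have a11 : AJ 1 1 = 0 := rfl
  have key : ∀ (f g k : ℚ⟦X⟧) (A B : Polynomial ℤ), Cvc t f → Cvc t g → Cvc t k →
      shp x₀ TJ * f = shp x₀ A * g + shp x₀ B * k →
      y * (1 - 1728 * y) ^ 2 * evc t f =
        Polynomial.aeval y A * evc t g + Polynomial.aeval y B * evc t k := by
    intro f g k A B hf hg hk he
    have h1 := congrArg (evc t) he
    rw [(cvc_shp t x₀ TJ).ev_mul hf, ((cvc_shp t x₀ A).mul hg).ev_add ((cvc_shp t x₀ B).mul hk),
      (cvc_shp t x₀ A).ev_mul hg, (cvc_shp t x₀ B).ev_mul hk, ev_shp, ev_shp, ev_shp, aT] at h1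
    exact h1
  have k0 := key _ _ _ _ _ (hd 0).2 (hv 0) (hv 2) hF.e0
  have k1 := key _ _ _ _ _ (hd 1).2 (hv 1) (hv 3) hF.e1
  have k2 := key _ _ _ _ _ (hd 2).2 (hv 0) (hv 2) hF.e2
  have k3 := key _ _ _ _ _ (hd 3).2 (hv 1) (hv 3) hF.e3
  rw [a00, a01, map_zero, zero_mul, zero_add, aT1] at k0 k1
  rw [a10, a11, map_zero, zero_mul, add_zero, aQ] at k2 k3
  have hp : (1 - 1728 * y) ^ 2 ≠ 0 := pow_ne_zero _ hy2
  refine ⟨?_, ?_, ?_, ?_⟩
  · have e : evc t (d⁄dX ℚ (h 0)) = evc t (h 2) / y := by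
      rw [eq_div_iff hy]
      apply mul_left_cancel₀ hp
      linear_combination k0
    rw [← e]
    exact (hd 0).1
  · have e : evc t (d⁄dX ℚ (h 1)) = evc t (h 3) / y := by
      rw [eq_div_iff hy]
      apply mul_left_cancel₀ hp
      linear_combination k1
    rw [← e]
    exact (hd 1).1
  · have e : evc t (d⁄dX ℚ (h 2)) = (82944 * y - 372) / (1 - 1728 * y) ^ 2 * evc t (h 0) := by
      rw [div_mul_eq_mul_div, eq_div_iff hp]
      apply mul_left_cancel₀ hy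
      linear_combination k2
    rw [← e]
    exact (hd 2).1
  · have e : evc t (d⁄dX ℚ (h 3)) = (82944 * y - 372) / (1 - 1728 * y) ^ 2 * evc t (h 1) := by
      rw [div_mul_eq_mul_div, eq_div_iff hp]
      apply mul_left_cancel₀ hy
      linear_combination k3
    rw [← e]
    exact (hd 3).1

/-- the local analysis: the functions `f` and `f₁` near `z₀` -/
theorem local_f (hder : S_DER) (hode : S_ODE) {z₀ : ℂ} (hz₀ : 0 < z₀.im) (hj0 : jj z₀ ≠ 0)
    (hj1 : jj z₀ ≠ 1728) (r : ℝ) (hr : 0 < r) :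
    ∃ (f f₁ : ℂ → ℂ) (ρ : ℝ), 0 < ρ ∧ ∀ z : ℂ, ‖z - z₀‖ < ρ → 0 < z.im ∧ jj z ≠ 0 ∧
      jj z ≠ 1728 ∧ deriv jj z ≠ 0 ∧ ‖1 / jj z - 1 / jj z₀‖ < r ∧ f z ≠ 0 ∧
      deriv jj z = -tp * jj z * f z ^ 2 ∧
      HasDerivAt f (-(deriv jj z / jj z) * f₁ z) z ∧
      HasDerivAt f₁ (-(deriv jj z / jj z) * ((1 / jj z) * (82944 * (1 / jj z) - 372) /
        (1 - 1728 * (1 / jj z)) ^ 2 * f z)) z := by
  have hd0 : deriv jj z₀ ≠ 0 := hder z₀ hz₀ hj0 hj1
  have hcj : ContinuousAt jj z₀ := (jj_an z₀ hz₀).continuousAt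
  have hcd : ContinuousAt (deriv jj) z₀ := (jj_an z₀ hz₀).deriv.continuousAt
  let φ : ℂ → ℂ := fun w => -deriv jj w / (tp * jj w)
  let σ : ℂ → ℂ := fun w => -(jj w / deriv jj w) * (deriv φ w / (2 * φ w))
  have hφ0 : φ z₀ ≠ 0 := div_ne_zero (neg_ne_zero.2 hd0) (mul_ne_zero tp_ne hj0)
  have hφc : ContinuousAt φ z₀ :=
    hcd.neg.div (continuousAt_const.mul hcj) (mul_ne_zero tp_ne hj0)
  obtain ⟨f₀, hf₀⟩ : ∃ f₀ : ℂ, f₀ ^ 2 = φ z₀ := by
    obtain ⟨c, hc⟩ := IsAlgClosed.exists_pow_nat_eq (φ z₀) (n := 2) (by norm_num)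
    exact ⟨c, hc⟩
  have hf₀0 : f₀ ≠ 0 := by
    intro h
    rw [h] at hf₀
    exact hφ0 (by rw [← hf₀]; simp)
  have e1 : ∀ᶠ z in 𝓝 z₀, 0 < z.im :=
    (Complex.continuous_im.continuousAt (x := z₀)).eventually (lt_mem_nhds hz₀)
  have e2 : ∀ᶠ z in 𝓝 z₀, jj z ≠ 0 := hcj.eventually_ne hj0
  have e3 : ∀ᶠ z in 𝓝 z₀, jj z ≠ 1728 := hcj.eventually_ne hj1
  have e4 : ∀ᶠ z in 𝓝 z₀, deriv jj z ≠ 0 := hcd.eventually_ne hd0
  have e5 : ∀ᶠ z in 𝓝 z₀, ‖1 / jj z - 1 / jj z₀‖ < r := by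
    have hc : ContinuousAt (fun z => ‖1 / jj z - 1 / jj z₀‖) z₀ :=
      ((continuousAt_const.div hcj hj0).sub continuousAt_const).norm
    refine hc.eventually (gt_mem_nhds ?_)
    simpa using hr
  have e6 : ∀ᶠ z in 𝓝 z₀, φ z / φ z₀ ∈ Complex.slitPlane := by
    have hc : ContinuousAt (fun z => φ z / φ z₀) z₀ := hφc.div continuousAt_const hφ0
    refine hc.eventually (Complex.isOpen_slitPlane.mem_nhds ?_)
    simp only [div_self hφ0]
    exact Complex.one_mem_slitPlane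
  obtain ⟨ρ, hρ, hall⟩ := Metric.eventually_nhds_iff.1
    (e1.and (e2.and (e3.and (e4.and (e5.and e6)))))
  let f : ℂ → ℂ := fun z => f₀ * Complex.exp (Complex.log (φ z / φ z₀) / 2)
  refine ⟨f, fun z => σ z * f z, ρ, hρ, fun z hz => ?_⟩
  obtain ⟨h1, h2, h3, h4, h5, h6⟩ := hall (show dist z z₀ < ρ by rw [dist_eq_norm]; exact hz)
  have hφz : φ z ≠ 0 := div_ne_zero (neg_ne_zero.2 h4) (mul_ne_zero tp_ne h2)
  have hja : AnalyticAt ℂ jj z := jj_an z h1
  have hφa : AnalyticAt ℂ φ z := hja.deriv.neg.div (analyticAt_const.mul hja) (mul_ne_zero tp_ne h2)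
  have hσa : AnalyticAt ℂ σ z :=
    (hja.div hja.deriv h4).neg.mul (hφa.deriv.div (analyticAt_const.mul hφa)
      (mul_ne_zero two_ne_zero hφz))
  have hfz : f z ≠ 0 := mul_ne_zero hf₀0 (Complex.exp_ne_zero _)
  have hf2 : f z ^ 2 = φ z := by
    show (f₀ * Complex.exp (Complex.log (φ z / φ z₀) / 2)) ^ 2 = φ z
    rw [mul_pow, hf₀, ← Complex.exp_nat_mul]
    have h7 : ((2 : ℕ) : ℂ) * (Complex.log (φ z / φ z₀) / 2) = Complex.log (φ z / φ z₀) := by
      push_cast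
      ring
    rw [h7, Complex.exp_log (div_ne_zero hφz hφ0)]
    field_simp
  have hdf : HasDerivAt f (f z * (deriv φ z / (2 * φ z))) z := by
    have h7 : HasDerivAt (fun w => φ w / φ z₀) (deriv φ z / φ z₀) z :=
      hφa.differentiableAt.hasDerivAt.div_const _
    have h8 := ((h7.clog h6).div_const 2).cexp.const_mul f₀
    refine h8.congr_deriv ?_
    show f₀ * (Complex.exp (Complex.log (φ z / φ z₀) / 2) * (deriv φ z / φ z₀ / (φ z / φ z₀) / 2)) =
      f₀ * Complex.exp (Complex.log (φ z / φ z₀) / 2) * (deriv φ z / (2 * φ z))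
    field_simp
  have hdf' : HasDerivAt f (-(deriv jj z / jj z) * (σ z * f z)) z := by
    refine hdf.congr_deriv ?_
    show f z * (deriv φ z / (2 * φ z)) = -(deriv jj z / jj z) *
      (-(jj z / deriv jj z) * (deriv φ z / (2 * φ z)) * f z)
    field_simp
  refine ⟨h1, h2, h3, h4, h5, hfz, ?_, hdf', ?_⟩
  · rw [hf2]
    show deriv jj z = -tp * jj z * (-deriv jj z / (tp * jj z))
    have := tp_ne
    field_simp
  · have h9 := hσa.differentiableAt.hasDerivAt.mul hdf'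
    refine h9.congr_deriv ?_
    have h10 := hode z h1 h2 h3 φ σ (fun _ => rfl) (fun _ => rfl)
    rw [← h10]
    field_simp
    ring

theorem t_loc : S_DER → S_ODE → S_LOC := by
  intro hder hode z₀ x₀ h hz₀ hj0 hj1 hx₀ hF
  obtain ⟨r, hr, hfo⟩ := fund_ode hF
  obtain ⟨f, f₁, ρ, hρ, hloc⟩ := local_f hder hode hz₀ hj0 hj1 r hr
  have hx0 : (x₀ : ℂ) ≠ 0 := by
    rw [← hx₀]
    exact one_div_ne_zero hj0
  -- notation
  let τ : ℂ → ℂ := fun z => 1 / jj z - x₀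
  let H : Fin 4 → ℂ → ℂ := fun i z => evc (τ z) (h i)
  let g : ℂ → ℂ := fun z => tp * z * f z
  let g₁ : ℂ → ℂ := fun z => tp * z * f₁ z + 1 / f z
  let κ : ℂ → ℂ := fun z => -(deriv jj z / jj z)
  let q : ℂ → ℂ := fun z => (1 / jj z) * (82944 * (1 / jj z) - 372) / (1 - 1728 * (1 / jj z)) ^ 2
  have hH : ∀ z : ℂ, ‖z - z₀‖ < ρ → HasDerivAt (H 0) (κ z * H 2 z) z ∧
      HasDerivAt (H 1) (κ z * H 3 z) z ∧ HasDerivAt (H 2) (κ z * (q z * H 0 z)) z ∧
      HasDerivAt (H 3) (κ z * (q z * H 1 z)) z := by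
    intro z hz
    obtain ⟨h1, h2, h3, h4, h5, -, -, -, -⟩ := hloc z hz
    have hy : (x₀ : ℂ) + τ z = 1 / jj z := by
      show (x₀ : ℂ) + (1 / jj z - x₀) = 1 / jj z
      ring
    have hτ : HasDerivAt τ (-deriv jj z / jj z ^ 2) z := by
      have h6 : HasDerivAt (fun w => 1 / jj w - (x₀ : ℂ)) (-deriv jj z / jj z ^ 2) z := by
        have h7 := ((jj_an z h1).differentiableAt.hasDerivAt.inv h2).sub_const (x₀ : ℂ)
        refine h7.congr_of_eventuallyEq (Filter.Eventually.of_forall fun w => ?_)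
        show 1 / jj w - (x₀ : ℂ) = (jj w)⁻¹ - (x₀ : ℂ)
        rw [one_div]
      exact h6
    have hτr : ‖τ z‖ < r := by
      show ‖1 / jj z - x₀‖ < r
      rw [← hx₀]
      exact h5
    have hy2 : 1 - 1728 * (1 / jj z) ≠ 0 := by
      intro h
      apply h3
      field_simp at h
      linear_combination h
    obtain ⟨d0, d1, d2, d3⟩ := hfo (τ z) hτr (by rw [hy]; exact one_div_ne_zero h2)
      (by rw [hy]; exact hy2)
    rw [hy] at d0 d1 d2 d3
    refine ⟨(d0.comp z hτ).congr_deriv ?_, (d1.comp z hτ).congr_deriv ?_,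
      (d2.comp z hτ).congr_deriv ?_, (d3.comp z hτ).congr_deriv ?_⟩
    · show evc (τ z) (h 2) / (1 / jj z) * (-deriv jj z / jj z ^ 2) =
        -(deriv jj z / jj z) * evc (τ z) (h 2)
      field_simp
    · show evc (τ z) (h 3) / (1 / jj z) * (-deriv jj z / jj z ^ 2) =
        -(deriv jj z / jj z) * evc (τ z) (h 3)
      field_simp
    · show (82944 * (1 / jj z) - 372) / (1 - 1728 * (1 / jj z)) ^ 2 * evc (τ z) (h 0) *
        (-deriv jj z / jj z ^ 2) = -(deriv jj z / jj z) * ((1 / jj z) * (82944 * (1 / jj z) - 372) /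
          (1 - 1728 * (1 / jj z)) ^ 2 * evc (τ z) (h 0))
      generalize (1 - 1728 * (1 / jj z)) ^ 2 = D
      generalize evc (τ z) (h 0) = E
      rw [show -deriv jj z / jj z ^ 2 = -(deriv jj z / jj z) * (1 / jj z) by field_simp]
      ring
    · show (82944 * (1 / jj z) - 372) / (1 - 1728 * (1 / jj z)) ^ 2 * evc (τ z) (h 1) *
        (-deriv jj z / jj z ^ 2) = -(deriv jj z / jj z) * ((1 / jj z) * (82944 * (1 / jj z) - 372) /
          (1 - 1728 * (1 / jj z)) ^ 2 * evc (τ z) (h 1))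
      generalize (1 - 1728 * (1 / jj z)) ^ 2 = D
      generalize evc (τ z) (h 1) = E
      rw [show -deriv jj z / jj z ^ 2 = -(deriv jj z / jj z) * (1 / jj z) by field_simp]
      ring
  have hP : ∀ z : ℂ, ‖z - z₀‖ < ρ → HasDerivAt f (κ z * f₁ z) z ∧
      HasDerivAt f₁ (κ z * (q z * f z)) z ∧ HasDerivAt g (κ z * g₁ z) z ∧
      HasDerivAt g₁ (κ z * (q z * g z)) z := by
    intro z hz
    obtain ⟨h1, h2, h3, h4, h5, h6, h7, h8, h9⟩ := hloc z hz
    have hκ : κ z = tp * f z ^ 2 := by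
      show -(deriv jj z / jj z) = tp * f z ^ 2
      rw [h7]
      field_simp
    have hg : HasDerivAt g (κ z * g₁ z) z := by
      have a1 := ((hasDerivAt_id z).const_mul tp).mul h8
      refine a1.congr_deriv ?_
      show tp * 1 * f z + tp * z * (κ z * f₁ z) = κ z * (tp * z * f₁ z + 1 / f z)
      rw [hκ]
      field_simp
      ring
    have hg1 : HasDerivAt g₁ (κ z * (q z * g z)) z := by
      have a1 := (((hasDerivAt_id z).const_mul tp).mul h9).add (h8.inv h6)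
      have a2 : HasDerivAt g₁ (tp * 1 * f₁ z + tp * z * (κ z * (q z * f z)) +
          -(κ z * f₁ z) / f z ^ 2) z := by
        refine HasDerivAt.congr_of_eventuallyEq a1 (Filter.Eventually.of_forall fun w => ?_)
        show tp * w * f₁ w + 1 / f w = tp * w * f₁ w + (f w)⁻¹
        rw [one_div]
      refine a2.congr_deriv ?_
      show tp * 1 * f₁ z + tp * z * (κ z * (q z * f z)) + -(κ z * f₁ z) / f z ^ 2 =
        κ z * (q z * (tp * z * f z))
      have a3 : -(κ z * f₁ z) / f z ^ 2 = -(tp * f₁ z) := by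
        rw [hκ]
        field_simp
      rw [a3]
      ring
    exact ⟨h8, h9, hg, hg1⟩
  have hz0 : ‖z₀ - z₀‖ < ρ := by
    rw [sub_self, norm_zero]
    exact hρ
  have hτ0 : τ z₀ = 0 := by
    show 1 / jj z₀ - x₀ = 0
    rw [hx₀, sub_self]
  have H00 : H 0 z₀ = 1 := by
    show evc (τ z₀) (h 0) = 1
    rw [hτ0, ev_zero_pt, hF.c0, Rat.cast_one]
  have H10 : H 1 z₀ = 0 := by
    show evc (τ z₀) (h 1) = 0
    rw [hτ0, ev_zero_pt, hF.c1, Rat.cast_zero]
  have H20 : H 2 z₀ = 0 := by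
    show evc (τ z₀) (h 2) = 0
    rw [hτ0, ev_zero_pt, hF.c2, Rat.cast_zero]
  have H30 : H 3 z₀ = 1 := by
    show evc (τ z₀) (h 3) = 1
    rw [hτ0, ev_zero_pt, hF.c3, Rat.cast_one]
  have hdet : ∀ z : ℂ, ‖z - z₀‖ < ρ → H 0 z * H 3 z - H 1 z * H 2 z = 1 := by
    intro z hz
    have h1 := const_of_zero (F := fun z => H 0 z * H 3 z - H 1 z * H 2 z) hρ (fun w hw => by
      obtain ⟨d0, d1, d2, d3⟩ := hH w hw
      refine ((d0.mul d3).sub (d1.mul d2)).congr_deriv ?_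
      ring) z hz
    have h2 : H 0 z * H 3 z - H 1 z * H 2 z = H 0 z₀ * H 3 z₀ - H 1 z₀ * H 2 z₀ := h1
    rw [h2, H00, H10, H20, H30]
    ring
  have hN : ∀ (u v : ℂ → ℂ), (∀ z : ℂ, ‖z - z₀‖ < ρ → HasDerivAt u (κ z * v z) z) →
      (∀ z : ℂ, ‖z - z₀‖ < ρ → HasDerivAt v (κ z * (q z * u z)) z) → ∀ z : ℂ, ‖z - z₀‖ < ρ →
      u z = H 0 z * u z₀ + H 1 z * v z₀ ∧ v z = H 2 z * u z₀ + H 3 z * v z₀ := by
    intro u v hu hv z hz
    have h1 := const_of_zero (F := fun z => H 3 z * u z - H 1 z * v z) hρ (fun w hw => by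
      obtain ⟨d0, d1, d2, d3⟩ := hH w hw
      refine ((d3.mul (hu w hw)).sub (d1.mul (hv w hw))).congr_deriv ?_
      ring) z hz
    have h2 := const_of_zero (F := fun z => H 0 z * v z - H 2 z * u z) hρ (fun w hw => by
      obtain ⟨d0, d1, d2, d3⟩ := hH w hw
      refine ((d0.mul (hv w hw)).sub (d2.mul (hu w hw))).congr_deriv ?_
      ring) z hz
    have h1' : H 3 z * u z - H 1 z * v z = u z₀ := by
      have h3 : H 3 z * u z - H 1 z * v z = H 3 z₀ * u z₀ - H 1 z₀ * v z₀ := h1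
      rw [h3, H30, H10]
      ring
    have h2' : H 0 z * v z - H 2 z * u z = v z₀ := by
      have h3 : H 0 z * v z - H 2 z * u z = H 0 z₀ * v z₀ - H 2 z₀ * u z₀ := h2
      rw [h3, H00, H20]
      ring
    have h3 := hdet z hz
    constructor
    · rw [← h1', ← h2']
      linear_combination (-u z) * h3
    · rw [← h1', ← h2']
      linear_combination (-v z) * h3
  have hjj2 : ∀ z : ℂ, ‖z - z₀‖ < ρ →
      deriv (deriv jj) z = tp ^ 2 * jj z * (f z ^ 4 - 2 * f z ^ 3 * f₁ z) := by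
    intro z hz
    obtain ⟨h1, h2, h3, h4, h5, h6, h7, h8, h9⟩ := hloc z hz
    have hκ : -(deriv jj z / jj z) = tp * f z ^ 2 := by
      rw [h7]
      field_simp
    have hev : deriv jj =ᶠ[𝓝 z] fun w => -tp * jj w * f w ^ 2 := by
      have hzb : z ∈ Metric.ball z₀ ρ := by
        rw [Metric.mem_ball, dist_eq_norm]
        exact hz
      filter_upwards [Metric.isOpen_ball.mem_nhds hzb] with w hw
      rw [Metric.mem_ball, dist_eq_norm] at hw
      exact (hloc w hw).2.2.2.2.2.2.1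
    rw [hev.deriv_eq]
    have hd := ((jj_an z h1).differentiableAt.hasDerivAt.const_mul (-tp)).mul (h8.pow 2)
    have hd' : deriv (fun w => -tp * jj w * f w ^ 2) z =
        -tp * deriv jj z * f z ^ 2 + -tp * jj z * (((2 : ℕ) : ℂ) * f z ^ (2 - 1) *
          (-(deriv jj z / jj z) * f₁ z)) := hd.deriv
    rw [hd', hκ, h7]
    push_cast
    ring
  refine ⟨!![f z₀, g z₀; f₁ z₀, g₁ z₀], ?_, ?_, ρ, hρ, ?_⟩
  · obtain ⟨-, -, -, -, -, h6, -, -, -⟩ := hloc z₀ hz0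
    rw [Matrix.det_fin_two_of]
    show f z₀ * (tp * z₀ * f₁ z₀ + 1 / f z₀) - tp * z₀ * f z₀ * f₁ z₀ = 1
    field_simp
    ring
  · obtain ⟨h1, h2, h3, h4, h5, h6, h7, h8, h9⟩ := hloc z₀ hz0
    have h10 := hjj2 z₀ hz0
    set S : Set ℂ := {tp, z₀, deriv jj z₀, deriv (deriv jj) z₀} with hS
    have hmem : ∀ s ∈ S, IsAlgebraic (Algebra.adjoin ℚ S) s := fun s hs =>
      isAlgebraic_algebraMap (⟨s, Algebra.subset_adjoin hs⟩ : Algebra.adjoin ℚ S)
    have m1 := hmem tp (by simp [hS])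
    have m2 := hmem z₀ (by simp [hS])
    have m3 := hmem (deriv jj z₀) (by simp [hS])
    have m4 := hmem (deriv (deriv jj) z₀) (by simp [hS])
    have mq : ∀ a : ℚ, IsAlgebraic (Algebra.adjoin ℚ S) (a : ℂ) := fun a =>
      isAlgebraic_algebraMap (algebraMap ℚ (Algebra.adjoin ℚ S) a)
    have mj : IsAlgebraic (Algebra.adjoin ℚ S) (jj z₀) := by
      have e : jj z₀ = ((x₀⁻¹ : ℚ) : ℂ) := by
        push_cast
        rw [← hx₀, one_div, inv_inv]
      rw [e]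
      exact mq _
    have mf : IsAlgebraic (Algebra.adjoin ℚ S) (f z₀) := by
      refine IsAlgebraic.of_pow (n := 2) (by norm_num) ?_
      have e : f z₀ ^ 2 = -deriv jj z₀ * (tp * jj z₀)⁻¹ := by
        have := tp_ne
        rw [h7]
        field_simp
      rw [e]
      exact m3.neg.mul (m1.mul mj).inv
    have mf1 : IsAlgebraic (Algebra.adjoin ℚ S) (f₁ z₀) := by
      have e : f₁ z₀ = (f z₀ ^ 4 - deriv (deriv jj) z₀ * (tp ^ 2 * jj z₀)⁻¹) *
          (((2 : ℚ) : ℂ) * f z₀ ^ 3)⁻¹ := by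
        have := tp_ne
        rw [h10]
        push_cast
        field_simp
        ring
      rw [e]
      exact ((mf.pow 4).sub (m4.mul ((m1.pow 2).mul mj).inv)).mul ((mq 2).mul (mf.pow 3)).inv
    have mg : IsAlgebraic (Algebra.adjoin ℚ S) (g z₀) := (m1.mul m2).mul mf
    have mg1 : IsAlgebraic (Algebra.adjoin ℚ S) (g₁ z₀) := by
      have e : g₁ z₀ = tp * z₀ * f₁ z₀ + (f z₀)⁻¹ := by
        show tp * z₀ * f₁ z₀ + 1 / f z₀ = _
        rw [one_div]
      rw [e]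
      exact ((m1.mul m2).mul mf1).add mf.inv
    intro i j
    fin_cases i <;> fin_cases j
    · exact mf
    · exact mg
    · exact mf1
    · exact mg1
  · intro z hz
    obtain ⟨h1, h2, h3, h4, h5, h6, h7, h8, h9⟩ := hloc z hz
    obtain ⟨p1, p2, p3, p4⟩ := hP z hz
    obtain ⟨n1, n2⟩ := hN f f₁ (fun z hz => (hP z hz).1) (fun z hz => (hP z hz).2.1) z hz
    obtain ⟨n3, n4⟩ := hN g g₁ (fun z hz => (hP z hz).2.2.1) (fun z hz => (hP z hz).2.2.2) z hz
    have hpm : pm h !![f z₀, g z₀; f₁ z₀, g₁ z₀] (1 / jj z - x₀) = !![f z, g z; f₁ z, g₁ z] := by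
      unfold pm
      rw [Matrix.mul_fin_two, n1, n2, n3, n4]
    rw [hpm]
    refine ⟨h1, h2, h4, h6, ?_, h7, ?_, ?_⟩
    · show z * (tp * f z) = tp * z * f z
      ring
    · exact hjj2 z hz
    · rw [Matrix.det_fin_two_of]
      show f z * (tp * z * f₁ z + 1 / f z) - tp * z * f z * f₁ z = 1
      field_simp
      ring

end Pool.Agent.T2h17.MJ
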