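import Pool.Agent.T2h17.MJ.ShiftB

/-!
The fundamental matrix at an ordinary rational point consists of G-functions.
-/

set_option autoImplicit false
set_option maxHeartbeats 800000

open PowerSeries

namespace Pool.Agent.T2h17.MJ

open Pool.Agent.Y113 Pool.Agent.Y120.GH Pool.Agent.Y120.GF
open Pool.Agent.Y916.Af (GFam)

namespace Shift

theorem ps_sh (x₀ : ℚ) {m : ℕ} {P : Polynomial ℤ} (hP : P.natDegree ≤ m) :
    ps (sh x₀ m P) = PowerSeries.C ((x₀.den : ℚ) ^ m) * shp x₀ P := by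
  have h1 : ps (sh x₀ m P) = ((pq (sh x₀ m P) : Polynomial ℚ) : ℚ⟦X⟧) := rfl
  rw [h1, pq_sh x₀ hP, Polynomial.coe_mul, Polynomial.coe_C]
  rfl

theorem sh_coeff (x₀ : ℚ) {m : ℕ} {T : Polynomial ℤ} (hT : T.natDegree ≤ m) (h : Polynomial.aeval x₀ T ≠ 0) :
    (sh x₀ m T).coeff 0 ≠ 0 := by
  intro h0
  have h1 := congrArg (fun P => Polynomial.coeff P 0) (pq_sh x₀ hT)
  unfold pq at h1
  simp only [Polynomial.coeff_map, h0, Polynomial.coeff_C_mul] at h1
  have h2 : (tr x₀ T).coeff 0 = Polynomial.aeval x₀ T := by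
    rw [Polynomial.coeff_zero_eq_eval_zero]
    unfold tr pq
    rw [Polynomial.eval_comp]
    simp only [Polynomial.eval_add, Polynomial.eval_X, Polynomial.eval_C, zero_add]
    rw [Polynomial.eval_map, Polynomial.aeval_def]
    rfl
  rw [h2, map_zero] at h1
  have hb : (x₀.den : ℚ) ^ m ≠ 0 := pow_ne_zero _ (by exact_mod_cast x₀.den_nz)
  exact (mul_ne_zero hb h) h1.symm

/-- the fundamental matrix over the complex numbers is invertible -/
theorem qu4 {T : Polynomial ℤ} {A : Fin 2 → Fin 2 → Polynomial ℤ} {y : Fin 2 → Fin 2 → ℚ⟦X⟧}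
    (hode : ∀ k i, ps T * d⁄dX ℚ (y k i) = ∑ j, ps (A i j) * y k j)
    (hy : ∀ k i, constantCoeff (y k i) = if i = k then 1 else 0) {K : ℝ}
    (hK : ∀ k i m, |((coeff m (y k i) : ℚ) : ℝ)| ≤ K ^ (m + 1)) : QU0 T (A4 A) := by
  have hK0 : 0 ≤ K := by
    have := hK 0 0 0
    rw [zero_add, pow_one] at this
    exact (abs_nonneg _).trans this
  let F : Fin 4 → Fin 4 → ℚ⟦X⟧ := fun a c => if cl4 a = cl4 c then y (rw4 c) (rw4 a) else 0
  have hF : ∀ a c, ps T * d⁄dX ℚ (F a c) = ∑ l, ps (A4 A a l) * F l c := by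
    intro a c
    have h2 : ∀ l, ps (A4 A a l) * F l c = if cl4 a = cl4 l then
        (if cl4 a = cl4 c then ps (A (rw4 a) (rw4 l)) * y (rw4 c) (rw4 l) else 0) else 0 := by
      intro l
      show ps (if cl4 a = cl4 l then A (rw4 a) (rw4 l) else 0) * (if cl4 l = cl4 c then y (rw4 c) (rw4 l) else 0) = _
      by_cases h1 : cl4 a = cl4 l
      · rw [if_pos h1, if_pos h1, ← h1]
        by_cases h3 : cl4 a = cl4 c
        · rw [if_pos h3, if_pos h3]
        · rw [if_neg h3, if_neg h3, mul_zero]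
      · rw [if_neg h1, if_neg h1, ps_zero, zero_mul]
    rw [Finset.sum_congr rfl fun l _ => h2 l,
      sum4 (cl4 a) fun i => if cl4 a = cl4 c then ps (A (rw4 a) i) * y (rw4 c) i else 0]
    show ps T * d⁄dX ℚ (if cl4 a = cl4 c then y (rw4 c) (rw4 a) else 0) = _
    by_cases h3 : cl4 a = cl4 c
    · simp only [if_pos h3]
      exact hode _ _
    · simp only [if_neg h3, map_zero, mul_zero, Finset.sum_const_zero]
  have hcoe : ∀ P : Polynomial ℤ, ((P.map (Int.castRingHom ℂ) : Polynomial ℂ) : PowerSeries ℂ) = cx (ps P) := fun P =>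
    (cx_ps P).symm
  refine ⟨1, one_ne_zero, 0, K, Matrix.of fun a c => Polynomial.C (cx (F a c)), ?_, ?_, ?_⟩
  · intro a c k m
    rw [Matrix.of_apply, Polynomial.coeff_C]
    by_cases hk : k = 0
    · rw [if_pos hk]
      have h1 : coeff m (cx (F a c)) = ((coeff m (F a c) : ℚ) : ℂ) := by
        unfold cx
        rw [coeff_map]
        rfl
      rw [h1]
      show ‖((coeff m (if cl4 a = cl4 c then y (rw4 c) (rw4 a) else 0) : ℚ) : ℂ)‖ ≤ _
      by_cases h3 : cl4 a = cl4 c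
      · rw [if_pos h3]
        have h4 := hK (rw4 c) (rw4 a) m
        have h5 : ‖((coeff m (y (rw4 c) (rw4 a)) : ℚ) : ℂ)‖ = |((coeff m (y (rw4 c) (rw4 a)) : ℚ) : ℝ)| := by
          rw [← Complex.ofReal_ratCast, Complex.norm_real, Real.norm_eq_abs]
        rw [h5]
        exact h4
      · rw [if_neg h3, map_zero, Rat.cast_zero, norm_zero]
        positivity
    · rw [if_neg hk, map_zero, norm_zero]
      positivity
  · intro a c k
    have e1 : ∀ f : PowerSeries ℂ, PowerSeries.expand 1 one_ne_zero f = f := fun f => by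
      rw [PowerSeries.expand_one_apply]
    simp only [e1, Matrix.of_apply, hcoe, Polynomial.coeff_C, Nat.cast_zero, zero_mul, sub_zero, Nat.cast_one, one_mul,
      pow_one]
    rw [if_neg (Nat.succ_ne_zero k), mul_zero, add_zero]
    by_cases hk : k = 0
    · simp only [if_pos hk]
      have h1 := congrArg cx (hF a c)
      rw [map_mul, map_sum, cx_der] at h1
      calc cx (ps T) * ((X : PowerSeries ℂ) * PowerSeries.derivative ℂ (cx (F a c))) =
            X * (cx (ps T) * PowerSeries.derivative ℂ (cx (F a c))) := by ring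
        _ = _ := by
            rw [h1]
            congr 1
            exact Finset.sum_congr rfl fun l _ => map_mul _ _ _
    · simp only [if_neg hk, map_zero, mul_zero, Finset.sum_const_zero]
  · intro h0
    let ψ : Polynomial (PowerSeries ℂ) →+* ℂ :=
      (PowerSeries.constantCoeff (R := ℂ)).comp Polynomial.constantCoeff
    have h1 := congrArg ψ h0
    rw [RingHom.map_det, map_zero] at h1
    have h2 : ψ.mapMatrix (Matrix.of fun a c => Polynomial.C (cx (F a c))) = 1 := by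
      ext a c
      rw [RingHom.mapMatrix_apply, Matrix.map_apply, Matrix.of_apply, Matrix.one_apply]
      show PowerSeries.constantCoeff (Polynomial.constantCoeff (Polynomial.C (cx (F a c)))) = _
      rw [Polynomial.constantCoeff_apply, Polynomial.coeff_C_zero]
      have h3 : constantCoeff (cx (F a c)) = ((constantCoeff (F a c) : ℚ) : ℂ) := by
        unfold cx
        rw [← coeff_zero_eq_constantCoeff_apply, coeff_map, coeff_zero_eq_constantCoeff_apply]
        rfl
      rw [h3]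
      show ((constantCoeff (if cl4 a = cl4 c then y (rw4 c) (rw4 a) else 0) : ℚ) : ℂ) = _
      by_cases h4 : cl4 a = cl4 c
      · rw [if_pos h4, hy]
        by_cases h5 : rw4 a = rw4 c
        · rw [if_pos h5, if_pos (ext4.2 ⟨h4, h5⟩), Rat.cast_one]
        · rw [if_neg h5, if_neg (fun h => h5 (ext4.1 h).2), Rat.cast_zero]
      · rw [if_neg h4, if_neg (fun h => h4 (ext4.1 h).1), map_zero, Rat.cast_zero]
    rw [h2, Matrix.det_one] at h1
    exact one_ne_zero h1

end Shift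

open Shift in
theorem t_shift : S_SHIFT := by
  intro T A hgal x₀ hx
  -- the degrees
  obtain ⟨q, hT, hA⟩ : ∃ q : ℕ, T.natDegree ≤ q ∧ ∀ i j, (A i j).natDegree ≤ q := by
    refine ⟨T.natDegree + ∑ i, ∑ j, (A i j).natDegree, by omega, fun i j => ?_⟩
    have h1 : (A i j).natDegree ≤ ∑ j, (A i j).natDegree :=
      Finset.single_le_sum (f := fun j => (A i j).natDegree) (fun _ _ => Nat.zero_le _) (Finset.mem_univ j)
    have h2 : ∑ j, (A i j).natDegree ≤ ∑ i, ∑ j, (A i j).natDegree :=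
      Finset.single_le_sum (f := fun i => ∑ j, (A i j).natDegree) (fun _ _ => Nat.zero_le _) (Finset.mem_univ i)
    omega
  set T' := sh x₀ q T with hT'
  set A' : Fin 2 → Fin 2 → Polynomial ℤ := fun i j => sh x₀ q (A i j) with hA'
  have hgal' : Gal T' A' := gal_sh x₀ q hT hA hgal
  have hc : T'.coeff 0 ≠ 0 := sh_coeff x₀ hT hx
  have hcQ : ((T'.coeff 0 : ℤ) : ℚ) ≠ 0 := by exact_mod_cast hc
  have hex : ∀ k : Fin 2, ∃ y : Fin 2 → ℚ⟦X⟧, (∀ i, constantCoeff (y i) = if i = k then 1 else 0) ∧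
      ∀ i, ps T' * d⁄dX ℚ (y i) = ∑ j, ps (A' i j) * y j := fun k => ex_sol A' hc _
  choose y hy hode using hex
  have hco : ∀ k s i, (s.factorial : ℚ) * ((T'.coeff 0 : ℤ) : ℚ) ^ s * coeff s (y k i) =
      (((itm T' A' s i k).coeff 0 : ℤ) : ℚ) := fun k s i => coeff_sol (hode k) k (hy k) s i
  -- the size
  obtain ⟨K, hK1, hK⟩ : ∃ K : ℝ, 1 ≤ K ∧ ∀ k i m, |((coeff m (y k i) : ℚ) : ℝ)| ≤ K ^ (m + 1) := by
    obtain ⟨q', hq1, hq2⟩ : ∃ q' : ℕ, T'.natDegree ≤ q' ∧ ∀ i j, (A' i j).natDegree ≤ q' := by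
      refine ⟨T'.natDegree + ∑ i, ∑ j, (A' i j).natDegree, by omega, fun i j => ?_⟩
      have h1 : (A' i j).natDegree ≤ ∑ j, (A' i j).natDegree :=
        Finset.single_le_sum (f := fun j => (A' i j).natDegree) (fun _ _ => Nat.zero_le _) (Finset.mem_univ j)
      have h2 : ∑ j, (A' i j).natDegree ≤ ∑ i, ∑ j, (A' i j).natDegree :=
        Finset.single_le_sum (f := fun i => ∑ j, (A' i j).natDegree) (fun _ _ => Nat.zero_le _) (Finset.mem_univ i)
      omega
    obtain ⟨K, hK1, hK⟩ := itm_deg q' hq1 hq2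
    refine ⟨K, hK1, fun k i m => ?_⟩
    have h1 : ((m.factorial : ℝ) * |((T'.coeff 0 : ℤ) : ℝ)| ^ m) * |((coeff m (y k i) : ℚ) : ℝ)| =
        |(((itm T' A' m i k).coeff 0 : ℤ) : ℝ)| := by
      have h2 := congrArg (fun x : ℚ => |((x : ℚ) : ℝ)|) (hco k m i)
      push_cast at h2
      rw [abs_mul, abs_mul, abs_pow, Nat.abs_cast] at h2
      exact h2
    have h3 : (1 : ℝ) ≤ |((T'.coeff 0 : ℤ) : ℝ)| := by
      rw [← Int.cast_abs]
      exact_mod_cast Int.one_le_abs hc
    have h4 : (1 : ℝ) ≤ |((T'.coeff 0 : ℤ) : ℝ)| ^ m := one_le_pow₀ h3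
    have h5 := (hK m i k).2
    have h6 : (0 : ℝ) < m.factorial := by exact_mod_cast m.factorial_pos
    have h7 : (m.factorial : ℝ) * |((coeff m (y k i) : ℚ) : ℝ)| ≤ K ^ m * m.factorial := by
      refine le_trans ?_ (h1.le.trans h5)
      have h8 : 0 ≤ |((coeff m (y k i) : ℚ) : ℝ)| := abs_nonneg _
      calc (m.factorial : ℝ) * |((coeff m (y k i) : ℚ) : ℝ)| =
            (m.factorial : ℝ) * 1 * |((coeff m (y k i) : ℚ) : ℝ)| := by ring
        _ ≤ (m.factorial : ℝ) * |((T'.coeff 0 : ℤ) : ℝ)| ^ m * |((coeff m (y k i) : ℚ) : ℝ)| := by gcongr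
    have h8 : |((coeff m (y k i) : ℚ) : ℝ)| ≤ K ^ m := by
      rw [mul_comm (K ^ m)] at h7
      exact le_of_mul_le_mul_left h7 h6
    refine h8.trans ?_
    rw [pow_succ]
    exact le_mul_of_one_le_right (by positivity) hK1
  -- the functions
  refine ⟨fun a => y (cl4 a) (rw4 a), T', A4 A', ⟨?_, ?_, ?_, ?_, ?_, ?_⟩, ?_⟩
  · intro h0
    rw [h0, Polynomial.coeff_zero] at hc
    exact hc rfl
  · intro a
    rw [hode]
    have h1 : ∀ l, ps (A4 A' a l) * y (cl4 l) (rw4 l) = if cl4 a = cl4 l then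
        ps (A' (rw4 a) (rw4 l)) * y (cl4 a) (rw4 l) else 0 := by
      intro l
      show ps (if cl4 a = cl4 l then A' (rw4 a) (rw4 l) else 0) * _ = _
      by_cases h : cl4 a = cl4 l
      · rw [if_pos h, if_pos h, h]
      · rw [if_neg h, if_neg h, ps_zero, zero_mul]
    rw [Finset.sum_congr rfl fun l _ => h1 l, sum4 (cl4 a) fun i => ps (A' (rw4 a) i) * y (cl4 a) i]
  · exact ⟨K, fun a m => hK _ _ _⟩
  · obtain ⟨C, hC⟩ := hgal'
    have hC0 : 0 < C := by
      obtain ⟨d, hd, hd2, -⟩ := hC 0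
      rw [zero_add, pow_one] at hd2
      have : (0 : ℝ) < d := by exact_mod_cast hd
      linarith
    set t : ℕ := (T'.coeff 0).natAbs with ht
    have ht0 : 0 < t := Int.natAbs_pos.2 hc
    refine ⟨C * t, fun m => ?_⟩
    obtain ⟨d, hd, hd2, hd3⟩ := hC m
    refine ⟨d * t ^ m, by positivity, ?_, fun a s hs => ?_⟩
    · push_cast
      rw [mul_pow]
      have h1 : (t : ℝ) ^ m ≤ (t : ℝ) ^ (m + 1) := by
        apply pow_le_pow_right₀ _ (Nat.le_succ m)
        exact_mod_cast ht0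
      exact mul_le_mul hd2 h1 (by positivity) (by positivity)
    · obtain ⟨H, hH⟩ := hd3 s hs (rw4 a) (cl4 a)
      have h1 := congrArg (fun P => Polynomial.coeff P 0) hH
      have e1 : ∀ (n : ℕ) (P : Polynomial ℤ), ((n : Polynomial ℤ) * P).coeff 0 = n * P.coeff 0 := by
        intro n P
        have : (n : Polynomial ℤ) = Polynomial.C (n : ℤ) := by simp
        rw [this, Polynomial.coeff_C_mul]
      simp only [e1] at h1
      have h2 : (d : ℚ) * (((itm T' A' s (rw4 a) (cl4 a)).coeff 0 : ℤ) : ℚ) =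
          (s.factorial : ℚ) * ((H.coeff 0 : ℤ) : ℚ) := by exact_mod_cast h1
      rw [← hco] at h2
      have h3 : (s.factorial : ℚ) ≠ 0 := by exact_mod_cast s.factorial_ne_zero
      have h4 : (d : ℚ) * (((T'.coeff 0 : ℤ) : ℚ) ^ s * coeff s (y (cl4 a) (rw4 a))) = ((H.coeff 0 : ℤ) : ℚ) := by
        apply mul_left_cancel₀ h3
        rw [← h2]
        ring
      -- the sign
      obtain ⟨ε, hε⟩ : ∃ ε : ℤ, (t : ℤ) = ε * T'.coeff 0 := by
        rcases Int.natAbs_eq (T'.coeff 0) with h | h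
        · exact ⟨1, by rw [one_mul]; exact h.symm⟩
        · exact ⟨-1, by rw [ht]; linarith⟩
      refine ⟨ε ^ s * (t : ℤ) ^ (m - s) * H.coeff 0, ?_⟩
      push_cast
      rw [← h4]
      have h5 : (t : ℚ) = (ε : ℚ) * ((T'.coeff 0 : ℤ) : ℚ) := by exact_mod_cast hε
      have h6 : (t : ℚ) ^ m = (t : ℚ) ^ s * (t : ℚ) ^ (m - s) := by
        rw [← pow_add, Nat.add_sub_cancel' hs]
      rw [h6]
      calc (d : ℚ) * ((t : ℚ) ^ s * (t : ℚ) ^ (m - s)) * coeff s (y (cl4 a) (rw4 a)) =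
            (t : ℚ) ^ s * ((d : ℚ) * (t : ℚ) ^ (m - s) * coeff s (y (cl4 a) (rw4 a))) := by ring
        _ = _ := by
            rw [h5, mul_pow]
            ring
  · exact gal4 hgal'
  · exact qu4 hode hy hK
  · -- the normalisation
    have hden : (x₀.den : ℚ) ^ q ≠ 0 := pow_ne_zero _ (by exact_mod_cast x₀.den_nz)
    have hCC : (PowerSeries.C ((x₀.den : ℚ) ^ q) : ℚ⟦X⟧) ≠ 0 := by
      intro h0
      have := congrArg constantCoeff h0
      rw [PowerSeries.constantCoeff_C, map_zero] at this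
      exact hden this
    have heq : ∀ k i, shp x₀ T * d⁄dX ℚ (y k i) = shp x₀ (A i 0) * y k 0 + shp x₀ (A i 1) * y k 1 := by
      intro k i
      have h1 := hode k i
      rw [Fin.sum_univ_two, hT', ps_sh x₀ hT] at h1
      have h2 : ∀ j, ps (A' i j) = PowerSeries.C ((x₀.den : ℚ) ^ q) * shp x₀ (A i j) := fun j => ps_sh x₀ (hA i j)
      rw [h2, h2] at h1
      apply mul_left_cancel₀ hCC
      rw [mul_add, ← mul_assoc, h1]
      ring
    refine ⟨?_, ?_, ?_, ?_, heq 0 0, heq 1 0, heq 0 1, heq 1 1, ⟨K, fun a m => hK _ _ _⟩⟩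
    · exact (hy 0 0).trans (if_pos rfl)
    · exact (hy 1 0).trans (if_neg (by decide))
    · exact (hy 0 1).trans (if_neg (by decide))
    · exact (hy 1 1).trans (if_pos rfl)

end Pool.Agent.T2h17.MJ
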