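import Pool.Agent.T2h17.MJ.Stm
import Pool.Agent.T2h17.MJ.LocA

/-!
The functional relations between the entries of the fundamental matrix of the equation of the modular invariant.
-/

set_option autoImplicit false

open Filter Topology
open scoped PowerSeries

namespace Pool.Agent.T2h17.MJ

open Pool.Agent.TH21.MS (jj jj_an)
open Pool.Agent.Y916.Al
open Pool.Agent.Y916.Af (Vc)

/-- the value of a relation at the point `t` -/
theorem ev_rel {h : Fin 4 → ℚ⟦X⟧} {t : ℂ} (hv : ∀ i, Cvc t (h i))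
    (R : MvPolynomial (Fin 4) (Polynomial ℚ)) :
    Cvc t (MvPolynomial.aeval h R) ∧ evc t (MvPolynomial.aeval h R) =
      MvPolynomial.eval₂ (Polynomial.aeval t : Polynomial ℚ →ₐ[ℚ] ℂ).toRingHom
        (fun i => evc t (h i)) R := by
  induction R using MvPolynomial.induction_on with
  | C a =>
    rw [MvPolynomial.aeval_C, MvPolynomial.eval₂_C]
    exact ⟨Cvc.coe a, ev_coe a⟩
  | add p q hp hq =>
    rw [map_add, MvPolynomial.eval₂_add]
    exact ⟨hp.1.add hq.1, by rw [hp.1.ev_add hq.1, hp.2, hq.2]⟩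
  | mul_X p i hp =>
    rw [map_mul, MvPolynomial.aeval_X, MvPolynomial.eval₂_mul, MvPolynomial.eval₂_X]
    exact ⟨hp.1.mul (hv i), by rw [hp.1.ev_mul (hv i), hp.2]⟩

section alg
variable {A B : Type} [CommRing A] [CommRing B] {φ : A →+* B}

/-- algebraic elements of a domain over a subring -/
def Alg (φ : A →+* B) (b : B) : Prop := ∃ p : Polynomial A, p ≠ 0 ∧ p.eval₂ φ b = 0

theorem Alg.add [IsDomain A] {a b : B} (ha : Alg φ a) (hb : Alg φ b) : Alg φ (a + b) := by
  let _ : Algebra A B := φ.toAlgebra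
  have h1 : IsAlgebraic A a := ha
  have h2 : IsAlgebraic A b := hb
  exact h1.add h2

theorem Alg.mul [IsDomain A] {a b : B} (ha : Alg φ a) (hb : Alg φ b) : Alg φ (a * b) := by
  let _ : Algebra A B := φ.toAlgebra
  have h1 : IsAlgebraic A a := ha
  have h2 : IsAlgebraic A b := hb
  exact h1.mul h2

theorem Alg.img [IsDomain A] (a : A) : Alg φ (φ a) :=
  ⟨Polynomial.X - Polynomial.C a, Polynomial.X_sub_C_ne_zero a, by
    rw [Polynomial.eval₂_sub, Polynomial.eval₂_X, Polynomial.eval₂_C, sub_self]⟩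

theorem Alg.dvd [IsDomain B] {b : B} (hb : Alg φ b) (h0 : b ≠ 0) : ∃ c : A, c ≠ 0 ∧ b ∣ φ c := by
  let _ : Algebra A B := φ.toAlgebra
  have h1 : IsAlgebraic A b := hb
  exact h1.exists_nonzero_dvd (mem_nonZeroDivisors_of_ne_zero h0)

theorem quad_ne {a b : A} (ha : a ≠ 0) : Polynomial.C a * Polynomial.X ^ 2 + Polynomial.C b ≠ 0 := by
  intro h
  have h2 := congrArg (fun p => Polynomial.coeff p 2) h
  simp only [Polynomial.coeff_add, Polynomial.coeff_C_mul, Polynomial.coeff_X_pow, if_true, mul_one,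
    Polynomial.coeff_C, OfNat.ofNat_ne_zero, if_false, add_zero, Polynomial.coeff_zero] at h2
  exact ha h2

end alg

open MvPolynomial in
/-- `j, z, j', j''` in terms of `j, z, f, g` -/
noncomputable def sb : Fin 4 → MvPolynomial (Fin 4) ℂ :=
  ![X 0, X 1, C (-tp) * X 0 * X 2 ^ 2, C (tp ^ 2) * X 0 * (X 2 ^ 4 - 2 * X 2 ^ 3 * X 3)]

open MvPolynomial in
theorem alg_sb (Φ : MvPolynomial (Fin 4) ℂ) : Alg (aeval (R := ℂ) sb).toRingHom Φ := by
  have tp0 : tp ≠ 0 := by
    unfold tp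
    simp [Real.pi_ne_zero]
  have hX0 : (X 0 : MvPolynomial (Fin 4) ℂ) ≠ 0 := X_ne_zero 0
  have hX2 : (X 2 : MvPolynomial (Fin 4) ℂ) ≠ 0 := X_ne_zero 2
  have e : ∀ i, (aeval (R := ℂ) sb).toRingHom (X i) = sb i := fun i => aeval_X sb i
  have eC : ∀ c : ℂ, (aeval (R := ℂ) sb).toRingHom (C c) = C c := fun c => aeval_C sb c
  induction Φ using MvPolynomial.induction_on with
  | C a =>
    rw [← eC a]
    exact Alg.img _
  | add p q hp hq => exact hp.add hq
  | mul_X p i hp =>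
    refine hp.mul ?_
    fin_cases i
    · have := Alg.img (φ := (aeval (R := ℂ) sb).toRingHom) (X 0)
      rw [e 0] at this
      exact this
    · have := Alg.img (φ := (aeval (R := ℂ) sb).toRingHom) (X 1)
      rw [e 1] at this
      exact this
    · refine ⟨Polynomial.C (C (-tp) * X 0) * Polynomial.X ^ 2 + Polynomial.C (-X 2), ?_, ?_⟩
      · exact quad_ne (mul_ne_zero (C_ne_zero.2 (neg_ne_zero.2 tp0)) hX0)
      · rw [Polynomial.eval₂_add, Polynomial.eval₂_mul, Polynomial.eval₂_pow, Polynomial.eval₂_X,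
          Polynomial.eval₂_C, Polynomial.eval₂_C, RingHom.map_mul,
          map_neg (aeval (R := ℂ) sb).toRingHom, e, e, eC]
        show C (-tp) * X 0 * X 2 ^ 2 + -(C (-tp) * X 0 * X 2 ^ 2) = 0
        ring
    · refine ⟨Polynomial.C (C (4 * tp) * X 0 * X 2 ^ 3) * Polynomial.X ^ 2 +
        Polynomial.C ((X 2 ^ 2 - X 3 * X 0) ^ 2), ?_, ?_⟩
      · exact quad_ne (mul_ne_zero (mul_ne_zero
          (C_ne_zero.2 (mul_ne_zero (by norm_num) tp0)) hX0) (pow_ne_zero _ hX2))
      · rw [Polynomial.eval₂_add, Polynomial.eval₂_mul, Polynomial.eval₂_pow, Polynomial.eval₂_X,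
          Polynomial.eval₂_C, Polynomial.eval₂_C]
        simp only [map_mul, map_sub, map_pow, e, eC]
        show C 4 * C tp * X 0 * (C (-tp) * X 0 * X 2 ^ 2) ^ 3 * X 3 ^ 2 +
          ((C (-tp) * X 0 * X 2 ^ 2) ^ 2 -
            C (tp ^ 2) * X 0 * (X 2 ^ 4 - 2 * X 2 ^ 3 * X 3) * X 0) ^ 2 = 0
        have h4 : (C 4 : MvPolynomial (Fin 4) ℂ) = 4 := by
          rw [show (4 : ℂ) = ((4 : ℕ) : ℂ) by norm_num, map_natCast]; norm_num
        rw [h4, map_neg, map_pow]
        ring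

theorem zero_of_germ (hI : S_IND) {z₀ : ℂ} (hz : 0 < z₀.im) (Φ : MvPolynomial (Fin 4) ℂ)
    (f g : ℂ → ℂ) (h1 : ∀ᶠ z in 𝓝 z₀, deriv jj z = -tp * jj z * f z ^ 2)
    (h2 : ∀ᶠ z in 𝓝 z₀, deriv (deriv jj) z = tp ^ 2 * jj z * (f z ^ 4 - 2 * f z ^ 3 * g z))
    (h0 : ∀ᶠ z in 𝓝 z₀, MvPolynomial.eval ![jj z, z, f z, g z] Φ = 0) : Φ = 0 := by
  by_contra hΦ
  obtain ⟨c, hc, Ψ, hΨ⟩ := (alg_sb Φ).dvd hΦ
  refine hc (hI z₀ hz c ?_)
  filter_upwards [h1, h2, h0] with z e1 e2 e0
  have h3 : MvPolynomial.eval ![jj z, z, f z, g z] (MvPolynomial.aeval sb c) = 0 := by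
    have h4 : MvPolynomial.aeval sb c = Φ * Ψ := hΨ
    rw [h4, map_mul, e0, zero_mul]
  rw [← h3, ← MvPolynomial.coe_aeval_eq_eval, ← MvPolynomial.coe_aeval_eq_eval]
  have h5 : MvPolynomial.aeval ![jj z, z, f z, g z] (MvPolynomial.aeval sb c) =
      MvPolynomial.aeval (fun i => MvPolynomial.aeval ![jj z, z, f z, g z] (sb i)) c := by
    rw [← AlgHom.comp_apply, MvPolynomial.comp_aeval]
  show MvPolynomial.aeval ![jj z, z, deriv jj z, deriv (deriv jj) z] c = _
  refine Eq.trans ?_ h5.symm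
  congr 2
  funext i
  fin_cases i
  · simp [sb]
  · simp [sb]
  · simp [sb, e1]
  · simp [sb, e2]

/-- the entries of a product -/
noncomputable def en (M C' : Matrix (Fin 2) (Fin 2) ℂ) : Fin 4 → ℂ :=
  ![(M * C') 0 0, (M * C') 0 1, (M * C') 1 0, (M * C') 1 1]

/-- the matrix with the parameters `z, f, g` -/
noncomputable def mz (z f g : ℂ) : Matrix (Fin 2) (Fin 2) ℂ :=
  !![f, tp * z * f; g, (1 + tp * z * f * g) / f]

open MvPolynomial in
theorem clear_den (x₀ : ℚ) (C' : Matrix (Fin 2) (Fin 2) ℂ)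
    (R : MvPolynomial (Fin 4) (Polynomial ℚ)) :
    ∃ (N : ℕ) (Φ : MvPolynomial (Fin 4) ℂ), ∀ j z f g : ℂ, j ≠ 0 → f ≠ 0 →
      MvPolynomial.eval ![j, z, f, g] Φ = (j * f) ^ N *
        MvPolynomial.eval₂ (Polynomial.aeval (1 / j - (x₀ : ℂ)) : Polynomial ℚ →ₐ[ℚ] ℂ).toRingHom
          (en (mz z f g) C') R := by
  induction R using MvPolynomial.induction_on with
  | C a =>
    induction a using Polynomial.induction_on' with
    | add p q hp hq =>
      obtain ⟨N, Φ, h1⟩ := hp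
      obtain ⟨N', Φ', h2⟩ := hq
      refine ⟨N + N', Φ * (X 0 * X 2) ^ N' + Φ' * (X 0 * X 2) ^ N, fun j z f g hj hf => ?_⟩
      have h1' := h1 j z f g hj hf
      have h2' := h2 j z f g hj hf
      rw [map_add, map_mul, map_mul, h1', h2', map_pow, map_mul, map_pow, map_mul, eval_X, eval_X,
        map_add, eval₂_add]
      simp only [Matrix.cons_val_zero, Matrix.cons_val]
      ring
    | monomial n c =>
      refine ⟨n, C (c : ℂ) * ((1 - C (x₀ : ℂ) * X 0) * X 2) ^ n, fun j z f g hj hf => ?_⟩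
      rw [eval₂_C]
      simp only [map_mul, map_pow, map_sub, map_one, eval_C, eval_X, Matrix.cons_val_zero,
        Matrix.cons_val]
      have h3 : (Polynomial.aeval (1 / j - (x₀ : ℂ)) : Polynomial ℚ →ₐ[ℚ] ℂ).toRingHom
          (Polynomial.monomial n c) = (c : ℂ) * (1 / j - (x₀ : ℂ)) ^ n := by
        show Polynomial.aeval (1 / j - (x₀ : ℂ)) (Polynomial.monomial n c) = _
        rw [Polynomial.aeval_monomial, eq_ratCast]
      rw [h3, show (1 - (x₀ : ℂ) * j) * f = (j * f) * (1 / j - x₀) by field_simp, mul_pow]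
      ring
  | add p q hp hq =>
    obtain ⟨N, Φ, h1⟩ := hp
    obtain ⟨N', Φ', h2⟩ := hq
    refine ⟨N + N', Φ * (X 0 * X 2) ^ N' + Φ' * (X 0 * X 2) ^ N, fun j z f g hj hf => ?_⟩
    have h1' := h1 j z f g hj hf
    have h2' := h2 j z f g hj hf
    rw [map_add, map_mul, map_mul, h1', h2', map_pow, map_mul, map_pow, map_mul, eval_X, eval_X,
      eval₂_add]
    simp only [Matrix.cons_val_zero, Matrix.cons_val]
    ring
  | mul_X p i hp =>
    obtain ⟨N, Φ, h1⟩ := hp
    have hW : ∃ W : MvPolynomial (Fin 4) ℂ, ∀ j z f g : ℂ, j ≠ 0 → f ≠ 0 →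
        MvPolynomial.eval ![j, z, f, g] W = (j * f) * en (mz z f g) C' i := by
      fin_cases i
      · refine ⟨X 0 * X 2 * (X 2 * C (C' 0 0) + C tp * X 1 * X 2 * C (C' 1 0)), fun j z f g hj hf => ?_⟩
        simp [en, mz, Matrix.mul_apply, Fin.sum_univ_two]
      · refine ⟨X 0 * X 2 * (X 2 * C (C' 0 1) + C tp * X 1 * X 2 * C (C' 1 1)), fun j z f g hj hf => ?_⟩
        simp [en, mz, Matrix.mul_apply, Fin.sum_univ_two]
      · refine ⟨X 0 * (X 2 * X 3 * C (C' 0 0) + (1 + C tp * X 1 * X 2 * X 3) * C (C' 1 0)),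
          fun j z f g hj hf => ?_⟩
        simp [en, mz, Matrix.mul_apply, Fin.sum_univ_two]
        field_simp
      · refine ⟨X 0 * (X 2 * X 3 * C (C' 0 1) + (1 + C tp * X 1 * X 2 * X 3) * C (C' 1 1)),
          fun j z f g hj hf => ?_⟩
        simp [en, mz, Matrix.mul_apply, Fin.sum_univ_two]
        field_simp
    obtain ⟨W, hW⟩ := hW
    refine ⟨N + 1, Φ * W, fun j z f g hj hf => ?_⟩
    rw [map_mul, h1 j z f g hj hf, hW j z f g hj hf, eval₂_mul, eval₂_X]
    ring

/-- the point of the path -/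
noncomputable def ys (M C' : Matrix (Fin 2) (Fin 2) ℂ) (s : ℂ) : Fin 4 → ℂ :=
  en (M * !![1, 0; s, 1]) C'

theorem t_vc : S_IND → S_LOC → S_VC := by
  intro hI hL z₀ x₀ h hz hj0 hj1 hx hF x y hy0 hy R hR
  obtain ⟨C, hC, -, ρ, hρ, hloc⟩ := hL z₀ x₀ h hz hj0 hj1 hx hF
  obtain ⟨C₀, hC₀⟩ := hF.size
  have tp0 : tp ≠ 0 := by
    unfold tp
    simp [Real.pi_ne_zero]
  have hCd : C 0 0 * C 1 1 - C 0 1 * C 1 0 = 1 := by
    rw [← Matrix.det_fin_two]
    exact hC
  set C' : Matrix (Fin 2) (Fin 2) ℂ := !![C 1 1, -C 0 1; -C 1 0, C 0 0] with hC'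
  have hCC : C * C' = 1 := by
    rw [hC']
    ext i j
    fin_cases i <;> fin_cases j <;> simp [Matrix.mul_apply, Fin.sum_univ_two]
    · linear_combination hCd
    · ring
    · ring
    · linear_combination hCd
  have hen : ∀ A : Matrix (Fin 2) (Fin 2) ℂ, en (A * C) C' = ![A 0 0, A 0 1, A 1 0, A 1 1] := by
    intro A
    unfold en
    rw [Matrix.mul_assoc, hCC, Matrix.mul_one]
  -- the relation at the points near `z₀`
  obtain ⟨N, Φ, hΦ⟩ := clear_den x₀ C' R
  have hnear : ∀ᶠ z in 𝓝 z₀, ‖z - z₀‖ < ρ := by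
    filter_upwards [Metric.ball_mem_nhds z₀ hρ] with z hz'
    rw [← dist_eq_norm]
    exact hz'
  have hjc : ContinuousAt jj z₀ := (jj_an z₀ hz).continuousAt
  have hconv : ∀ᶠ z in 𝓝 z₀, ∀ i, Cvc (1 / jj z - (x₀ : ℂ)) (h i) := by
    set D := max C₀ 1 with hDdef
    have hD : 1 ≤ D := le_max_right _ _
    have h0 : 0 ≤ C₀ := by
      have := (abs_nonneg _).trans (hC₀ 0 0)
      simpa using this
    have hcont : ContinuousAt (fun z => ‖1 / jj z - (x₀ : ℂ)‖) z₀ :=
      ((continuousAt_const.div hjc hj0).sub continuousAt_const).norm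
    have h1 : ‖1 / jj z₀ - (x₀ : ℂ)‖ < 1 / (2 * D) := by
      rw [hx, sub_self, norm_zero]
      positivity
    filter_upwards [hcont.eventually_lt continuousAt_const h1] with z hz1 i
    exact cvc_of_size hD (fun m => (hC₀ i m).trans (pow_le_pow_left₀ h0 (le_max_left _ _) _)) hz1
  have hzero : Φ = 0 := by
    refine zero_of_germ hI hz Φ (fun z => pm h C (1 / jj z - x₀) 0 0)
      (fun z => pm h C (1 / jj z - x₀) 1 0) ?_ ?_ ?_
    · filter_upwards [hnear] with z hz1
      exact (hloc z hz1).2.2.2.2.2.1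
    · filter_upwards [hnear] with z hz1
      exact (hloc z hz1).2.2.2.2.2.2.1
    · filter_upwards [hnear, hconv] with z hz1 hz2
      obtain ⟨-, hj, -, hf, hzf, -, -, hdet⟩ := hloc z hz1
      have h3 := ev_rel hz2 R
      rw [hR, ev_zero] at h3
      rw [hΦ (jj z) z _ _ hj hf]
      have h4 : en (mz z (pm h C (1 / jj z - x₀) 0 0) (pm h C (1 / jj z - x₀) 1 0)) C' =
          fun i => evc (1 / jj z - (x₀ : ℂ)) (h i) := by
        rw [Matrix.det_fin_two] at hdet
        have h11 : (1 + tp * z * pm h C (1 / jj z - x₀) 0 0 * pm h C (1 / jj z - x₀) 1 0) /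
            pm h C (1 / jj z - x₀) 0 0 = pm h C (1 / jj z - x₀) 1 1 := by
          rw [div_eq_iff hf]
          linear_combination (-1 : ℂ) * hdet + pm h C (1 / jj z - x₀) 1 0 * hzf
        have h01 : tp * z * pm h C (1 / jj z - x₀) 0 0 = pm h C (1 / jj z - x₀) 0 1 := by
          rw [← hzf]; ring
        have hm : mz z (pm h C (1 / jj z - x₀) 0 0) (pm h C (1 / jj z - x₀) 1 0) =
            pm h C (1 / jj z - x₀) := by
          unfold mz
          rw [h11, h01]
          exact (Matrix.eta_fin_two _).symm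
        rw [hm]
        unfold pm
        rw [hen]
        funext i
        fin_cases i <;> rfl
      rw [h4, ← h3.2, mul_zero]
  -- all points with nonzero entry
  have hall : ∀ (x : ℂ) (M : Matrix (Fin 2) (Fin 2) ℂ), x + x₀ ≠ 0 → M 0 0 ≠ 0 → M.det = 1 →
      MvPolynomial.eval₂ (Polynomial.aeval x : Polynomial ℚ →ₐ[ℚ] ℂ).toRingHom (en M C') R = 0 := by
    intro x M hx1 hM hd
    have h5 := hΦ (1 / (x + x₀)) (M 0 1 / (tp * M 0 0)) (M 0 0) (M 1 0) (one_div_ne_zero hx1) hM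
    rw [hzero, map_zero] at h5
    have h6 : 1 / (1 / (x + x₀)) - (x₀ : ℂ) = x := by
      rw [one_div_one_div]; ring
    rw [h6] at h5
    have h7 : mz (M 0 1 / (tp * M 0 0)) (M 0 0) (M 1 0) = M := by
      unfold mz
      rw [Matrix.det_fin_two] at hd
      have h01 : tp * (M 0 1 / (tp * M 0 0)) * M 0 0 = M 0 1 := by field_simp
      rw [h01]
      have h11 : (1 + M 0 1 * M 1 0) / M 0 0 = M 1 1 := by
        rw [div_eq_iff hM]
        linear_combination (-1 : ℂ) * hd
      rw [h11]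
      exact (Matrix.eta_fin_two _).symm
    rw [h7] at h5
    have h8 : (1 / (x + x₀) * M 0 0) ^ N ≠ 0 := pow_ne_zero _ (mul_ne_zero (one_div_ne_zero hx1) hM)
    exact (mul_eq_zero.1 h5.symm).resolve_left h8
  -- the limit
  have hys0 : ys (ym C y) C' 0 = y := by
    unfold ys
    rw [show (!![1, 0; 0, 1] : Matrix (Fin 2) (Fin 2) ℂ) = 1 from Matrix.one_fin_two.symm,
      Matrix.mul_one]
    unfold ym
    rw [hen]
    funext i
    fin_cases i <;> rfl
  have hMd : (ym C y).det = 1 := by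
    unfold ym
    rw [Matrix.det_mul, hC, mul_one, Matrix.det_fin_two]
    show y 0 * y 3 - y 1 * y 2 = 1
    linear_combination hy
  have hcont : Continuous fun s : ℂ => MvPolynomial.eval₂
      (Polynomial.aeval (x + s) : Polynomial ℚ →ₐ[ℚ] ℂ).toRingHom (ys (ym C y) C' s) R := by
    have h1 : ∀ i, Continuous fun s : ℂ => ys (ym C y) C' s i := by
      intro i
      fin_cases i <;> simp [ys, en, Matrix.mul_apply, Fin.sum_univ_two] <;> fun_prop
    simp only [MvPolynomial.eval₂_eq]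
    refine continuous_finsetSum _ fun d _ => Continuous.mul ?_ ?_
    · show Continuous fun s : ℂ => Polynomial.aeval (x + s) (MvPolynomial.coeff d R)
      exact (Polynomial.continuous_aeval _).comp (continuous_const.add continuous_id)
    · exact continuous_finsetProd _ fun i _ => (h1 i).pow _
  have hev : ∀ᶠ s in 𝓝[≠] (0 : ℂ), MvPolynomial.eval₂
      (Polynomial.aeval (x + s) : Polynomial ℚ →ₐ[ℚ] ℂ).toRingHom (ys (ym C y) C' s) R = 0 := by
    have h1 : ∀ᶠ s in 𝓝[≠] (0 : ℂ), x + s + x₀ ≠ 0 := by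
      have h2 : ∀ᶠ s in 𝓝[≠] (0 : ℂ), s ≠ -(x + x₀) := by
        by_cases h3 : -(x + (x₀ : ℂ)) = 0
        · rw [h3]
          exact eventually_mem_nhdsWithin
        · exact eventually_nhdsWithin_of_eventually_nhds
            ((continuous_id.continuousAt (x := (0 : ℂ))).eventually_ne (Ne.symm h3))
      filter_upwards [h2] with s hs h4
      exact hs (by linear_combination h4)
    have h5 : ∀ᶠ s in 𝓝[≠] (0 : ℂ), ym C y 0 0 + s * ym C y 0 1 ≠ 0 := by
      by_cases h6 : ym C y 0 0 = 0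
      · have h7 : ym C y 0 1 ≠ 0 := by
          intro h8
          rw [Matrix.det_fin_two, h6, h8] at hMd
          simp at hMd
        filter_upwards [eventually_mem_nhdsWithin] with s hs
        rw [h6, zero_add]
        exact mul_ne_zero hs h7
      · refine eventually_nhdsWithin_of_eventually_nhds ?_
        have h9 : ContinuousAt (fun s : ℂ => ym C y 0 0 + s * ym C y 0 1) 0 := by fun_prop
        exact h9.eventually_ne (by simpa using h6)
    filter_upwards [h1, h5] with s hs1 hs2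
    refine hall _ _ hs1 ?_ ?_
    · rw [Matrix.mul_apply, Fin.sum_univ_two]
      simp only [Matrix.of_apply, Matrix.cons_val', Matrix.cons_val_zero, Matrix.cons_val_one,
        Matrix.cons_val_fin_one, mul_one]
      rw [mul_comm (ym C y 0 1)]
      exact hs2
    · rw [Matrix.det_mul, hMd, Matrix.det_fin_two]
      simp
  have hlim := (hcont.tendsto 0).mono_left (nhdsWithin_le_nhds (s := {0}ᶜ))
  have h0 : MvPolynomial.eval₂ (Polynomial.aeval (x + 0) : Polynomial ℚ →ₐ[ℚ] ℂ).toRingHom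
      (ys (ym C y) C' 0) R = 0 :=
    tendsto_nhds_unique hlim ((tendsto_const_nhds).congr' (hev.mono fun s hs => hs.symm))
  rw [hys0, add_zero] at h0
  exact h0

end Pool.Agent.T2h17.MJ
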