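import Pool.Agent.T2h17.MJ.Win
import Pool.Agent.T2h17.MJ.Shift
import Pool.Agent.T2h17.MJ.Ind
import Pool.Agent.T2h17.MJ.Ode
import Pool.Agent.T2h17.MJ.Loc
import Pool.Agent.T2h17.MJ.Vc
import Pool.Agent.T2h17.MJ.Gal

/-!
All parts together.
-/

set_option autoImplicit false

namespace Pool.Agent.T2h17.MJ

theorem gal : S_GAL := t_gal

theorem loc : S_LOC := t_loc t_der t_ode

theorem vc : S_VC := t_vc t_ind loc

end Pool.Agent.T2h17.MJ
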