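import Pool.Agent.T2h17.MJ.Win
import Pool.Agent.Y120.A.Cnt

/-!
Almost all tuples near a point with rational invariant.
-/

set_option autoImplicit false
set_option maxHeartbeats 1000000

open PowerSeries Module Pool.Agent.Y120.J Pool.Agent.Y120.K Pool.Agent.Y120.A
open Pool.Agent.TH21.MS (jj)
open Pool.Agent.Y916.Af (GFam Vc ptn ptc ExcT tupT2s nrh_of_gfam small_tuples coeff_sub deg_sub eval_sub)
open Pool.Agent.Y916.Al (evc)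
open Pool.Agent.Y916

namespace Pool.Agent.T2h17.MJ

/-- the tuples `ξ` with a relation between the numbers at the points with `1 / j = x₀ + 1 / ξ_i` near `z₀` -/
def ExcN (z₀ : ℂ) (ρ : ℝ) (δ d : ℕ) {q k : ℕ} (w : Fin q → ℂ) (ξ : Fin k → ℂ) : Prop :=
  ∃ (v : Fin k → UpperHalfPlane) (γ : Fin k → Matrix.SpecialLinearGroup (Fin 2) ℤ),
    (∀ j, ‖(v j : ℂ) - z₀‖ < ρ ∧ 1 / jj (v j) = 1 / jj z₀ + 1 / ξ j) ∧
    ∃ L : IntermediateField ℚ ℂ, FiniteDimensional ℚ L ∧ finrank ℚ L ≤ d ∧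
    ∃ P : MvPolynomial ((Option (Fin q) ⊕ Fin 3) ⊕ Fin k × Fin 3) L, P.totalDegree ≤ δ ∧
      MvPolynomial.aeval (Sum.elim (Sum.elim (wo w) (jt z₀)) fun a : Fin k × Fin 3 =>
        jt ((γ a.1 • v a.1 : UpperHalfPlane) : ℂ) a.2) P = 0 ∧
      ∃ y, MvPolynomial.aeval (Sum.elim (Sum.elim (wo w) (jt z₀)) y) P ≠ 0

/-- the constants -/
noncomputable def Wd {q : ℕ} (C : Matrix (Fin 2) (Fin 2) ℂ) (nz : Fin 3 → ℂ) (w : Fin q → ℂ) : Submodule ℚ ℂ :=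
  Submodule.span ℚ (Set.range fun o : Option (Fin 8 ⊕ Fin q) => o.elim 1 (Sum.elim (Om C nz) w))

lemma Wd_one {q : ℕ} (C : Matrix (Fin 2) (Fin 2) ℂ) (nz : Fin 3 → ℂ) (w : Fin q → ℂ) : (1 : ℂ) ∈ Wd C nz w :=
  Submodule.subset_span ⟨none, rfl⟩

lemma Wd_mem {q : ℕ} (C : Matrix (Fin 2) (Fin 2) ℂ) (nz : Fin 3 → ℂ) (w : Fin q → ℂ) (o : Fin 8 ⊕ Fin q) :
    Sum.elim (Om C nz) w o ∈ Wd C nz w := Submodule.subset_span ⟨some o, rfl⟩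

lemma Wd_rank {q : ℕ} (C : Matrix (Fin 2) (Fin 2) ℂ) (nz : Fin 3 → ℂ) (w : Fin q → ℂ) (n : ℕ) :
    Module.Finite ℚ ↥(Wd C nz w ^ n) ∧ finrank ℚ ↥(Wd C nz w ^ n) ≤ (q + 9) ^ n := by
  haveI : Module.Finite ℚ (Wd C nz w) := Module.Finite.span_of_finite ℚ (Set.finite_range _)
  obtain ⟨h1, h2⟩ := Pool.Agent.Y916.Om.finrank_pow_le (Wd C nz w) n
  refine ⟨h1, h2.trans (Nat.pow_le_pow_left ?_ n)⟩
  refine (finrank_range_le_card _).trans ?_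
  rw [Fintype.card_option, Fintype.card_sum, Fintype.card_fin, Fintype.card_fin]
  omega

/-- the core -/
theorem core (hgal : S_GAL) (hsh : S_SHIFT) (hloc : S_LOC) (hvc : S_VC) {z₀ : ℂ} {x₀ : ℚ} (hz₀ : 0 < z₀.im)
    (h0 : jj z₀ ≠ 0) (h1728 : jj z₀ ≠ 1728) (hx : 1 / jj z₀ = x₀) :
    ∃ (ρ : ℝ) (B : ℕ) (h : Fin 4 → ℚ⟦X⟧) (T' : Polynomial ℤ) (A' : Fin 4 → Fin 4 → Polynomial ℤ)
      (C : Matrix (Fin 2) (Fin 2) ℂ), 0 < ρ ∧ 1 ≤ B ∧ GFam T' A' h ∧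
      (∀ ξ : ℂ, (B : ℝ) < ‖ξ‖ → ∃ v : ℂ, ‖v - z₀‖ < ρ ∧ 0 < v.im ∧ 1 / jj v = 1 / jj z₀ + 1 / ξ) ∧
      ∀ (q k m d δ : ℕ) (w : Fin q → ℂ) (ξ : Fin k → ℂ), (∀ i, IsAlgebraic ℚ (ξ i)) →
        (∀ i, (minpoly ℚ (ξ i)).natDegree ≤ m) → (∀ i, (B : ℝ) < ‖ξ i‖) → ExcN z₀ ρ δ d w ξ →
        ExcT h (dd (q + 3) k δ * 2) (d * m ^ k) (Wd C (jt z₀) w ^ (dd (q + 3) k δ * 2)) ξ := by
  classical
  have hx₀ : (x₀ : ℂ) ≠ 0 := by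
    rw [← hx]
    exact one_div_ne_zero h0
  have hTJ : Polynomial.aeval x₀ TJ ≠ 0 := by
    unfold TJ
    rw [map_mul, Polynomial.aeval_X]
    refine mul_ne_zero (by exact_mod_cast hx₀) ?_
    intro h1
    have h2 : (1 : ℚ) - 1728 * x₀ = 0 := by
      have h3 : Polynomial.aeval x₀ T1 = (1 - 1728 * x₀) ^ 2 := by
        have h5 : Polynomial.aeval x₀ (1728 : Polynomial ℤ) = 1728 := map_ofNat _ 1728
        simp [T1, h5]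
      rw [h3] at h1
      exact pow_eq_zero_iff (two_ne_zero) |>.1 h1
    apply h1728
    have h4 : (1 : ℂ) - 1728 * (1 / jj z₀) = 0 := by
      rw [hx]
      exact_mod_cast h2
    field_simp at h4
    linear_combination h4
  obtain ⟨h, T', A', hGF, hF⟩ := hsh TJ AJ hgal x₀ hTJ
  obtain ⟨C, hC, hCalg, ρ₁, hρ₁, hlocz⟩ := hloc z₀ x₀ h hz₀ h0 h1728 hx hF
  obtain ⟨ρ₂, hρ₂, hne⟩ := ev_ne hF.c0 (by
    obtain ⟨B, hB⟩ := hF.size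
    exact ⟨B, fun m => hB 0 m⟩)
  have hd0 : deriv jj z₀ ≠ 0 := (hlocz z₀ (by rw [sub_self, norm_zero]; exact hρ₁)).2.2.1
  obtain ⟨r, hr, hex⟩ := exists_near hz₀ h0 hd0 hρ₁
  obtain ⟨B, hB⟩ := exists_nat_gt (max (1 / r) (1 / ρ₂))
  have hB1 : 1 ≤ B := by
    have h1 : (0 : ℝ) < B := (lt_of_lt_of_le (one_div_pos.2 hr) (le_max_left _ _)).trans hB
    exact_mod_cast h1
  have hsmall : ∀ ξ : ℂ, (B : ℝ) < ‖ξ‖ → ‖1 / ξ‖ < r ∧ ‖1 / ξ‖ < ρ₂ := by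
    intro ξ h5
    have hr1 : 1 / r < ‖ξ‖ := ((le_max_left _ _).trans_lt hB).trans h5
    have hr2 : 1 / ρ₂ < ‖ξ‖ := ((le_max_right _ _).trans_lt hB).trans h5
    have hpos : 0 < ‖ξ‖ := lt_of_le_of_lt (Nat.cast_nonneg B) h5
    rw [norm_div, norm_one]
    constructor
    · rw [div_lt_iff₀ hpos]
      rw [div_lt_iff₀ hr] at hr1
      linarith
    · rw [div_lt_iff₀ hpos]
      rw [div_lt_iff₀ hρ₂] at hr2
      linarith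
  refine ⟨ρ₁, B, h, T', A', C, hρ₁, hB1, hGF, fun ξ hξ => ?_, ?_⟩
  · obtain ⟨v, hv, hvx⟩ := hex (1 / jj z₀ + 1 / ξ) (by
      rw [add_sub_cancel_left]
      exact (hsmall ξ hξ).1)
    exact ⟨v, hv, (hlocz v hv).1, hvx⟩
  intro q k m d δ w ξ halg hdeg hξB hexc
  obtain ⟨v, γ, hvz, L, hLf, hLd, P, hPd, hP0, y, hy⟩ := hexc
  have := hLf
  obtain ⟨K, hKf, hKd, hLK, hξK⟩ := fld L ξ halg hdeg
  have hξ0 : ∀ j, ξ j ≠ 0 := fun j => by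
    intro h1
    have h2 := hξB j
    rw [h1, norm_zero] at h2
    exact absurd h2 (not_lt.2 (Nat.cast_nonneg B))
  set t : Fin k → ℂ := fun j => 1 / ξ j with ht
  have htt : ∀ j, 1 / jj (v j) - x₀ = t j := fun j => by
    rw [(hvz j).2, hx, add_sub_cancel_left]
  set y₀ : Fin k × Fin 4 → ℂ := ptn h ξ with hy₀
  have hpm : ∀ j, pm h C (t j) = ym C fun l => y₀ (j, l) := fun j => rfl
  have hl := fun j => hlocz (v j) (hvz j).1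
  simp only [htt, hpm] at hl
  have hY₀ : y₀ ∈ Y4 k := by
    intro j
    refine ⟨hne (t j) (hsmall (ξ j) (hξB j)).2, ?_⟩
    have h1 := (hl j).2.2.2.2.2.2.2
    unfold ym at h1
    rw [Matrix.det_mul, hC, mul_one, Matrix.det_fin_two] at h1
    show y₀ (j, 0) * y₀ (j, 3) - y₀ (j, 2) * y₀ (j, 1) = 1
    rw [mul_comm (y₀ (j, 2))]
    exact h1
  have hαK : ∀ j, jj (v j) ∈ K := by
    intro j
    have h1 : jj (v j) = 1 / (x₀ + 1 / ξ j) := by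
      rw [← hx, ← (hvz j).2, one_div_one_div]
    rw [h1]
    refine div_mem (one_mem K) (add_mem ?_ (div_mem (one_mem K) (hξK j)))
    exact K.algebraMap_mem x₀
  set P' : MvPolynomial ((Option (Fin q) ⊕ Fin 3) ⊕ Fin k × Fin 3) K :=
    MvPolynomial.map (IntermediateField.inclusion hLK : L →+* K) P with hP'
  have hPd' : P'.totalDegree ≤ δ := deg_incl hLK P hPd
  let e : Option (Fin q) ⊕ Fin 3 → Option (Fin (q + 3)) := Sum.elim (fun o => o.map (Fin.castAdd 3)) fun j => some (Fin.natAdd q j)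
  have he : ∀ y : Fin k × Fin 3 → ℂ, MvPolynomial.aeval (Sum.elim (wo (Fin.append w (jt z₀))) y)
      (MvPolynomial.rename (Sum.map e id) P') = MvPolynomial.aeval (Sum.elim (Sum.elim (wo w) (jt z₀)) y) P := by
    intro y
    rw [MvPolynomial.aeval_rename, ← aeval_incl hLK P]
    congr 2
    funext x
    rcases x with (o | j) | x
    · rcases o with _ | o
      · rfl
      · show Fin.append w (jt z₀) (Fin.castAdd 3 o) = w o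
        rw [Fin.append_left]
    · show Fin.append w (jt z₀) (Fin.natAdd q j) = jt z₀ j
      rw [Fin.append_right]
    · rfl
  obtain ⟨Q, hQd, hQ0, hQ1⟩ := rel (δ := δ) w (jt z₀) hC (α := fun j => jj (v j)) (fun j => (hl j).2.1) (v := v) (y₀ := y₀)
    (fun j => (hl j).2.2.2.1) (fun j => (hl j).2.2.2.2.1) (fun j => (hl j).2.2.2.2.2.1)
    (fun j => (hl j).2.2.2.2.2.2.1) γ (fun j => rfl) K hαK (MvPolynomial.rename (Sum.map e id) P')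
    ((MvPolynomial.totalDegree_rename_le _ _).trans hPd')
  obtain ⟨y₁, hy₁, hQy⟩ := hQ1 ⟨y, by rwa [he]⟩
  have hQ00 := hQ0 (by rw [he]; exact hP0)
  -- the polynomial with the logarithms
  let f : Fin k × Fin 4 → Fin k × Option (Fin 4) := fun a => (a.1, some a.2)
  set R : MvPolynomial ((Fin 8 ⊕ Fin q) ⊕ Fin k × Option (Fin 4)) K := MvPolynomial.rename (Sum.map id f) Q with hR
  have hRd : R.totalDegree ≤ dd (q + 3) k δ * 2 := (MvPolynomial.totalDegree_rename_le _ _).trans hQd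
  have hRe : ∀ y : Fin k × Option (Fin 4) → ℂ, MvPolynomial.aeval (Sum.elim (Sum.elim (Om C (jt z₀)) w) y) R =
      MvPolynomial.aeval (Sum.elim (Sum.elim (Om C (jt z₀)) w) (y ∘ f)) Q := by
    intro y
    rw [hR, MvPolynomial.aeval_rename]
    congr 2
    funext x
    rcases x with x | x <;> rfl
  refine ⟨fun j => Complex.log (ξ j), fun j => Complex.exp_log (hξ0 j), YJ k, Pool.Agent.Y929.A.t_irr k, fun j => hY₀ j,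
    fun y hy j => hvc z₀ x₀ h hz₀ h0 h1728 hx hF _ _ (hy j).1 (hy j).2, K, hKf,
    hKd.trans (Nat.mul_le_mul_right _ hLd), ?_⟩
  refine ⟨MvPolynomial.aeval (Sum.elim (fun i => (MvPolynomial.C (Sum.elim (Om C (jt z₀)) w i) :
    MvPolynomial (Fin k × Option (Fin 4)) ℂ)) MvPolynomial.X) R, deg_sub K _ _ hRd,
    fun s => coeff_sub K (Sum.elim (Om C (jt z₀)) w) (Wd C (jt z₀) w) (Wd_one _ _ w) (Wd_mem _ _ w) _ hRd s, ?_, ?_⟩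
  · rw [eval_sub, hRe]
    exact hQ00
  · refine ⟨fun a => a.2.elim 0 fun j => y₁ (a.1, j), fun i => hy₁ i, ?_⟩
    rw [eval_sub, hRe]
    exact hQy

/-- **almost all tuples** -/
theorem tup (hgal : S_GAL) (hsh : S_SHIFT) (hloc : S_LOC) (hvc : S_VC) {z₀ : ℂ} {x₀ : ℚ} (hz₀ : 0 < z₀.im)
    (h0 : jj z₀ ≠ 0) (h1728 : jj z₀ ≠ 1728) (hx : 1 / jj z₀ = x₀) :
    ∃ (ρ : ℝ) (B : ℕ), 0 < ρ ∧
      (∀ ξ : ℂ, (B : ℝ) < ‖ξ‖ → ∃ v : ℂ, ‖v - z₀‖ < ρ ∧ 0 < v.im ∧ 1 / jj v = 1 / jj z₀ + 1 / ξ) ∧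
      ∀ q k m d δ : ℕ, 1 ≤ m → ∃ c : ℝ, 0 < c ∧ ∃ C : ℝ, 0 ≤ C ∧ ∀ (w : Fin q → ℂ) (T : ℕ), 1 ≤ T →
        {ξ : ℂ | Sl.SInt m T ξ}.Finite ∧
        ({ξ : Fin k → ℂ | (∀ i, Sl.SInt m T (ξ i)) ∧ ((∃ i, ‖ξ i‖ ≤ B) ∨ ExcN z₀ ρ δ d w ξ)}.ncard : ℝ) ≤
          C * (T : ℝ) ^ (-c) * ({ξ : ℂ | Sl.SInt m T ξ}.ncard : ℝ) ^ k := by
  classical
  obtain ⟨ρ, B, h, T', A', C', hρ, hB1, hG, hex, hB⟩ := core hgal hsh hloc hvc hz₀ h0 h1728 hx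
  refine ⟨ρ, B, hρ, hex, fun q k m d δ hm => ?_⟩
  obtain ⟨c₁, hc₁, C₁, hC₁, h₁⟩ := tupT2s (nrh_of_gfam hG) hG.hsize k m (dd (q + 3) k δ * 2) (d * m ^ k)
    ((q + 9) ^ (dd (q + 3) k δ * 2))
  obtain ⟨C₂, hC₂, h₂⟩ := small_tuples m k B hB1
  obtain ⟨c₀, hc₀, hmany⟩ := Sl.many m hm
  refine ⟨min c₁ 1, lt_min hc₁ one_pos, (C₁ + C₂) / c₀ ^ k, by positivity, fun w T hT => ⟨Sl.sint_fin m T, ?_⟩⟩
  obtain ⟨hw1, hw2⟩ := Wd_rank C' (jt z₀) w (dd (q + 3) k δ * 2)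
  obtain ⟨hf, hn⟩ := h₁ (Wd C' (jt z₀) w ^ (dd (q + 3) k δ * 2)) hw1 hw2 T hT
  have h₂ := h₂ T hT
  set S₂ := (Fintype.piFinset fun _ : Fin k => Sl.NF m T).filter fun α => ∃ i, ‖α i‖ ≤ B with hS₂
  set S₁ := {α : Fin k → ℂ | (∀ i, Sl.AInt m T (α i)) ∧ ExcT h (dd (q + 3) k δ * 2) (d * m ^ k)
    (Wd C' (jt z₀) w ^ (dd (q + 3) k δ * 2)) α} with hS₁
  have hsub : {ξ : Fin k → ℂ | (∀ i, Sl.SInt m T (ξ i)) ∧ ((∃ i, ‖ξ i‖ ≤ B) ∨ ExcN z₀ ρ δ d w ξ)} ⊆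
      S₁ ∪ (S₂ : Set (Fin k → ℂ)) := by
    intro α hα
    obtain ⟨ha, he⟩ := hα
    have ha' : ∀ i, Sl.AInt m T (α i) := fun i => (ha i).aint
    by_cases hs : ∃ i, ‖α i‖ ≤ B
    · right
      rw [hS₂, Finset.mem_coe, Finset.mem_filter, Fintype.mem_piFinset]
      exact ⟨fun i => Sl.mem_NF.2 (ha' i), hs⟩
    · left
      have he' := he.resolve_left hs
      push Not at hs
      exact ⟨ha', hB q k m d δ w α (fun i => (aint_alg (ha' i)).1) (fun i => (aint_alg (ha' i)).2) hs he'⟩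
  have hfin : (S₁ ∪ (S₂ : Set (Fin k → ℂ))).Finite := hf.union S₂.finite_toSet
  have hT1 : (1 : ℝ) ≤ T := by exact_mod_cast hT
  have e1 : (T : ℝ) ^ (((k * Sl.Mm m : ℕ) : ℝ) - c₁) ≤ (T : ℝ) ^ (((k * Sl.Mm m : ℕ) : ℝ) - min c₁ 1) :=
    Real.rpow_le_rpow_of_exponent_le hT1 (by linarith [min_le_left c₁ 1])
  have e2 : (T : ℝ) ^ (((k * Sl.Mm m : ℕ) : ℝ) - 1) ≤ (T : ℝ) ^ (((k * Sl.Mm m : ℕ) : ℝ) - min c₁ 1) :=
    Real.rpow_le_rpow_of_exponent_le hT1 (by linarith [min_le_right c₁ 1])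
  have hmain : ({ξ : Fin k → ℂ | (∀ i, Sl.SInt m T (ξ i)) ∧ ((∃ i, ‖ξ i‖ ≤ B) ∨ ExcN z₀ ρ δ d w ξ)}.ncard : ℝ) ≤
      (C₁ + C₂) * (T : ℝ) ^ (((k * Sl.Mm m : ℕ) : ℝ) - min c₁ 1) := by
    calc ({ξ : Fin k → ℂ | (∀ i, Sl.SInt m T (ξ i)) ∧ ((∃ i, ‖ξ i‖ ≤ B) ∨ ExcN z₀ ρ δ d w ξ)}.ncard : ℝ)
        ≤ ((S₁ ∪ (S₂ : Set (Fin k → ℂ))).ncard : ℝ) := by exact_mod_cast Set.ncard_le_ncard hsub hfin
      _ ≤ (S₁.ncard : ℝ) + (S₂.card : ℝ) := by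
          have h3 := Set.ncard_union_le S₁ (S₂ : Set (Fin k → ℂ))
          rw [Set.ncard_coe_finset] at h3
          exact_mod_cast h3
      _ ≤ C₁ * (T : ℝ) ^ (((k * Sl.Mm m : ℕ) : ℝ) - c₁) + C₂ * (T : ℝ) ^ (((k * Sl.Mm m : ℕ) : ℝ) - 1) := add_le_add hn h₂
      _ ≤ C₁ * (T : ℝ) ^ (((k * Sl.Mm m : ℕ) : ℝ) - min c₁ 1) + C₂ * (T : ℝ) ^ (((k * Sl.Mm m : ℕ) : ℝ) - min c₁ 1) :=
          add_le_add (mul_le_mul_of_nonneg_left e1 hC₁) (mul_le_mul_of_nonneg_left e2 hC₂)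
      _ = _ := by ring
  exact hmain.trans (Sl.prop_bound hc₀ (by positivity) hT (hmany T hT))

end Pool.Agent.T2h17.MJ
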