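import Pool.Agent.Y119.HY.GalL
import Pool.Agent.Y737.J.Ode
import Pool.Agent.Y809.J.SD
import Pool.Agent.Y120.H.GS1

/-!
# Galochkin's condition for systems with unipotent monodromy at the origin, in terms of `itm`
-/

set_option autoImplicit false

open PowerSeries Pool.Agent.Y113 Pool.Agent.Y113.HGG

namespace Pool.Agent.T2h17.MJ

open Pool.Agent.Y120.GH (itm)
open Pool.Agent.Y119.HZ (ah_GP bd_exists)

section
variable {n : ℕ}

lemma itm_ah (T : Polynomial ℤ) (A : Fin n → Fin n → Polynomial ℤ) (s : ℕ) (i j : Fin n) :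
    (itm T A s i j).map (Int.castRingHom ℚ) =
      Polynomial.C (s.factorial : ℚ) * ah T (fun a b => A b a) s i j := by
  induction s generalizing i j with
  | zero =>
    rw [ah_zero, itm, Nat.factorial_zero, Nat.cast_one, map_one, one_mul]
    by_cases h : i = j
    · simp [h]
    · simp [h]
  | succ s ih =>
    have e1 : (Polynomial.C ((s + 1).factorial : ℚ) : Polynomial ℚ) * Polynomial.C (1 / ((s : ℚ) + 1)) =
        Polynomial.C (s.factorial : ℚ) := by
      rw [← map_mul, Nat.factorial_succ]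
      congr 1
      push_cast
      have : ((s : ℚ) + 1) ≠ 0 := by positivity
      field_simp
    rw [ah_succ, ← mul_assoc, e1, itm]
    rw [Polynomial.map_sub, Polynomial.map_add, Polynomial.map_mul, Polynomial.map_mul, Polynomial.map_mul,
      Polynomial.map_natCast, ← Polynomial.derivative_map, ← Polynomial.derivative_map, ih, Polynomial.map_sum]
    simp only [Polynomial.map_mul, ih]
    rw [Polynomial.derivative_C_mul, mul_add, mul_sub, Finset.mul_sum]
    have e2 : ((s : Polynomial ℚ)) = Polynomial.C (s : ℚ) := by simp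
    have e3 : ∀ l, Polynomial.C (s.factorial : ℚ) * ah T (fun a b => A b a) s i l *
        (A l j).map (Int.castRingHom ℚ) =
        Polynomial.C (s.factorial : ℚ) * (aq (fun a b => A b a) l j * ah T (fun a b => A b a) s i l) := by
      intro l
      unfold aq
      ring
    rw [Finset.sum_congr rfl fun l _ => e3 l, e2]
    unfold tq
    ring

/-- Galochkin's condition -/
theorem gal_of {N : Matrix (Fin n) (Fin n) ℚ} {H W : Matrix (Fin n) (Fin n) ℚ⟦X⟧} {T₁ : Polynomial ℤ}
    {A : Fin n → Fin n → Polynomial ℤ} (hN : N ^ n = 0) (hHW : H * W = 1)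
    (hode : ∀ i j, ps T₁ * (X * d⁄dX ℚ (H i j) + ∑ k, H i k * C (N k j)) = ∑ k, ps (A i k) * H k j)
    (hH : ∀ i j, SDc (H i j)) (hW : ∀ i j, SDc (W i j)) :
    ∃ C : ℝ, ∀ m, ∃ d : ℕ, 0 < d ∧ (d : ℝ) ≤ C ^ (m + 1) ∧ ∀ s ≤ m, ∀ i j, ∃ H : Polynomial ℤ,
      (d : Polynomial ℤ) * itm (Polynomial.X * T₁) A s i j = (s.factorial : Polynomial ℤ) * H := by
  obtain ⟨q, B, hB, hbd⟩ := bd_exists (fun o : Option (Fin n × Fin n) => o.elim (Polynomial.X * T₁) fun p => A p.1 p.2)
  have hT : Bd q B (Polynomial.X * T₁) := hbd none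
  have hA : ∀ i j, Bd q B (A i j) := fun i j => hbd (some (i, j))
  obtain ⟨C, hC, -, hg⟩ := Pool.Agent.Y119.HY.GP.unif
    (P := fun p : Fin n × Fin n => fun s => ah (Polynomial.X * T₁) (fun a b => A b a) s p.1 p.2)
    fun p => ah_GP hN hHW hode hH hW hB hT hA p.1 p.2
  refine ⟨C, fun m => ?_⟩
  obtain ⟨g, hg0, hgC, hgm⟩ := hg m
  refine ⟨g, hg0, hgC, fun s hs i j => ?_⟩
  obtain ⟨Q, hQ⟩ := hgm (i, j) s hs
  refine ⟨Q, ?_⟩
  apply Polynomial.map_injective (Int.castRingHom ℚ) (RingHom.injective_int _)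
  rw [Polynomial.map_mul, Polynomial.map_mul, Polynomial.map_natCast, Polynomial.map_natCast, hQ, itm_ah]
  have e1 : ((g : Polynomial ℚ)) = Polynomial.C (g : ℚ) := by simp
  have e2 : ((s.factorial : Polynomial ℚ)) = Polynomial.C (s.factorial : ℚ) := by simp
  rw [e1, e2]
  ring

end

end Pool.Agent.T2h17.MJ
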