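import Pool.Agent.Y916.Al.Ev

/-!
Values of power series near zero.
-/

set_option autoImplicit false

open PowerSeries Pool.Agent.Y916.Al

namespace Pool.Agent.T2h17.MJ

/-- values near zero -/
theorem ev_ne {f : ℚ⟦X⟧} (hf : constantCoeff f = 1) (hs : ∃ C : ℝ, ∀ m, |((coeff m f : ℚ) : ℝ)| ≤ C ^ (m + 1)) :
    ∃ ρ : ℝ, 0 < ρ ∧ ∀ t : ℂ, ‖t‖ < ρ → evc t f ≠ 0 := by
  obtain ⟨C₀, hC₀⟩ := hs
  set C : ℝ := max |C₀| 1 with hC
  have hC1 : 1 ≤ C := le_max_right _ _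
  have hb : ∀ m, |((coeff m f : ℚ) : ℝ)| ≤ C ^ (m + 1) := fun m => by
    refine (hC₀ m).trans ((le_abs_self _).trans ?_)
    rw [abs_pow]
    exact pow_le_pow_left₀ (abs_nonneg _) (le_max_left _ _) _
  have hCpos : 0 < C := by linarith
  refine ⟨1 / (4 * C ^ 2), by positivity, fun t ht => ?_⟩
  have ht' : ‖t‖ * (4 * C ^ 2) < 1 := by
    rwa [lt_div_iff₀ (by positivity)] at ht
  have hCt : C * ‖t‖ ≤ 1 / 4 := by
    have h1 : C * ‖t‖ * 4 ≤ ‖t‖ * (4 * C ^ 2) := by nlinarith [norm_nonneg t, mul_nonneg (norm_nonneg t) hCpos.le]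
    linarith
  have hCt0 : 0 ≤ C * ‖t‖ := by positivity
  have hterm : ∀ m : ℕ, ‖((coeff (m + 1) f : ℚ) : ℂ) * t ^ (m + 1)‖ ≤ 1 / 4 * (1 / 4) ^ m := by
    intro m
    rw [norm_mul, norm_pow]
    have h1 : ‖((coeff (m + 1) f : ℚ) : ℂ)‖ ≤ C ^ (m + 2) := by
      have h2 : ‖((coeff (m + 1) f : ℚ) : ℂ)‖ = |((coeff (m + 1) f : ℚ) : ℝ)| := by
        have h4 : ((coeff (m + 1) f : ℚ) : ℂ) = (((coeff (m + 1) f : ℚ) : ℝ) : ℂ) := by norm_num
        rw [h4, Complex.norm_real, Real.norm_eq_abs]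
      rw [h2]
      exact hb (m + 1)
    have h3 : (C * ‖t‖) ^ m ≤ (1 / 4) ^ m := pow_le_pow_left₀ hCt0 hCt m
    calc ‖((coeff (m + 1) f : ℚ) : ℂ)‖ * ‖t‖ ^ (m + 1) ≤ C ^ (m + 2) * ‖t‖ ^ (m + 1) :=
          mul_le_mul_of_nonneg_right h1 (by positivity)
      _ = (C ^ 2 * ‖t‖) * (C * ‖t‖) ^ m := by ring
      _ ≤ 1 / 4 * (1 / 4) ^ m := by
          refine mul_le_mul ?_ h3 (by positivity) (by norm_num)
          nlinarith
  have hgeo : Summable fun m : ℕ => (1 / 4 : ℝ) * (1 / 4) ^ m :=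
    (summable_geometric_of_lt_one (by norm_num) (by norm_num)).mul_left _
  have hsum1 : Summable fun m : ℕ => ((coeff (m + 1) f : ℚ) : ℂ) * t ^ (m + 1) :=
    Summable.of_norm_bounded hgeo hterm
  have hsum : Summable fun m : ℕ => ((coeff m f : ℚ) : ℂ) * t ^ m :=
    (summable_nat_add_iff (f := fun m : ℕ => ((coeff m f : ℚ) : ℂ) * t ^ m) 1).1 hsum1
  have h0 : evc t f = 1 + ∑' m : ℕ, ((coeff (m + 1) f : ℚ) : ℂ) * t ^ (m + 1) := by
    unfold evc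
    rw [hsum.tsum_eq_zero_add, pow_zero, mul_one, coeff_zero_eq_constantCoeff_apply, hf, Rat.cast_one]
  have h1 : ‖∑' m : ℕ, ((coeff (m + 1) f : ℚ) : ℂ) * t ^ (m + 1)‖ ≤ 1 / 3 := by
    refine (tsum_of_norm_bounded (hasSum_geometric_of_lt_one (by norm_num) (by norm_num) |>.mul_left (1 / 4 : ℝ))
      hterm).trans ?_
    norm_num
  intro h2
  rw [h0] at h2
  have h3 : (1 : ℂ) = -∑' m : ℕ, ((coeff (m + 1) f : ℚ) : ℂ) * t ^ (m + 1) := by linear_combination h2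
  have h4 := congrArg norm h3
  rw [norm_neg, norm_one] at h4
  linarith

end Pool.Agent.T2h17.MJ
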