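import Pool.Agent.Y120.J.Defs
import Pool.Agent.Y916.Af.Stm
import Pool.Agent.Y118.UL.Irr

/-!
The modular invariant near a point with rational invariant: statements.
-/

set_option autoImplicit false

open PowerSeries Filter Topology

namespace Pool.Agent.T2h17.MJ

open Pool.Agent.TH21.MS (jj)
open Pool.Agent.Y120.J (T1 Q1)
open Pool.Agent.Y120.GH (itm)
open Pool.Agent.Y916.Al (evc)
open Pool.Agent.Y916.Af (GFam Vc)

/-- `2 π i` -/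
noncomputable def tp : ℂ := 2 * Real.pi * Complex.I

/-- the denominator of the system for `(F, θ F)` in the variable `x = 1 / j` -/
noncomputable def TJ : Polynomial ℤ := Polynomial.X * T1

/-- the matrix of the system: `x T1 F' = T1 (θ F)`, `x T1 (θ F)' = Q1 F` -/
noncomputable def AJ : Fin 2 → Fin 2 → Polynomial ℤ := ![![0, T1], ![Q1, 0]]

/-- Galochkin's condition -/
def Gal {r : ℕ} (T : Polynomial ℤ) (A : Fin r → Fin r → Polynomial ℤ) : Prop :=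
  ∃ C : ℝ, ∀ m, ∃ d : ℕ, 0 < d ∧ (d : ℝ) ≤ C ^ (m + 1) ∧ ∀ s ≤ m, ∀ i j, ∃ H : Polynomial ℤ,
    (d : Polynomial ℤ) * itm T A s i j = (s.factorial : Polynomial ℤ) * H

/-- (GAL) Galochkin's condition for the equation of the modular invariant -/
def S_GAL : Prop := Gal TJ AJ

/-- the translation of an integral polynomial by a rational number, as a power series -/
noncomputable def shp (x₀ : ℚ) (P : Polynomial ℤ) : ℚ⟦X⟧ :=
  (((P.map (Int.castRingHom ℚ)).comp (Polynomial.X + Polynomial.C x₀) : Polynomial ℚ) : ℚ⟦X⟧)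

/-- the fundamental matrix `(h₀, h₁; h₂, h₃)` of the system at `x₀`, normalised to the identity at `x₀` -/
structure Fund (T : Polynomial ℤ) (A : Fin 2 → Fin 2 → Polynomial ℤ) (x₀ : ℚ) (h : Fin 4 → ℚ⟦X⟧) : Prop where
  c0 : constantCoeff (h 0) = 1
  c1 : constantCoeff (h 1) = 0
  c2 : constantCoeff (h 2) = 0
  c3 : constantCoeff (h 3) = 1
  e0 : shp x₀ T * d⁄dX ℚ (h 0) = shp x₀ (A 0 0) * h 0 + shp x₀ (A 0 1) * h 2
  e1 : shp x₀ T * d⁄dX ℚ (h 1) = shp x₀ (A 0 0) * h 1 + shp x₀ (A 0 1) * h 3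
  e2 : shp x₀ T * d⁄dX ℚ (h 2) = shp x₀ (A 1 0) * h 0 + shp x₀ (A 1 1) * h 2
  e3 : shp x₀ T * d⁄dX ℚ (h 3) = shp x₀ (A 1 0) * h 1 + shp x₀ (A 1 1) * h 3
  size : ∃ C : ℝ, ∀ i m, |((coeff m (h i) : ℚ) : ℝ)| ≤ C ^ (m + 1)

/-- (SHIFT) the fundamental matrix at an ordinary rational point consists of G-functions -/
def S_SHIFT : Prop := ∀ (T : Polynomial ℤ) (A : Fin 2 → Fin 2 → Polynomial ℤ), Gal T A → ∀ x₀ : ℚ,
  Polynomial.aeval x₀ T ≠ 0 → ∃ (h : Fin 4 → ℚ⟦X⟧) (T' : Polynomial ℤ) (A' : Fin 4 → Fin 4 → Polynomial ℤ),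
    GFam T' A' h ∧ Fund T A x₀ h

/-- (IND) the functions `j, z, j', j''` are algebraically independent near any point -/
def S_IND : Prop := ∀ z₀ : ℂ, 0 < z₀.im → ∀ Q : MvPolynomial (Fin 4) ℂ,
  (∀ᶠ z in 𝓝 z₀, MvPolynomial.eval ![jj z, z, deriv jj z, deriv (deriv jj) z] Q = 0) → Q = 0

/-- (DER) the derivative of `j` vanishes only at the elliptic points -/
def S_DER : Prop := ∀ z : ℂ, 0 < z.im → jj z ≠ 0 → jj z ≠ 1728 → deriv jj z ≠ 0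

/-- (ODE) the differential equation of third order of `j`: with `φ = - j' / (2 π i j)` and
`σ = - (j / j') φ' / (2 φ)` (so that `σ = θ f / f` for `f² = φ`, `θ = - (j / j') d/dz`) the function `σ` satisfies
`θ σ + σ² = q (1 / j)` with `q = X (82944 X - 372) / (1 - 1728 X)²` -/
def S_ODE : Prop := ∀ z : ℂ, 0 < z.im → jj z ≠ 0 → jj z ≠ 1728 → ∀ (φ σ : ℂ → ℂ),
  (∀ w, φ w = -deriv jj w / (tp * jj w)) → (∀ w, σ w = -(jj w / deriv jj w) * (deriv φ w / (2 * φ w))) →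
  -(jj z / deriv jj z) * deriv σ z + σ z ^ 2 =
    (1 / jj z) * (82944 * (1 / jj z) - 372) / (1 - 1728 * (1 / jj z)) ^ 2

/-- the matrix of the values -/
noncomputable def pm (h : Fin 4 → ℚ⟦X⟧) (C : Matrix (Fin 2) (Fin 2) ℂ) (t : ℂ) : Matrix (Fin 2) (Fin 2) ℂ :=
  !![evc t (h 0), evc t (h 1); evc t (h 2), evc t (h 3)] * C

/-- (LOC) the values `z, j'(z), j''(z)` near a point `z₀` with rational invariant in terms of the fundamental matrix -/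
def S_LOC : Prop := ∀ (z₀ : ℂ) (x₀ : ℚ) (h : Fin 4 → ℚ⟦X⟧), 0 < z₀.im → jj z₀ ≠ 0 → jj z₀ ≠ 1728 →
  1 / jj z₀ = x₀ → Fund TJ AJ x₀ h →
  ∃ C : Matrix (Fin 2) (Fin 2) ℂ, C.det = 1 ∧
    (∀ i j, IsAlgebraic (Algebra.adjoin ℚ ({tp, z₀, deriv jj z₀, deriv (deriv jj) z₀} : Set ℂ)) (C i j)) ∧
    ∃ ρ : ℝ, 0 < ρ ∧ ∀ z : ℂ, ‖z - z₀‖ < ρ → 0 < z.im ∧ jj z ≠ 0 ∧ deriv jj z ≠ 0 ∧
      pm h C (1 / jj z - x₀) 0 0 ≠ 0 ∧
      z * (tp * pm h C (1 / jj z - x₀) 0 0) = pm h C (1 / jj z - x₀) 0 1 ∧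
      deriv jj z = -tp * jj z * pm h C (1 / jj z - x₀) 0 0 ^ 2 ∧
      deriv (deriv jj) z = tp ^ 2 * jj z * (pm h C (1 / jj z - x₀) 0 0 ^ 4 -
        2 * pm h C (1 / jj z - x₀) 0 0 ^ 3 * pm h C (1 / jj z - x₀) 1 0) ∧
      (pm h C (1 / jj z - x₀)).det = 1

/-- (VC) all functional relations between the entries of the fundamental matrix are consequences of `det = 1` -/
def S_VC : Prop := ∀ (z₀ : ℂ) (x₀ : ℚ) (h : Fin 4 → ℚ⟦X⟧), 0 < z₀.im → jj z₀ ≠ 0 → jj z₀ ≠ 1728 →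
  1 / jj z₀ = x₀ → Fund TJ AJ x₀ h → ∀ (x : ℂ) (y : Fin 4 → ℂ), y 0 ≠ 0 → y 0 * y 3 - y 2 * y 1 = 1 → y ∈ Vc h x

/-- the matrix of a point of the quadric -/
noncomputable def ym (C : Matrix (Fin 2) (Fin 2) ℂ) (y : Fin 4 → ℂ) : Matrix (Fin 2) (Fin 2) ℂ :=
  !![y 0, y 1; y 2, y 3] * C

/-- the triple `z, j', j''` of a matrix, `α = j(z)` -/
noncomputable def tri (α : ℂ) (M : Matrix (Fin 2) (Fin 2) ℂ) : Fin 3 → ℂ :=
  ![M 0 1 / (tp * M 0 0), -tp * α * M 0 0 ^ 2, tp ^ 2 * α * (M 0 0 ^ 4 - 2 * M 0 0 ^ 3 * M 1 0)]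

/-- (INC) the transformation of relations: `Q` is `P` times the denominators -/
def S_INC : Prop := ∀ q k δ : ℕ, ∃ δ' : ℕ, ∀ (K : IntermediateField ℚ ℂ) (α : Fin k → ℂ), (∀ i, α i ∈ K) →
  ∀ P : MvPolynomial (Option (Fin q) ⊕ Fin k × Fin 3) K, P.totalDegree ≤ δ →
  ∃ Q : MvPolynomial ((Option (Fin q) ⊕ Fin 2 × Fin 2) ⊕ Fin k × Option (Fin 4)) K, Q.totalDegree ≤ δ' ∧
    ∀ (w : Fin q → ℂ) (C : Matrix (Fin 2) (Fin 2) ℂ) (y : Fin k × Option (Fin 4) → ℂ),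
      (∀ i, ym C (fun l => y (i, some l)) 0 0 ≠ 0) →
      MvPolynomial.aeval (Sum.elim (Sum.elim (fun o => o.elim tp w) fun a => C a.1 a.2) y) Q =
        (∏ i, (tp * ym C (fun l => y (i, some l)) 0 0) ^ δ) *
          MvPolynomial.aeval (Sum.elim (fun o => o.elim tp w)
            fun v : Fin k × Fin 3 => tri (α v.1) (ym C fun l => y (v.1, some l)) v.2) P

/-- (DENSE) a polynomial which vanishes at all triples vanishes identically -/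
def S_DENSE : Prop := ∀ (k : ℕ) (α : Fin k → ℂ) (C : Matrix (Fin 2) (Fin 2) ℂ), (∀ i, α i ≠ 0) → C.det = 1 →
  ∀ P : MvPolynomial (Fin k × Fin 3) ℂ,
  (∀ y : Fin k → Fin 4 → ℂ, (∀ i, y i 0 ≠ 0 ∧ y i 0 * y i 3 - y i 2 * y i 1 = 1 ∧ ym C (y i) 0 0 ≠ 0) →
    MvPolynomial.eval (fun v : Fin k × Fin 3 => tri (α v.1) (ym C (y v.1)) v.2) P = 0) → P = 0

end Pool.Agent.T2h17.MJ
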