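import Pool.Agent.Y120.A.Inc
import Pool.Agent.Y929.A.Irr
import Pool.Agent.T2h17.MJ.Stm

/-!
Relations between the numbers of points near `z₀` as relations between the values of the fundamental matrix.
-/

set_option autoImplicit false
set_option maxHeartbeats 400000

open PowerSeries Module Pool.Agent.Y120.J Pool.Agent.Y120.K Pool.Agent.Y120.A
open Pool.Agent.TH21.MS (jj)
open Pool.Agent.Y118.UL (Irr)
open Pool.Agent.Y916.Af (coeff_sub deg_sub eval_sub)

namespace Pool.Agent.T2h17.MJ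

/-- the product of the quadrics -/
def Y4 (k : ℕ) : Set (Fin k × Fin 4 → ℂ) := {y | ∀ i, (fun j => y (i, j)) ∈ Q4}

theorem irr_Y4 (k : ℕ) : Irr (Y4 k) := by
  intro P Q h
  let e : Fin k × Fin 4 → Fin k × Option (Fin 4) := fun a => (a.1, some a.2)
  rcases Pool.Agent.Y929.A.t_irr k (MvPolynomial.rename e P) (MvPolynomial.rename e Q) (fun y hy => by
     rw [MvPolynomial.eval_rename, MvPolynomial.eval_rename]
     exact h (y ∘ e) (fun i => hy i)) with h1 | h1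
  · left
    intro y hy
    have h2 := h1 (fun a => a.2.elim 0 fun j => y (a.1, j)) (fun i => hy i)
    rwa [MvPolynomial.eval_rename] at h2
  · right
    intro y hy
    have h2 := h1 (fun a => a.2.elim 0 fun j => y (a.1, j)) (fun i => hy i)
    rwa [MvPolynomial.eval_rename] at h2

/-- the degree of a substitution -/
theorem deg_aeval {σ τ K : Type} [Field K] {f : σ → MvPolynomial τ K} {D δ : ℕ} (hf : ∀ v, (f v).totalDegree ≤ D)
    {P : MvPolynomial σ K} (hP : P.totalDegree ≤ δ) : (MvPolynomial.aeval f P).totalDegree ≤ δ * D := by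
  rw [MvPolynomial.aeval_def, MvPolynomial.eval₂_eq]
  refine MvPolynomial.totalDegree_finsetSum_le fun m hm => ?_
  refine (MvPolynomial.totalDegree_mul _ _).trans ?_
  have h1 : ((algebraMap K (MvPolynomial τ K)) (P.coeff m)).totalDegree = 0 := MvPolynomial.totalDegree_C _
  rw [h1, zero_add]
  refine (MvPolynomial.totalDegree_finsetProd _ _).trans ?_
  refine (Finset.sum_le_sum fun i _ => (MvPolynomial.totalDegree_pow _ _).trans
    (Nat.mul_le_mul_left _ (hf i))).trans ?_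
  rw [← Finset.sum_mul]
  refine Nat.mul_le_mul_right _ (le_trans ?_ hP)
  exact MvPolynomial.le_totalDegree hm

/-- the index type of the variables -/
abbrev VQ (q k : ℕ) : Type := (Fin 8 ⊕ Fin q) ⊕ Fin k × Fin 4

section
variable {q k : ℕ} (K : IntermediateField ℚ ℂ)

/-- the constants as variables -/
noncomputable def cq (a : Fin 8) : MvPolynomial (VQ q k) K := MvPolynomial.X (Sum.inl (Sum.inl a))

/-- the values as variables -/
noncomputable def yq (i : Fin k) (l : Fin 4) : MvPolynomial (VQ q k) K := MvPolynomial.X (Sum.inr (i, l))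

/-- the entries of the product matrix -/
noncomputable def mq (i : Fin k) : Fin 4 → MvPolynomial (VQ q k) K :=
  ![yq K i 0 * cq K 1 + yq K i 1 * cq K 3, yq K i 0 * cq K 2 + yq K i 1 * cq K 4,
    yq K i 2 * cq K 1 + yq K i 3 * cq K 3, yq K i 2 * cq K 2 + yq K i 3 * cq K 4]

/-- the substitution -/
noncomputable def sg : Vv (q + 3) k → MvPolynomial (VQ q k) K
  | Sum.inl none => cq K 0
  | Sum.inl (some i) => Fin.addCases (m := q) (n := 3) (motive := fun _ => MvPolynomial (VQ q k) K)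
      (fun i => MvPolynomial.X (Sum.inl (Sum.inr i))) (fun j => cq K (Fin.natAdd 5 j)) i
  | Sum.inr (_, none) => 0
  | Sum.inr (i, some j) => mq K i j

/-- the constants -/
noncomputable def Om (C : Matrix (Fin 2) (Fin 2) ℂ) (nz : Fin 3 → ℂ) : Fin 8 → ℂ :=
  ![tp, C 0 0, C 0 1, C 1 0, C 1 1, nz 0, nz 1, nz 2]

/-- the values after the substitution -/
noncomputable def yhat (C : Matrix (Fin 2) (Fin 2) ℂ) (y : Fin k × Fin 4 → ℂ) : Fin k × Option (Fin 4) → ℂ :=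
  fun a => a.2.elim 0 ![ym C (fun l => y (a.1, l)) 0 0, ym C (fun l => y (a.1, l)) 0 1,
    ym C (fun l => y (a.1, l)) 1 0, ym C (fun l => y (a.1, l)) 1 1]

variable {K}

theorem cq_deg (a : Fin 8) : (cq (q := q) (k := k) K a).totalDegree ≤ 1 := dX _

theorem yq_deg (i : Fin k) (l : Fin 4) : (yq (q := q) K i l).totalDegree ≤ 1 := dX _

theorem mq_deg (i : Fin k) (l : Fin 4) : (mq (q := q) K i l).totalDegree ≤ 2 := by
  fin_cases l <;>
    exact dadd (dmul (a := 1) (b := 1) (yq_deg _ _) (cq_deg _)) (dmul (a := 1) (b := 1) (yq_deg _ _) (cq_deg _))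

theorem sg_deg (v : Vv (q + 3) k) : (sg K v).totalDegree ≤ 2 := by
  rcases v with (_ | i) | ⟨i, _ | j⟩
  · exact (cq_deg 0).trans (by norm_num)
  · show (Fin.addCases (m := q) (n := 3) (motive := fun _ => MvPolynomial (VQ q k) K) _ _ i).totalDegree ≤ 2
    refine Fin.addCases (fun i => ?_) (fun j => ?_) i
    · rw [Fin.addCases_left]
      exact (dX _).trans (by norm_num)
    · rw [Fin.addCases_right]
      exact (cq_deg _).trans (by norm_num)
  · show (0 : MvPolynomial (VQ q k) K).totalDegree ≤ 2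
    rw [MvPolynomial.totalDegree_zero]
    norm_num
  · exact mq_deg i j

theorem ym_apply (C : Matrix (Fin 2) (Fin 2) ℂ) (y : Fin 4 → ℂ) :
    ym C y 0 0 = y 0 * C 0 0 + y 1 * C 1 0 ∧ ym C y 0 1 = y 0 * C 0 1 + y 1 * C 1 1 ∧
    ym C y 1 0 = y 2 * C 0 0 + y 3 * C 1 0 ∧ ym C y 1 1 = y 2 * C 0 1 + y 3 * C 1 1 := by
  refine ⟨?_, ?_, ?_, ?_⟩ <;>
    · unfold ym
      rw [Matrix.mul_apply, Fin.sum_univ_two]
      rfl

theorem sg_eval (C : Matrix (Fin 2) (Fin 2) ℂ) (nz : Fin 3 → ℂ) (w : Fin q → ℂ) (y : Fin k × Fin 4 → ℂ)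
    (v : Vv (q + 3) k) : MvPolynomial.aeval (Sum.elim (Sum.elim (Om C nz) w) y) (sg K v) =
      Sum.elim (wo (Fin.append w nz)) (yhat C y) v := by
  rcases v with (_ | i) | ⟨i, _ | j⟩
  · show MvPolynomial.aeval (Sum.elim (Sum.elim (Om C nz) w) y) (MvPolynomial.X _ : MvPolynomial (VQ q k) K) = _
    rw [MvPolynomial.aeval_X]
    rfl
  · show MvPolynomial.aeval (Sum.elim (Sum.elim (Om C nz) w) y) (Fin.addCases (m := q) (n := 3)
      (motive := fun _ => MvPolynomial (VQ q k) K) _ _ i) = Fin.append w nz i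
    refine Fin.addCases (fun i => ?_) (fun j => ?_) i
    · rw [Fin.addCases_left, Fin.append_left, MvPolynomial.aeval_X]
      rfl
    · rw [Fin.addCases_right, Fin.append_right]
      show MvPolynomial.aeval (Sum.elim (Sum.elim (Om C nz) w) y) (MvPolynomial.X _ : MvPolynomial (VQ q k) K) = _
      rw [MvPolynomial.aeval_X]
      fin_cases j <;> rfl
  · show MvPolynomial.aeval (Sum.elim (Sum.elim (Om C nz) w) y) (0 : MvPolynomial (VQ q k) K) = _
    rw [map_zero]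
    rfl
  · obtain ⟨h0, h1, h2, h3⟩ := ym_apply C fun l => y (i, l)
    have hc : ∀ a, MvPolynomial.aeval (Sum.elim (Sum.elim (Om C nz) w) y) (cq (q := q) (k := k) K a) = Om C nz a :=
      fun a => by
        unfold cq
        rw [MvPolynomial.aeval_X]
        rfl
    have hy : ∀ l, MvPolynomial.aeval (Sum.elim (Sum.elim (Om C nz) w) y) (yq (q := q) K i l) = y (i, l) :=
      fun l => by
        unfold yq
        rw [MvPolynomial.aeval_X]
        rfl
    fin_cases j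
    · show MvPolynomial.aeval _ (yq K i 0 * cq K 1 + yq K i 1 * cq K 3) = ym C (fun l => y (i, l)) 0 0
      rw [h0, map_add, map_mul, map_mul, hc, hc, hy, hy]
      rfl
    · show MvPolynomial.aeval _ (yq K i 0 * cq K 2 + yq K i 1 * cq K 4) = ym C (fun l => y (i, l)) 0 1
      rw [h1, map_add, map_mul, map_mul, hc, hc, hy, hy]
      rfl
    · show MvPolynomial.aeval _ (yq K i 2 * cq K 1 + yq K i 3 * cq K 3) = ym C (fun l => y (i, l)) 1 0
      rw [h2, map_add, map_mul, map_mul, hc, hc, hy, hy]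
      rfl
    · show MvPolynomial.aeval _ (yq K i 2 * cq K 2 + yq K i 3 * cq K 4) = ym C (fun l => y (i, l)) 1 1
      rw [h3, map_add, map_mul, map_mul, hc, hc, hy, hy]
      rfl

theorem sub_eval (C : Matrix (Fin 2) (Fin 2) ℂ) (nz : Fin 3 → ℂ) (w : Fin q → ℂ) (y : Fin k × Fin 4 → ℂ)
    (Q : MvPolynomial (Vv (q + 3) k) K) :
    MvPolynomial.aeval (Sum.elim (Sum.elim (Om C nz) w) y) (MvPolynomial.aeval (sg K) Q) =
      MvPolynomial.aeval (Sum.elim (wo (Fin.append w nz)) (yhat C y)) Q := by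
  have h1 := MvPolynomial.comp_aeval_apply (sg (q := q) (k := k) K)
    (MvPolynomial.aeval (Sum.elim (Sum.elim (Om C nz) w) y)) Q
  rw [h1]
  congr 2
  funext v
  exact sg_eval C nz w y v

end

/-- a point where a polynomial and some linear forms do not vanish -/
theorem dense3 {k : ℕ} {p : MvPolynomial (Fin k × Fin 3) ℂ} (hp : p ≠ 0) {a c a' c' : Fin k → ℂ}
    (hac : ∀ j, a j ≠ 0 ∨ c j ≠ 0) (hac' : ∀ j, a' j ≠ 0 ∨ c' j ≠ 0) :
    ∃ u : Fin k × Fin 3 → ℂ, (∀ j, u (j, 1) ≠ 0 ∧ a j - c j * u (j, 0) ≠ 0 ∧ a' j - c' j * u (j, 0) ≠ 0) ∧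
      MvPolynomial.eval u p ≠ 0 := by
  classical
  have hlin : ∀ (a c : ℂ) (i : Fin k × Fin 3), (a ≠ 0 ∨ c ≠ 0) →
      (MvPolynomial.C a - MvPolynomial.C c * MvPolynomial.X i : MvPolynomial (Fin k × Fin 3) ℂ) ≠ 0 := by
    intro a c i hac h0
    have h1 := congrArg (MvPolynomial.eval fun _ => (0 : ℂ)) h0
    have h2 := congrArg (MvPolynomial.eval fun _ => (1 : ℂ)) h0
    simp only [map_sub, map_mul, MvPolynomial.eval_C, MvPolynomial.eval_X, map_zero, mul_zero, sub_zero, mul_one] at h1 h2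
    rw [h1] at h2
    rcases hac with h | h
    · exact h h1
    · exact h (by linear_combination -h2)
  set q : MvPolynomial (Fin k × Fin 3) ℂ := ∏ j, (MvPolynomial.X (j, 1) *
    ((MvPolynomial.C (a j) - MvPolynomial.C (c j) * MvPolynomial.X (j, 0)) *
      (MvPolynomial.C (a' j) - MvPolynomial.C (c' j) * MvPolynomial.X (j, 0)))) with hq
  have hq0 : q ≠ 0 := by
    rw [hq, Finset.prod_ne_zero_iff]
    intro j _
    exact mul_ne_zero (MvPolynomial.X_ne_zero _) (mul_ne_zero (hlin _ _ _ (hac j)) (hlin _ _ _ (hac' j)))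
  have hpq : p * q ≠ 0 := mul_ne_zero hp hq0
  by_contra hcon
  push Not at hcon
  apply hpq
  refine MvPolynomial.funext fun u => ?_
  rw [map_mul, map_zero]
  by_cases hu : ∀ j, u (j, 1) ≠ 0 ∧ a j - c j * u (j, 0) ≠ 0 ∧ a' j - c' j * u (j, 0) ≠ 0
  · rw [hcon u hu, zero_mul]
  · push Not at hu
    obtain ⟨j, hj⟩ := hu
    refine mul_eq_zero_of_right _ ?_
    rw [hq, map_prod]
    refine Finset.prod_eq_zero (Finset.mem_univ j) ?_
    simp only [map_sub, map_mul, MvPolynomial.eval_C, MvPolynomial.eval_X]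
    by_cases h6 : u (j, 1) = 0
    · rw [h6, zero_mul]
    · by_cases h7 : a j - c j * u (j, 0) = 0
      · rw [h7, zero_mul, mul_zero]
      · rw [hj h6 h7, mul_zero, mul_zero]

/-- all values of the period functions are taken on the quadric -/
theorem exists_y {C : Matrix (Fin 2) (Fin 2) ℂ} (hC : C.det = 1) {Z : Fin 3 → ℂ} (hZ : Z 0 ≠ 0)
    (hL : Z 0 * C 1 1 - tp * Z 1 * C 1 0 ≠ 0) : ∃ y : Fin 4 → ℂ, y ∈ Q4 ∧
      tp * ym C y 0 0 ^ 2 = Z 0 ∧ ym C y 0 0 * ym C y 0 1 = Z 1 ∧ tp * (ym C y 0 0 * ym C y 1 0) = Z 2 := by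
  have ht : tp ≠ 0 := Pool.Agent.Y120.K.tpi_ne
  obtain ⟨r, hr⟩ := IsAlgClosed.exists_pow_nat_eq (Z 0 / tp) (show 0 < 2 by norm_num)
  have hr0 : r ≠ 0 := by
    intro h
    rw [h] at hr
    have h1 : Z 0 / tp ≠ 0 := div_ne_zero hZ ht
    exact h1 (by rw [← hr]; ring)
  have hr' : tp * r ^ 2 = Z 0 := by
    rw [hr]
    field_simp
  obtain ⟨m1, hm1⟩ : ∃ m1 : ℂ, m1 = Z 1 / r := ⟨_, rfl⟩
  obtain ⟨m2, hm2⟩ : ∃ m2 : ℂ, m2 = Z 2 / (tp * r) := ⟨_, rfl⟩
  obtain ⟨m3, hm3⟩ : ∃ m3 : ℂ, m3 = (1 + m1 * m2) / r := ⟨_, rfl⟩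
  rw [Matrix.det_fin_two] at hC
  set y : Fin 4 → ℂ := ![r * C 1 1 - m1 * C 1 0, m1 * C 0 0 - r * C 0 1, m2 * C 1 1 - m3 * C 1 0,
    m3 * C 0 0 - m2 * C 0 1] with hy
  have hy0 : y 0 = r * C 1 1 - m1 * C 1 0 := rfl
  have hy1 : y 1 = m1 * C 0 0 - r * C 0 1 := rfl
  have hy2 : y 2 = m2 * C 1 1 - m3 * C 1 0 := rfl
  have hy3 : y 3 = m3 * C 0 0 - m2 * C 0 1 := rfl
  obtain ⟨h0, h1, h2, h3⟩ := ym_apply C y
  rw [hy0, hy1] at h0 h1
  rw [hy2, hy3] at h2 h3
  have e0 : ym C y 0 0 = r := by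
    rw [h0]
    linear_combination r * hC
  have e1 : ym C y 0 1 = m1 := by
    rw [h1]
    linear_combination m1 * hC
  have e2 : ym C y 1 0 = m2 := by
    rw [h2]
    linear_combination m2 * hC
  have hm1' : r * m1 = Z 1 := by
    rw [hm1]
    field_simp
  refine ⟨y, ⟨?_, ?_⟩, ?_, ?_, ?_⟩
  · intro h4
    rw [hy0] at h4
    apply hL
    rw [← hr', ← hm1']
    linear_combination tp * r * h4
  · show y 0 * y 3 - y 2 * y 1 = 1
    rw [hy0, hy1, hy2, hy3]
    have h5 : r * m3 = 1 + m1 * m2 := by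
      rw [hm3]
      field_simp
    linear_combination (r * m3 - m1 * m2) * hC + h5
  · rw [e0, hr']
  · rw [e0, e1, hm1']
  · rw [e0, e2, hm2]
    field_simp

/-- the transformation of a relation -/
theorem rel {q k δ : ℕ} (w : Fin q → ℂ) (nz : Fin 3 → ℂ) {C : Matrix (Fin 2) (Fin 2) ℂ} (hC : C.det = 1)
    {α : Fin k → ℂ} (hα0 : ∀ i, α i ≠ 0) {v : Fin k → UpperHalfPlane} {y₀ : Fin k × Fin 4 → ℂ}
    (h00 : ∀ i, ym C (fun l => y₀ (i, l)) 0 0 ≠ 0)
    (hv : ∀ i, (v i : ℂ) * (tp * ym C (fun l => y₀ (i, l)) 0 0) = ym C (fun l => y₀ (i, l)) 0 1)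
    (hd1 : ∀ i, deriv jj (v i) = -tp * α i * ym C (fun l => y₀ (i, l)) 0 0 ^ 2)
    (hd2 : ∀ i, deriv (deriv jj) (v i) = tp ^ 2 * α i * (ym C (fun l => y₀ (i, l)) 0 0 ^ 4 -
      2 * ym C (fun l => y₀ (i, l)) 0 0 ^ 3 * ym C (fun l => y₀ (i, l)) 1 0))
    (γ : Fin k → Matrix.SpecialLinearGroup (Fin 2) ℤ) {z : Fin k → UpperHalfPlane} (hz : ∀ i, z i = γ i • v i)
    (K : IntermediateField ℚ ℂ) (hα : ∀ i, α i ∈ K) (P : MvPolynomial (Option (Fin (q + 3)) ⊕ Fin k × Fin 3) K)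
    (hP : P.totalDegree ≤ δ) : ∃ Q : MvPolynomial (VQ q k) K, Q.totalDegree ≤ dd (q + 3) k δ * 2 ∧
      (MvPolynomial.aeval (Sum.elim (wo (Fin.append w nz)) fun v : Fin k × Fin 3 => jt (z v.1) v.2) P = 0 →
        MvPolynomial.aeval (Sum.elim (Sum.elim (Om C nz) w) y₀) Q = 0) ∧
      ((∃ u, MvPolynomial.aeval (Sum.elim (wo (Fin.append w nz)) u) P ≠ 0) →
        ∃ y ∈ Y4 k, MvPolynomial.aeval (Sum.elim (Sum.elim (Om C nz) w) y) Q ≠ 0) := by
  classical
  have ht : tp ≠ 0 := Pool.Agent.Y120.K.tpi_ne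
  set w' : Fin (q + 3) → ℂ := Fin.append w nz with hw'
  set α' : Fin k → K := fun i => ⟨α i, hα i⟩ with hα'
  have hZw : ∀ (y : Fin k × Fin 4 → ℂ) (i : Fin k), Zw (fun o => yhat C y (i, o)) =
      ![tp * ym C (fun l => y (i, l)) 0 0 ^ 2, ym C (fun l => y (i, l)) 0 0 * ym C (fun l => y (i, l)) 0 1,
        tp * (ym C (fun l => y (i, l)) 0 0 * ym C (fun l => y (i, l)) 1 0)] := by
    intro y i
    funext j
    fin_cases j
    · rfl
    · show ym C (fun l => y (i, l)) 0 0 * (ym C (fun l => y (i, l)) 0 1 - 0 * ym C (fun l => y (i, l)) 0 0) =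
        ym C (fun l => y (i, l)) 0 0 * ym C (fun l => y (i, l)) 0 1
      rw [zero_mul, sub_zero]
    · rfl
  have hpts := fun i => ptsC (Z := Zw (fun o => yhat C y₀ (i, o))) (w := v i) (t := α i) (by
    rw [hZw y₀ i]
    exact mul_ne_zero ht (pow_ne_zero 2 (h00 i))) (by
    rw [hZw y₀ i]
    show (v i : ℂ) * (tp * ym C (fun l => y₀ (i, l)) 0 0 ^ 2) =
      ym C (fun l => y₀ (i, l)) 0 0 * ym C (fun l => y₀ (i, l)) 0 1
    rw [← hv i]
    ring) (by
    rw [hZw y₀ i]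
    show deriv jj (v i) = -α i * (tp * ym C (fun l => y₀ (i, l)) 0 0 ^ 2)
    rw [hd1 i]
    ring) (by
    rw [hZw y₀ i]
    show deriv (deriv jj) (v i) = α i * ((tp * ym C (fun l => y₀ (i, l)) 0 0 ^ 2) ^ 2 -
      2 * (tp * ym C (fun l => y₀ (i, l)) 0 0 ^ 2) * (tp * (ym C (fun l => y₀ (i, l)) 0 0 * ym C (fun l => y₀ (i, l)) 1 0)))
    rw [hd2 i]
    ring) (γ i) (hz i)
  refine ⟨MvPolynomial.aeval (sg K) (Pt δ α' γ P), deg_aeval sg_deg (Pt_deg hP), fun hP0 => ?_, fun hu => ?_⟩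
  · have h1 := Pt_eval (α := α') (γ := γ) hP w' (yhat C y₀) (fun v : Fin k × Fin 3 => jt (z v.1) v.2)
      (fun b => (hpts b.1).1 b.2) (fun b => (hpts b.1).2 b.2)
    rw [sub_eval]
    exact h1.2 hP0
  · obtain ⟨u₁, hu₁⟩ := hu
    set p : MvPolynomial (Fin k × Fin 3) ℂ := MvPolynomial.aeval (Sum.elim (fun i => (MvPolynomial.C (wo w' i) :
      MvPolynomial (Fin k × Fin 3) ℂ)) MvPolynomial.X) P with hp
    have hpe : ∀ u, MvPolynomial.eval u p = MvPolynomial.aeval (Sum.elim (wo w') u) P := by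
      intro u
      rw [← eval_sub K (wo w') P u, ← hp]
      rfl
    have hp0 : p ≠ 0 := by
      intro h0
      apply hu₁
      rw [← hpe, h0, map_zero]
    have hdet : ∀ j, (γ j 0 0 : ℤ) * γ j 1 1 - γ j 0 1 * γ j 1 0 = 1 := by
      intro j
      have h1 := (γ j).det_coe
      rw [Matrix.det_fin_two] at h1
      exact h1
    obtain ⟨ga, hga⟩ : ∃ f : Fin k → ℂ, ∀ j, f j = ((γ j 0 0 : ℤ) : ℂ) := ⟨_, fun _ => rfl⟩
    obtain ⟨gb, hgb⟩ : ∃ f : Fin k → ℂ, ∀ j, f j = ((γ j 0 1 : ℤ) : ℂ) := ⟨_, fun _ => rfl⟩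
    obtain ⟨gc, hgc⟩ : ∃ f : Fin k → ℂ, ∀ j, f j = ((γ j 1 0 : ℤ) : ℂ) := ⟨_, fun _ => rfl⟩
    obtain ⟨gd, hgd⟩ : ∃ f : Fin k → ℂ, ∀ j, f j = ((γ j 1 1 : ℤ) : ℂ) := ⟨_, fun _ => rfl⟩
    have hdetC : ∀ j, ga j * gd j - gb j * gc j = 1 := fun j => by
      rw [hga, hgb, hgc, hgd]
      exact_mod_cast hdet j
    have hCd : C 0 0 * C 1 1 - C 0 1 * C 1 0 = 1 := by
      rw [← Matrix.det_fin_two]
      exact hC
    obtain ⟨a', ha'⟩ : ∃ f : Fin k → ℂ, ∀ j, f j = C 1 1 * ga j + tp * C 1 0 * gb j := ⟨_, fun _ => rfl⟩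
    obtain ⟨c', hc'⟩ : ∃ f : Fin k → ℂ, ∀ j, f j = C 1 1 * gc j + tp * C 1 0 * gd j := ⟨_, fun _ => rfl⟩
    have hac : ∀ j, ga j ≠ 0 ∨ gc j ≠ 0 := fun j => by
      by_contra hcon
      push Not at hcon
      have h1 := hdetC j
      rw [hcon.1, hcon.2] at h1
      simp at h1
    have hac' : ∀ j, a' j ≠ 0 ∨ c' j ≠ 0 := fun j => by
      by_contra hcon
      push Not at hcon
      obtain ⟨e1, e2⟩ := hcon
      rw [ha'] at e1
      rw [hc'] at e2
      have h1 := hdetC j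
      have h2 : C 1 1 = 0 := by
        linear_combination gd j * e1 - gb j * e2 - C 1 1 * h1
      have h3 : tp * C 1 0 = 0 := by
        linear_combination -gc j * e1 + ga j * e2 - tp * C 1 0 * h1
      have h4 : C 1 0 = 0 := (mul_eq_zero.1 h3).resolve_left ht
      rw [h2, h4] at hCd
      simp at hCd
    obtain ⟨u, hu, hup⟩ := dense3 hp0 hac hac'
    choose Z hZ1 hZ2 hZ3 using fun j => exists_ZC (u := fun i => u (j, i)) (hdet j) (hα0 j) (hu j).1 (by
      have h1 := (hu j).2.1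
      rw [hga, hgc] at h1
      exact h1)
    have hex : ∀ j, Z j 0 * C 1 1 - tp * Z j 1 * C 1 0 ≠ 0 := by
      intro j h0
      have h1 : u (j, 0) = (((γ j 0 0 : ℤ) : ℂ) * Z j 1 + ((γ j 0 1 : ℤ) : ℂ) * Z j 0) /
        (((γ j 1 0 : ℤ) : ℂ) * Z j 1 + ((γ j 1 1 : ℤ) : ℂ) * Z j 0) := hZ3 j 0
      have h2 : ((γ j 1 0 : ℤ) : ℂ) * Z j 1 + ((γ j 1 1 : ℤ) : ℂ) * Z j 0 ≠ 0 := hZ2 j 0
      rw [eq_div_iff h2, ← hga, ← hgb, ← hgc, ← hgd] at h1
      have h3 := (hu j).2.2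
      rw [ha', hc'] at h3
      have h4 : Z j 0 * ((C 1 1 * ga j + tp * C 1 0 * gb j) - (C 1 1 * gc j + tp * C 1 0 * gd j) * u (j, 0)) = 0 := by
        linear_combination (ga j - gc j * u (j, 0)) * h0 - tp * C 1 0 * h1
      rcases mul_eq_zero.1 h4 with h5 | h5
      · exact hZ1 j h5
      · exact h3 h5
    choose y hy1 hy2 hy3 hy4 using fun j => exists_y hC (hZ1 j) (hex j)
    refine ⟨fun a => y a.1 a.2, fun i => hy1 i, ?_⟩
    have hZZ : ∀ i, Zw (fun o => yhat C (fun a : Fin k × Fin 4 => y a.1 a.2) (i, o)) = Z i := by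
      intro i
      rw [hZw]
      funext j
      fin_cases j
      · exact hy2 i
      · exact hy3 i
      · exact hy4 i
    have h1 := Pt_eval (α := α') (γ := γ) hP w' (yhat C fun a : Fin k × Fin 4 => y a.1 a.2) u (fun b => by
      rw [hZZ b.1]
      exact hZ2 b.1 b.2) (fun b => by
      rw [hZZ b.1]
      exact hZ3 b.1 b.2)
    rw [sub_eval]
    intro h2
    have h3 := h1.1 h2
    rw [← hpe] at h3
    exact hup h3

end Pool.Agent.T2h17.MJ
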