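import Pool.Agent.T2h17.MJ.Stm

/-!
Translation of Galochkin's condition by a rational number.
-/

set_option autoImplicit false
set_option maxHeartbeats 400000

open PowerSeries

namespace Pool.Agent.T2h17.MJ.Shift

open Pool.Agent.Y113 Pool.Agent.Y120.GH Pool.Agent.Y120.GF
open Pool.Agent.T2h17.MJ (Gal shp)

/-- the rational polynomial -/
noncomputable def pq (P : Polynomial ℤ) : Polynomial ℚ := P.map (Int.castRingHom ℚ)

/-- the translation over the rational numbers -/
noncomputable def tr (x₀ : ℚ) (P : Polynomial ℤ) : Polynomial ℚ := (pq P).comp (Polynomial.X + Polynomial.C x₀)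

/-- the integral translation -/
noncomputable def sh (x₀ : ℚ) (m : ℕ) (P : Polynomial ℤ) : Polynomial ℤ :=
  ∑ l ∈ Finset.range (m + 1), Polynomial.C (P.coeff l * (x₀.den : ℤ) ^ (m - l)) *
    (Polynomial.C (x₀.den : ℤ) * Polynomial.X + Polynomial.C x₀.num) ^ l

theorem pq_inj : Function.Injective pq := Polynomial.map_injective _ (Int.castRingHom ℚ).injective_int

theorem pq_mul (P Q : Polynomial ℤ) : pq (P * Q) = pq P * pq Q := Polynomial.map_mul _

theorem tr_mul (x₀ : ℚ) (P Q : Polynomial ℤ) : tr x₀ (P * Q) = tr x₀ P * tr x₀ Q := by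
  unfold tr
  rw [pq_mul, Polynomial.mul_comp]

theorem tr_add (x₀ : ℚ) (P Q : Polynomial ℤ) : tr x₀ (P + Q) = tr x₀ P + tr x₀ Q := by
  unfold tr pq
  rw [Polynomial.map_add, Polynomial.add_comp]

theorem tr_sub (x₀ : ℚ) (P Q : Polynomial ℤ) : tr x₀ (P - Q) = tr x₀ P - tr x₀ Q := by
  unfold tr pq
  rw [Polynomial.map_sub, Polynomial.sub_comp]

theorem tr_sum (x₀ : ℚ) {σ : Type} (s : Finset σ) (f : σ → Polynomial ℤ) :
    tr x₀ (∑ i ∈ s, f i) = ∑ i ∈ s, tr x₀ (f i) := by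
  unfold tr pq
  rw [Polynomial.map_sum]
  exact map_sum (Polynomial.compRingHom (Polynomial.X + Polynomial.C x₀)) _ s

theorem tr_der (x₀ : ℚ) (P : Polynomial ℤ) :
    tr x₀ (Polynomial.derivative P) = Polynomial.derivative (tr x₀ P) := by
  unfold tr pq
  rw [Polynomial.derivative_comp, ← Polynomial.derivative_map]
  simp

theorem tr_natCast (x₀ : ℚ) (n : ℕ) : tr x₀ (n : Polynomial ℤ) = (n : Polynomial ℚ) := by
  unfold tr pq
  simp

theorem pq_sh (x₀ : ℚ) {m : ℕ} {P : Polynomial ℤ} (hP : P.natDegree ≤ m) :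
    pq (sh x₀ m P) = Polynomial.C ((x₀.den : ℚ) ^ m) * tr x₀ P := by
  have hb : (x₀.den : ℚ) ≠ 0 := by exact_mod_cast x₀.den_nz
  have hx : (x₀.den : ℚ) * x₀ = x₀.num := Rat.den_mul_eq_num x₀
  have h1 : tr x₀ P = ∑ l ∈ Finset.range (m + 1), Polynomial.C ((P.coeff l : ℤ) : ℚ) *
      (Polynomial.X + Polynomial.C x₀) ^ l := by
    unfold tr
    rw [Polynomial.comp, Polynomial.eval₂_eq_sum_range' (n := m + 1)]
    · refine Finset.sum_congr rfl fun l _ => ?_
      unfold pq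
      rw [Polynomial.coeff_map]
      rfl
    · unfold pq
      rw [Polynomial.natDegree_map_eq_of_injective (Int.castRingHom ℚ).injective_int]
      omega
  rw [h1, Finset.mul_sum]
  unfold sh pq
  rw [Polynomial.map_sum]
  refine Finset.sum_congr rfl fun l hl => ?_
  have hlm : l ≤ m := by
    rw [Finset.mem_range] at hl
    omega
  rw [Polynomial.map_mul, Polynomial.map_pow, Polynomial.map_add, Polynomial.map_mul, Polynomial.map_C,
    Polynomial.map_C, Polynomial.map_C, Polynomial.map_X]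
  have h2 : Polynomial.C ((Int.castRingHom ℚ) (x₀.den : ℤ)) * Polynomial.X +
      Polynomial.C ((Int.castRingHom ℚ) x₀.num) = Polynomial.C (x₀.den : ℚ) *
        (Polynomial.X + Polynomial.C x₀) := by
    rw [mul_add, ← Polynomial.C_mul, hx]
    simp
  rw [h2, mul_pow, ← mul_assoc, ← Polynomial.C_pow, ← Polynomial.C_mul, ← mul_assoc, ← Polynomial.C_mul]
  congr 2
  simp only [eq_intCast, Int.cast_mul, Int.cast_pow, Int.cast_natCast]
  rw [mul_assoc, ← pow_add, Nat.sub_add_cancel hlm, mul_comm]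

section
variable {r : ℕ}

theorem tr_itm (x₀ : ℚ) (q : ℕ) {T : Polynomial ℤ} {A : Fin r → Fin r → Polynomial ℤ} (hT : T.natDegree ≤ q)
    (hA : ∀ i j, (A i j).natDegree ≤ q) (s : ℕ) (i j : Fin r) :
    pq (itm (sh x₀ q T) (fun i j => sh x₀ q (A i j)) s i j) =
      Polynomial.C ((x₀.den : ℚ) ^ (q * s)) * tr x₀ (itm T A s i j) := by
  induction s generalizing i j with
  | zero =>
    show pq (if i = j then 1 else 0) = Polynomial.C ((x₀.den : ℚ) ^ (q * 0)) * tr x₀ (if i = j then 1 else 0)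
    split_ifs
    · unfold tr pq
      simp
    · unfold tr pq
      simp
  | succ s ih =>
    have e1 : ∀ P Q : Polynomial ℤ, pq (P + Q) = pq P + pq Q := fun P Q => Polynomial.map_add _
    have e2 : ∀ P Q : Polynomial ℤ, pq (P - Q) = pq P - pq Q := fun P Q => Polynomial.map_sub _
    have e3 : ∀ P : Polynomial ℤ, pq (Polynomial.derivative P) = Polynomial.derivative (pq P) := fun P =>
      (Polynomial.derivative_map _ _).symm
    have e4 : ∀ f : Fin r → Polynomial ℤ, pq (∑ l, f l) = ∑ l, pq (f l) := fun f => Polynomial.map_sum _ _ _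
    have e5 : ∀ n : ℕ, pq (n : Polynomial ℤ) = (n : Polynomial ℚ) := fun n => Polynomial.map_natCast _ _
    rw [itm, itm, e2, e1, pq_mul, e3, ih, e4, pq_mul, pq_mul, e3, ih, e5, pq_sh x₀ hT, tr_sub, tr_add, tr_mul,
      tr_der, tr_sum, tr_mul, tr_mul, tr_natCast, tr_der]
    have e6 : ∀ l, pq (itm (sh x₀ q T) (fun i j => sh x₀ q (A i j)) s i l * sh x₀ q (A l j)) =
        Polynomial.C ((x₀.den : ℚ) ^ (q * (s + 1))) * tr x₀ (itm T A s i l * A l j) := by
      intro l
      rw [pq_mul, ih, pq_sh x₀ (hA l j), tr_mul, Nat.mul_succ, pow_add, Polynomial.C_mul]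
      ring
    rw [Finset.sum_congr rfl fun l _ => e6 l, ← Finset.mul_sum, Nat.mul_succ, pow_add, Polynomial.C_mul,
      Polynomial.derivative_C_mul, Polynomial.derivative_C_mul]
    ring

theorem itm_deg (q : ℕ) {T : Polynomial ℤ} {A : Fin r → Fin r → Polynomial ℤ} (hT : T.natDegree ≤ q)
    (hA : ∀ i j, (A i j).natDegree ≤ q) : ∃ K : ℝ, 1 ≤ K ∧ ∀ s i j, (itm T A s i j).natDegree ≤ q * s ∧
      |(((itm T A s i j).coeff 0 : ℤ) : ℝ)| ≤ K ^ s * s.factorial := by
  obtain ⟨n, μ, hμ, h⟩ := L1_exists (fun o : Option (Fin r × Fin r) => o.elim T fun p => A p.1 p.2)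
  have key : ∀ P : Polynomial ℤ, L1 n μ P → P.natDegree ≤ q → L1 q μ P := by
    intro P hP hq
    refine ⟨hq, ?_⟩
    refine le_trans (le_of_eq ?_) hP.2
    have h1 : ∀ N : ℕ, P.natDegree ≤ N → ∑ l ∈ Finset.range (N + 1), |((P.coeff l : ℤ) : ℝ)| =
        ∑ l ∈ Finset.range (P.natDegree + 1), |((P.coeff l : ℤ) : ℝ)| := by
      intro N hN
      symm
      refine Finset.sum_subset (fun l hl => ?_) fun l _ hl => ?_
      · rw [Finset.mem_range] at hl ⊢
        omega
      · rw [Finset.mem_range] at hl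
        rw [Polynomial.coeff_eq_zero_of_natDegree_lt (by omega)]
        simp
    rw [h1 q hq, h1 n hP.1]
  have hT' := key T (h none) hT
  have hA' : ∀ i j, L1 q μ (A i j) := fun i j => key _ (h (some (i, j))) (hA i j)
  refine ⟨(2 * q + Fintype.card (Fin r) + 1) * μ, ?_, fun s i j => ?_⟩
  · have h2 : (1 : ℝ) ≤ 2 * q + Fintype.card (Fin r) + 1 := by
      have : (0 : ℝ) ≤ 2 * (q : ℝ) + Fintype.card (Fin r) := by positivity
      linarith
    nlinarith
  · have h3 := itm_L1 hμ hT' hA' s i j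
    exact ⟨h3.1, h3.coeff_le 0⟩

/-- Galochkin's condition after the translation -/
theorem gal_sh (x₀ : ℚ) (q : ℕ) {T : Polynomial ℤ} {A : Fin r → Fin r → Polynomial ℤ} (hT : T.natDegree ≤ q)
    (hA : ∀ i j, (A i j).natDegree ≤ q) (h : Gal T A) : Gal (sh x₀ q T) (fun i j => sh x₀ q (A i j)) := by
  obtain ⟨C, hC⟩ := h
  obtain ⟨K, -, hK⟩ := itm_deg q hT hA
  refine ⟨C, fun m => ?_⟩
  obtain ⟨d, hd, hd2, hd3⟩ := hC m
  refine ⟨d, hd, hd2, fun s hs i j => ?_⟩
  obtain ⟨H, hH⟩ := hd3 s hs i j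
  have hs0 : ((s.factorial : ℕ) : Polynomial ℤ) ≠ 0 := by exact_mod_cast s.factorial_ne_zero
  have hdeg : H.natDegree ≤ q * s := by
    have h1 := congrArg Polynomial.natDegree hH
    have e1 : ∀ (n : ℕ) (P : Polynomial ℤ), n ≠ 0 → ((n : Polynomial ℤ) * P).natDegree = P.natDegree := by
      intro n P hn
      have : (n : Polynomial ℤ) = Polynomial.C (n : ℤ) := by simp
      rw [this, Polynomial.natDegree_C_mul (by exact_mod_cast hn)]
    rw [e1 _ _ hd.ne', e1 _ _ s.factorial_ne_zero] at h1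
    rw [← h1]
    exact (hK s i j).1
  refine ⟨sh x₀ (q * s) H, pq_inj ?_⟩
  rw [pq_mul, pq_mul, tr_itm x₀ q hT hA, pq_sh x₀ hdeg]
  have h2 := congrArg (tr x₀) hH
  rw [tr_mul, tr_mul, tr_natCast, tr_natCast] at h2
  have e5 : ∀ n : ℕ, pq (n : Polynomial ℤ) = (n : Polynomial ℚ) := fun n => Polynomial.map_natCast _ _
  rw [e5, e5]
  calc (d : Polynomial ℚ) * (Polynomial.C ((x₀.den : ℚ) ^ (q * s)) * tr x₀ (itm T A s i j)) =
        Polynomial.C ((x₀.den : ℚ) ^ (q * s)) * ((d : Polynomial ℚ) * tr x₀ (itm T A s i j)) := by ring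
    _ = _ := by
        rw [h2]
        ring

end

end Pool.Agent.T2h17.MJ.Shift
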