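import Pool.Agent.T2h17.MJ.ShiftA

/-!
The fundamental matrix at an ordinary point.
-/

set_option autoImplicit false
set_option maxHeartbeats 400000

open PowerSeries

namespace Pool.Agent.T2h17.MJ.Shift

open Pool.Agent.Y113 Pool.Agent.Y120.GH Pool.Agent.Y120.GF
open Pool.Agent.T2h17.MJ (Gal shp)

section
variable {r : ℕ}

/-- the coefficients of the solution of `y' = B y` with the initial value `v` -/
noncomputable def cf (B : Fin r → Fin r → ℚ⟦X⟧) (v : Fin r → ℚ) : ℕ → Fin r → ℚ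
  | 0 => v
  | m + 1 => fun i => (∑ j, ∑ p : Fin (m + 1), coeff (m - p) (B i j) * cf B v p j) / ((m : ℚ) + 1)
  decreasing_by
    exact p.2

/-- the solution -/
noncomputable def sol (B : Fin r → Fin r → ℚ⟦X⟧) (v : Fin r → ℚ) (i : Fin r) : ℚ⟦X⟧ :=
  PowerSeries.mk fun m => cf B v m i

theorem sol_zero (B : Fin r → Fin r → ℚ⟦X⟧) (v : Fin r → ℚ) (i : Fin r) :
    constantCoeff (sol B v i) = v i := by
  unfold sol
  rw [← coeff_zero_eq_constantCoeff_apply, coeff_mk, cf]

theorem sol_der (B : Fin r → Fin r → ℚ⟦X⟧) (v : Fin r → ℚ) (i : Fin r) :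
    d⁄dX ℚ (sol B v i) = ∑ j, B i j * sol B v j := by
  ext m
  have hm : ((m : ℚ) + 1) ≠ 0 := by positivity
  rw [coeff_derivative, map_sum]
  unfold sol
  rw [coeff_mk, cf, div_mul_cancel₀ _ hm]
  refine Finset.sum_congr rfl fun j _ => ?_
  rw [mul_comm (B i j), coeff_mul, Finset.Nat.sum_antidiagonal_eq_sum_range_succ_mk, Finset.sum_range]
  refine Finset.sum_congr rfl fun p _ => ?_
  rw [coeff_mk, mul_comm]

/-- solutions of `T y' = A y` at a point with `T(0) ≠ 0` -/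
theorem ex_sol {T : Polynomial ℤ} (A : Fin r → Fin r → Polynomial ℤ) (hT : T.coeff 0 ≠ 0) (v : Fin r → ℚ) :
    ∃ y : Fin r → ℚ⟦X⟧, (∀ i, constantCoeff (y i) = v i) ∧ ∀ i, ps T * d⁄dX ℚ (y i) = ∑ j, ps (A i j) * y j := by
  have h0 : constantCoeff (ps T) ≠ 0 := by
    rw [← coeff_zero_eq_constantCoeff_apply]
    unfold ps
    rw [Polynomial.coeff_coe, Polynomial.coeff_map]
    simpa using hT
  refine ⟨sol (fun i j => (ps T)⁻¹ * ps (A i j)) v, sol_zero _ _, fun i => ?_⟩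
  rw [sol_der, Finset.mul_sum]
  refine Finset.sum_congr rfl fun j _ => ?_
  rw [← mul_assoc, ← mul_assoc, PowerSeries.mul_inv_cancel _ h0, one_mul]

/-- the coefficients of the fundamental matrix -/
theorem coeff_sol {T : Polynomial ℤ} {A : Fin r → Fin r → Polynomial ℤ} {y : Fin r → ℚ⟦X⟧}
    (hode : ∀ i, ps T * d⁄dX ℚ (y i) = ∑ j, ps (A i j) * y j) (k : Fin r)
    (hy : ∀ i, constantCoeff (y i) = if i = k then 1 else 0) (s : ℕ) (i : Fin r) :
    (s.factorial : ℚ) * ((T.coeff 0 : ℤ) : ℚ) ^ s * coeff s (y i) = (((itm T A s i k).coeff 0 : ℤ) : ℚ) := by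
  have h1 := congrArg (fun f : ℚ⟦X⟧ => constantCoeff f) (itm_spec hode s i)
  have hps : ∀ P : Polynomial ℤ, constantCoeff (ps P) = ((P.coeff 0 : ℤ) : ℚ) := by
    intro P
    rw [← coeff_zero_eq_constantCoeff_apply]
    unfold ps
    rw [Polynomial.coeff_coe, Polynomial.coeff_map]
    rfl
  have hhd : constantCoeff (hd s (y i)) = coeff s (y i) := by
    rw [← coeff_zero_eq_constantCoeff_apply]
    unfold hd
    rw [coeff_mk, Nat.zero_add, Nat.choose_self, Nat.cast_one, one_mul]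
  simp only [map_mul, map_pow, map_sum, hps, hhd, hy, mul_ite, mul_one, mul_zero, map_natCast] at h1
  rw [Finset.sum_ite_eq' Finset.univ k, if_pos (Finset.mem_univ _)] at h1
  rw [mul_assoc]
  exact h1

end

/-! ### the `4 × 4` system of the entries -/

/-- the row of an entry -/
def rw4 : Fin 4 → Fin 2 := ![0, 0, 1, 1]

/-- the column of an entry -/
def cl4 : Fin 4 → Fin 2 := ![0, 1, 0, 1]

/-- the matrix of the system of the entries -/
noncomputable def A4 (A : Fin 2 → Fin 2 → Polynomial ℤ) : Fin 4 → Fin 4 → Polynomial ℤ :=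
  fun a c => if cl4 a = cl4 c then A (rw4 a) (rw4 c) else 0

/-- sums over the entries -/
theorem sum4 {R : Type} [AddCommMonoid R] (k : Fin 2) (f : Fin 2 → R) :
    ∑ l : Fin 4, (if k = cl4 l then f (rw4 l) else 0) = ∑ i, f i := by
  rw [Fin.sum_univ_four, Fin.sum_univ_two]
  have a0 : cl4 0 = 0 := rfl
  have a1 : cl4 1 = 1 := rfl
  have a2 : cl4 2 = 0 := rfl
  have a3 : cl4 3 = 1 := rfl
  have b0 : rw4 0 = 0 := rfl
  have b1 : rw4 1 = 0 := rfl
  have b2 : rw4 2 = 1 := rfl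
  have b3 : rw4 3 = 1 := rfl
  rw [a0, a1, a2, a3, b0, b1, b2, b3]
  fin_cases k
  · simp
  · simp

theorem ext4 {a c : Fin 4} : a = c ↔ cl4 a = cl4 c ∧ rw4 a = rw4 c := by
  revert a c
  decide

theorem itm4 (T : Polynomial ℤ) (A : Fin 2 → Fin 2 → Polynomial ℤ) (s : ℕ) (a c : Fin 4) :
    itm T (A4 A) s a c = if cl4 a = cl4 c then itm T A s (rw4 a) (rw4 c) else 0 := by
  induction s generalizing a c with
  | zero =>
    show (if a = c then (1 : Polynomial ℤ) else 0) = if cl4 a = cl4 c then (if rw4 a = rw4 c then 1 else 0) else 0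
    by_cases h1 : cl4 a = cl4 c
    · by_cases h2 : rw4 a = rw4 c
      · rw [if_pos (ext4.2 ⟨h1, h2⟩), if_pos h1, if_pos h2]
      · rw [if_neg (fun h => h2 (ext4.1 h).2), if_pos h1, if_neg h2]
    · rw [if_neg (fun h => h1 (ext4.1 h).1), if_neg h1]
  | succ s ih =>
    rw [itm]
    beta_reduce
    have h1 : ∑ l, itm T (A4 A) s a l * A4 A l c = if cl4 a = cl4 c then
        ∑ i, itm T A s (rw4 a) i * A i (rw4 c) else 0 := by
      by_cases hc : cl4 a = cl4 c
      · rw [if_pos hc, ← sum4 (cl4 a) fun i => itm T A s (rw4 a) i * A i (rw4 c)]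
        refine Finset.sum_congr rfl fun l _ => ?_
        rw [ih, A4]
        by_cases h : cl4 a = cl4 l
        · rw [if_pos h, if_pos h, if_pos (h.symm.trans hc)]
        · rw [if_neg h, if_neg h, zero_mul]
      · rw [if_neg hc]
        refine Finset.sum_eq_zero fun l _ => ?_
        rw [ih, A4]
        by_cases h : cl4 a = cl4 l
        · rw [if_neg fun h2 => hc (h.trans h2), mul_zero]
        · rw [if_neg h, zero_mul]
    rw [h1, ih]
    by_cases hc : cl4 a = cl4 c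
    · rw [if_pos hc, if_pos hc, if_pos hc, itm]
    · rw [if_neg hc, if_neg hc, if_neg hc]
      simp

theorem gal4 {T : Polynomial ℤ} {A : Fin 2 → Fin 2 → Polynomial ℤ} (h : Gal T A) : Gal T (A4 A) := by
  obtain ⟨C, hC⟩ := h
  refine ⟨C, fun m => ?_⟩
  obtain ⟨d, hd, hd2, hd3⟩ := hC m
  refine ⟨d, hd, hd2, fun s hs a c => ?_⟩
  by_cases hc : cl4 a = cl4 c
  · obtain ⟨H, hH⟩ := hd3 s hs (rw4 a) (rw4 c)
    exact ⟨H, by rw [itm4, if_pos hc, hH]⟩
  · exact ⟨0, by rw [itm4, if_neg hc, mul_zero, mul_zero]⟩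

end Pool.Agent.T2h17.MJ.Shift
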