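import Pool.Agent.T2h17.MJ.Rel
import Pool.Agent.T2h17.MJ.Trd
import Pool.Agent.T2h17.MJ.Near
import Pool.Agent.Y120.A.WinA
import Pool.Agent.Y916.Af.Nolog

/-!
Windows near a point with rational invariant.
-/

set_option autoImplicit false
set_option maxHeartbeats 1000000

open PowerSeries Module Pool.Agent.Y120.J Pool.Agent.Y120.K Pool.Agent.Y120.A
open Pool.Agent.TH21.MS (jj)
open Pool.Agent.Y916.Af (GFam Vc ptn winN irrD_of_irr)
open Pool.Agent.Y916.Al (evc)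
open Pool.Agent.Y916

namespace Pool.Agent.T2h17.MJ

/-- existence of points near `z₀` with given invariant -/
theorem exists_near {z₀ : ℂ} (hz : 0 < z₀.im) (h0 : jj z₀ ≠ 0) (hd : deriv jj z₀ ≠ 0) {ρ : ℝ} (hρ : 0 < ρ) :
    ∃ r : ℝ, 0 < r ∧ ∀ x : ℂ, ‖x - 1 / jj z₀‖ < r → ∃ v : ℂ, ‖v - z₀‖ < ρ ∧ 1 / jj v = x := by
  have h1 : AnalyticAt ℂ jj z₀ := Pool.Agent.TH21.MS.jj_an z₀ hz
  have h2 : AnalyticAt ℂ (fun z => (jj z)⁻¹) z₀ := h1.inv h0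
  have h3 : HasStrictDerivAt (fun z => (jj z)⁻¹) (deriv (fun z => (jj z)⁻¹) z₀) z₀ := h2.hasStrictDerivAt
  have h4 : deriv (fun z => (jj z)⁻¹) z₀ ≠ 0 := by
    have h5 := h1.differentiableAt.hasDerivAt.fun_inv h0
    rw [h5.deriv]
    exact div_ne_zero (neg_ne_zero.2 hd) (pow_ne_zero 2 h0)
  have h5 := h3.map_nhds_eq h4
  have h6 : (fun z => (jj z)⁻¹) '' Metric.ball z₀ ρ ∈ nhds ((jj z₀)⁻¹) := by
    rw [← h5]
    exact Filter.image_mem_map (Metric.ball_mem_nhds z₀ hρ)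
  obtain ⟨r, hr, h7⟩ := Metric.mem_nhds_iff.1 h6
  refine ⟨r, hr, fun x hx => ?_⟩
  obtain ⟨v, hv, hvx⟩ := h7 (show x ∈ Metric.ball ((jj z₀)⁻¹) r by
    rw [Metric.mem_ball, dist_eq_norm, ← one_div]
    exact hx)
  refine ⟨v, ?_, ?_⟩
  · rw [Metric.mem_ball, dist_eq_norm] at hv
    exact hv
  · rw [← hvx, one_div]

/-- **windows near a point with rational invariant** -/
theorem win (hgal : S_GAL) (hsh : S_SHIFT) (hloc : S_LOC) (hvc : S_VC) {z₀ : ℂ} {x₀ : ℚ} (hz₀ : 0 < z₀.im)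
    (h0 : jj z₀ ≠ 0) (h1728 : jj z₀ ≠ 1728) (hx : 1 / jj z₀ = x₀) {τ : ℕ}
    (hτ : Algebra.trdeg ℚ (IntermediateField.adjoin ℚ (insert tpi (Set.range (jt z₀)))) ≤ τ) :
    ∃ (ρ : ℝ) (G0 : ℕ), 0 < ρ ∧ ∀ G : ℕ, G0 ≤ G → ∀ q k m d δ A : ℕ, ∃ E : ℕ,
    ∀ (H : ℕ) (ξ : ℂ), ((H : ℝ) + 2) ^ E ≤ ‖ξ‖ → Al.Ht m A ξ →
    (∀ u : ℕ, 1 ≤ u → u ≤ H → ∃ v : ℂ, ‖v - z₀‖ < ρ ∧ 0 < v.im ∧ 1 / jj v = x₀ + 1 / (ξ - ((G * u : ℕ) : ℂ))) ∧
    ∀ w : Fin q → ℂ, ∃ S : Finset ℕ, S.card ≤ τ + q ∧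
    ∀ u : Fin k → ℕ, Function.Injective u → (∀ j, 1 ≤ u j ∧ u j ≤ H ∧ u j ∉ S) →
    ∀ (v : Fin k → UpperHalfPlane) (γ : Fin k → Matrix.SpecialLinearGroup (Fin 2) ℤ),
    (∀ j, ‖(v j : ℂ) - z₀‖ < ρ ∧ 1 / jj (v j) = x₀ + 1 / (ξ - ((G * u j : ℕ) : ℂ))) →
    ∀ L : IntermediateField ℚ ℂ, FiniteDimensional ℚ L → finrank ℚ L ≤ d →
    ∀ P : MvPolynomial ((Option (Fin q) ⊕ Fin 3) ⊕ Fin k × Fin 3) L, P.totalDegree ≤ δ →
    MvPolynomial.aeval (Sum.elim (Sum.elim (wo w) (jt z₀)) fun a : Fin k × Fin 3 => jt ((γ a.1 • v a.1 : UpperHalfPlane) : ℂ) a.2) P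
      = 0 →
    ∀ y, MvPolynomial.aeval (Sum.elim (Sum.elim (wo w) (jt z₀)) y) P = 0 := by
  classical
  -- the fundamental matrix
  have hx₀ : (x₀ : ℂ) ≠ 0 := by
    rw [← hx]
    exact one_div_ne_zero h0
  have hTJ : Polynomial.aeval x₀ TJ ≠ 0 := by
    unfold TJ
    rw [map_mul, Polynomial.aeval_X]
    refine mul_ne_zero (by exact_mod_cast hx₀) ?_
    intro h1
    have h2 : (1 : ℚ) - 1728 * x₀ = 0 := by
      have h3 : Polynomial.aeval x₀ T1 = (1 - 1728 * x₀) ^ 2 := by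
        have h5 : Polynomial.aeval x₀ (1728 : Polynomial ℤ) = 1728 := map_ofNat _ 1728
        simp [T1, h5]
      rw [h3] at h1
      exact pow_eq_zero_iff (two_ne_zero) |>.1 h1
    apply h1728
    have h4 : (1 : ℂ) - 1728 * (1 / jj z₀) = 0 := by
      rw [hx]
      exact_mod_cast h2
    field_simp at h4
    linear_combination h4
  obtain ⟨h, T', A', hGF, hF⟩ := hsh TJ AJ hgal x₀ hTJ
  obtain ⟨C, hC, hCalg, ρ₁, hρ₁, hlocz⟩ := hloc z₀ x₀ h hz₀ h0 h1728 hx hF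
  obtain ⟨ρ₂, hρ₂, hne⟩ := ev_ne hF.c0 (by
    obtain ⟨B, hB⟩ := hF.size
    exact ⟨B, fun m => hB 0 m⟩)
  have hd0 : deriv jj z₀ ≠ 0 := (hlocz z₀ (by rw [sub_self, norm_zero]; exact hρ₁)).2.2.1
  obtain ⟨r, hr, hex⟩ := exists_near hz₀ h0 hd0 hρ₁
  obtain ⟨G0, hG0, hW⟩ := winN hGF
  refine ⟨ρ₁, G0, hρ₁, fun G hGG q k m d δ A => ?_⟩
  obtain ⟨δ₁, E, hE⟩ := hW G hGG 8 (Om C (jt z₀)) q k m (d * m) (dd (q + 3) k δ * 2) A
  obtain ⟨B, hB⟩ := exists_nat_gt (max (1 / r) (1 / ρ₂))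
  refine ⟨E + G + B + 2, fun H ξ hξ hHt => ?_⟩
  have hH2 : (2 : ℝ) ≤ (H : ℝ) + 2 := by linarith [(Nat.cast_nonneg H : (0 : ℝ) ≤ H)]
  have hH1 : (1 : ℝ) ≤ (H : ℝ) + 2 := by linarith
  have h2n : ∀ n : ℕ, (n : ℝ) ≤ ((H : ℝ) + 2) ^ n := fun n => by
    refine le_trans ?_ (pow_le_pow_left₀ (by norm_num) hH2 n)
    exact_mod_cast (Nat.lt_two_pow_self (n := n)).le
  have hbig : (G : ℝ) * (H + 2) + B ≤ ‖ξ‖ := by
    refine le_trans ?_ ((pow_le_pow_right₀ hH1 (by omega : G + 1 + B + 1 ≤ E + G + B + 2)).trans hξ)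
    have h3 : (1 : ℝ) ≤ ((H : ℝ) + 2) ^ (G + 1) := one_le_pow₀ hH1
    have h4 : (1 : ℝ) ≤ ((H : ℝ) + 2) ^ B := one_le_pow₀ hH1
    have h5 : (G : ℝ) * (H + 2) ≤ ((H : ℝ) + 2) ^ (G + 1) := by
      rw [pow_succ]
      exact mul_le_mul_of_nonneg_right (h2n G) (by linarith)
    have h6 : (B : ℝ) ≤ ((H : ℝ) + 2) ^ B := h2n B
    calc (G : ℝ) * (H + 2) + B ≤ ((H : ℝ) + 2) ^ (G + 1) + ((H : ℝ) + 2) ^ B := add_le_add h5 h6
      _ ≤ ((H : ℝ) + 2) ^ (G + 1) * ((H : ℝ) + 2) ^ B * 2 := by nlinarith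
      _ ≤ ((H : ℝ) + 2) ^ (G + 1) * ((H : ℝ) + 2) ^ B * ((H : ℝ) + 2) :=
          mul_le_mul_of_nonneg_left hH2 (by positivity)
      _ = _ := by rw [← pow_add, ← pow_succ]
  have hαB : ∀ u : ℕ, u ≤ H → (B : ℝ) < ‖ξ - ((G * u : ℕ) : ℂ)‖ := by
    intro u hu
    have h5 := norm_sub_norm_le ξ ((G * u : ℕ) : ℂ)
    rw [Complex.norm_natCast] at h5
    have hGR : (1 : ℝ) ≤ G := by exact_mod_cast hG0.trans hGG
    have h6 : ((G * u : ℕ) : ℝ) ≤ G * H := by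
      push_cast
      exact mul_le_mul_of_nonneg_left (by exact_mod_cast hu) (by linarith)
    nlinarith
  have hsmall : ∀ u : ℕ, u ≤ H → ‖1 / (ξ - ((G * u : ℕ) : ℂ))‖ < r ∧ ‖1 / (ξ - ((G * u : ℕ) : ℂ))‖ < ρ₂ := by
    intro u hu
    have h5 := hαB u hu
    have hr1 : 1 / r < ‖ξ - ((G * u : ℕ) : ℂ)‖ := ((le_max_left _ _).trans_lt hB).trans h5
    have hr2 : 1 / ρ₂ < ‖ξ - ((G * u : ℕ) : ℂ)‖ := ((le_max_right _ _).trans_lt hB).trans h5
    have hpos : 0 < ‖ξ - ((G * u : ℕ) : ℂ)‖ := lt_of_le_of_lt (Nat.cast_nonneg B) h5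
    rw [norm_div, norm_one]
    constructor
    · rw [div_lt_iff₀ hpos]
      rw [div_lt_iff₀ hr] at hr1
      linarith
    · rw [div_lt_iff₀ hpos]
      rw [div_lt_iff₀ hρ₂] at hr2
      linarith
  refine ⟨fun u _ hu => ?_, fun w => ?_⟩
  · obtain ⟨v, hv, hvx⟩ := hex (x₀ + 1 / (ξ - ((G * u : ℕ) : ℂ))) (by
      rw [hx, add_sub_cancel_left]
      exact (hsmall u hu).1)
    exact ⟨v, hv, (hlocz v hv).1, hvx⟩
  obtain ⟨S, hS, hwin⟩ := hE H ξ ((pow_le_pow_right₀ hH1 (by omega)).trans hξ) hHt w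
  refine ⟨S, ?_, ?_⟩
  · have h1 : (S.card : Cardinal) ≤ ((τ + q : ℕ) : Cardinal) := by
      refine hS.trans ?_
      rw [Nat.cast_add]
      refine add_le_add (le_trans (trdeg_le_alg ?_ ?_) hτ) le_rfl
      · exact (Set.finite_range _).insert _
      · have hmem : ∀ x ∈ (insert tpi (Set.range (jt z₀)) : Set ℂ),
            IsAlgebraic (Algebra.adjoin ℚ (insert tpi (Set.range (jt z₀)) : Set ℂ)) x := fun x hx' =>
          isAlgebraic_algebraMap (⟨x, Algebra.subset_adjoin hx'⟩ :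
            Algebra.adjoin ℚ (insert tpi (Set.range (jt z₀)) : Set ℂ))
        have hset : ({tp, z₀, deriv jj z₀, deriv (deriv jj) z₀} : Set ℂ) = insert tpi (Set.range (jt z₀)) := by
          have h2 : Set.range (jt z₀) = {z₀, deriv jj z₀, deriv (deriv jj) z₀} := by
            unfold jt
            rw [Matrix.range_cons, Matrix.range_cons, Matrix.range_cons, Matrix.range_empty, Set.union_empty]
            rfl
          rw [h2]
          rfl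
        rw [hset] at hCalg
        rintro x ⟨i, rfl⟩
        fin_cases i
        · exact hmem _ (Set.mem_insert _ _)
        · exact hCalg 0 0
        · exact hCalg 0 1
        · exact hCalg 1 0
        · exact hCalg 1 1
        · exact hmem _ (Set.mem_insert_of_mem _ ⟨0, rfl⟩)
        · exact hmem _ (Set.mem_insert_of_mem _ ⟨1, rfl⟩)
        · exact hmem _ (Set.mem_insert_of_mem _ ⟨2, rfl⟩)
    exact_mod_cast h1
  intro u hu hub v γ hvz L hLf hLd P hPd hP0 y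
  by_contra hy
  obtain ⟨halg, hdeg⟩ := ht_alg hHt
  have := hLf
  obtain ⟨K, hKf, hKd, hLK, hξK⟩ := fld L (fun _ : Fin 1 => ξ) (fun _ => halg) (fun _ => hdeg)
  have hξK := hξK 0
  -- the values
  set t : Fin k → ℂ := fun j => 1 / (ξ - ((G * u j : ℕ) : ℂ)) with ht
  have htt : ∀ j, 1 / jj (v j) - x₀ = t j := fun j => by
    rw [(hvz j).2, add_sub_cancel_left]
  set y₀ : Fin k × Fin 4 → ℂ := ptn h (fun j => ξ - ((G * u j : ℕ) : ℂ)) with hy₀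
  have hyv : ∀ j l, y₀ (j, l) = evc (t j) (h l) := fun j l => rfl
  have hpm : ∀ j, pm h C (t j) = ym C fun l => y₀ (j, l) := fun j => rfl
  have hl := fun j => hlocz (v j) (hvz j).1
  simp only [htt, hpm] at hl
  have hY₀ : y₀ ∈ Y4 k := by
    intro j
    refine ⟨hne (t j) (hsmall (u j) (hub j).2.1).2, ?_⟩
    have h1 := (hl j).2.2.2.2.2.2.2
    unfold ym at h1
    rw [Matrix.det_mul, hC, mul_one, Matrix.det_fin_two] at h1
    show y₀ (j, 0) * y₀ (j, 3) - y₀ (j, 2) * y₀ (j, 1) = 1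
    rw [mul_comm (y₀ (j, 2))]
    exact h1
  have hαK : ∀ j, jj (v j) ∈ K := by
    intro j
    have h1 : jj (v j) = 1 / (x₀ + 1 / (ξ - ((G * u j : ℕ) : ℂ))) := by
      rw [← (hvz j).2, one_div_one_div]
    rw [h1]
    refine div_mem (one_mem K) (add_mem ?_ (div_mem (one_mem K) (sub_mem hξK (natCast_mem K _))))
    exact K.algebraMap_mem x₀
  -- the relation
  set P' : MvPolynomial ((Option (Fin q) ⊕ Fin 3) ⊕ Fin k × Fin 3) K :=
    MvPolynomial.map (IntermediateField.inclusion hLK : L →+* K) P with hP'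
  have hPd' : P'.totalDegree ≤ δ := deg_incl hLK P hPd
  let e : Option (Fin q) ⊕ Fin 3 → Option (Fin (q + 3)) := Sum.elim (fun o => o.map (Fin.castAdd 3)) fun j => some (Fin.natAdd q j)
  have he : ∀ y : Fin k × Fin 3 → ℂ, MvPolynomial.aeval (Sum.elim (wo (Fin.append w (jt z₀))) y)
      (MvPolynomial.rename (Sum.map e id) P') = MvPolynomial.aeval (Sum.elim (Sum.elim (wo w) (jt z₀)) y) P := by
    intro y
    rw [MvPolynomial.aeval_rename, ← aeval_incl hLK P]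
    congr 2
    funext x
    rcases x with (o | j) | x
    · rcases o with _ | o
      · rfl
      · show Fin.append w (jt z₀) (Fin.castAdd 3 o) = w o
        rw [Fin.append_left]
    · show Fin.append w (jt z₀) (Fin.natAdd q j) = jt z₀ j
      rw [Fin.append_right]
    · rfl
  obtain ⟨Q, hQd, hQ0, hQ1⟩ := rel (δ := δ) w (jt z₀) hC (α := fun j => jj (v j)) (fun j => (hl j).2.1) (v := v) (y₀ := y₀)
    (fun j => (hl j).2.2.2.1) (fun j => (hl j).2.2.2.2.1) (fun j => (hl j).2.2.2.2.2.1)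
    (fun j => (hl j).2.2.2.2.2.2.1) γ (fun j => rfl) K hαK (MvPolynomial.rename (Sum.map e id) P')
    ((MvPolynomial.totalDegree_rename_le _ _).trans hPd')
  obtain ⟨y₁, hy₁, hQy⟩ := hQ1 ⟨y, by rwa [he]⟩
  apply hQy
  refine hwin u hu hub (Y4 k) (irrD_of_irr (irr_Y4 k) _) hY₀ (fun y hy j => hvc z₀ x₀ h hz₀ h0 h1728 hx hF _ _ (hy j).1 (hy j).2)
    K hKf (by
      refine hKd.trans ?_
      rw [pow_one]
      exact Nat.mul_le_mul_right _ hLd) Q hQd ?_ y₁ hy₁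
  exact hQ0 (by rw [he]; exact hP0)

end Pool.Agent.T2h17.MJ
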